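import Mathlib

/-!
# The problem `O | p_ij = 1, r_j | ∑ w_j U_j` and `k`-Clique: instances, solutions, codes
-/

namespace Pool.Agent.OpenShop

/-- A job: release date, due date and weight. -/
structure Job where
  r : ℕ
  d : ℕ
  w : ℕ

/-- An instance: the number of machines and the jobs. -/
structure Shop where
  m : ℕ
  jobs : List Job

/-- A schedule: the start time of the operation of every job on every machine. -/
abbrev Schedule (I : Shop) := Fin I.jobs.length → Fin I.m → ℝ

/-- Feasible schedules: unit time operations start after the release date, no machine processes two
operations at the same time, no job is processed on two machines at the same time. -/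
structure Feasible (I : Shop) (S : Schedule I) : Prop where
  release : ∀ j i, ((I.jobs.get j).r : ℝ) ≤ S j i
  machine : ∀ i j j', j ≠ j' → S j i + 1 ≤ S j' i ∨ S j' i + 1 ≤ S j i
  job : ∀ j i i', i ≠ i' → S j i + 1 ≤ S j i' ∨ S j i' + 1 ≤ S j i

/-- A job is late if its last operation is completed after the due date. -/
def Late (I : Shop) (S : Schedule I) (j : Fin I.jobs.length) : Prop :=
  ∃ i, ((I.jobs.get j).d : ℝ) < S j i + 1

open Classical in
/-- Weighted number of tardy jobs. -/
noncomputable def tardyWeight (I : Shop) (S : Schedule I) : ℕ :=
  ∑ j, if Late I S j then (I.jobs.get j).w else 0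

/-- The minimum of the weighted number of tardy jobs. -/
noncomputable def opt (I : Shop) : ℕ := sInf {c | ∃ S, Feasible I S ∧ tardyWeight I S = c}

/-- Self-delimiting binary code of a natural number: each binary digit (least significant first)
is preceded by `1`, and the code ends with `0`. -/
def encNat (n : ℕ) : List Bool := n.bits.flatMap (fun b => [true, b]) ++ [false]

/-- Code of a job: release date, due date, weight. -/
def encJob (j : Job) : List Bool := encNat j.r ++ encNat j.d ++ encNat j.w

/-- Code of an instance: the number of machines and the jobs. -/
def encShop (I : Shop) : List Bool := encNat I.m ++ I.jobs.flatMap encJob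

/-- Instances of `k`-Clique: a number `k` and a graph with vertices `0, …, n - 1`. -/
structure CliqueInst where
  k : ℕ
  n : ℕ
  G : SimpleGraph (Fin n)

/-- The graph has a clique with `k` vertices. -/
def HasClique (a : CliqueInst) : Prop := ∃ s : Finset (Fin a.n), a.G.IsNClique a.k s

open Classical in
/-- Code of an instance of `k`-Clique: `k` and `n` in unary, then the adjacency matrix row by
row. -/
noncomputable def encClique (a : CliqueInst) : List Bool :=
  List.replicate a.k true ++ [false] ++ List.replicate a.n true ++ [false] ++
    List.ofFn (fun i : Fin (a.n * a.n) => decide (a.G.Adj i.divNat i.modNat))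

end Pool.Agent.OpenShop
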