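import Mathlib
import Pool.Agent.OpenShop.Model

/-!
# The minimum is attained
-/

namespace Pool.Agent.OpenShop

/-- Every instance has a feasible schedule. -/
theorem exists_feasible (I : Shop) : ∃ S, Feasible I S := by
  classical
  set T : ℕ := ∑ j : Fin I.jobs.length, (I.jobs.get j).r with hT
  have hsep : ∀ a b : ℕ, a ≠ b → (a : ℝ) + 1 ≤ b ∨ (b : ℝ) + 1 ≤ a := by
    intro a b h
    rcases Nat.lt_or_gt_of_ne h with h | h
    · left; exact_mod_cast h
    · right; exact_mod_cast h
  refine ⟨fun j i => ((T + (j : ℕ) * I.m + (i : ℕ) : ℕ) : ℝ), ⟨?_, ?_, ?_⟩⟩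
  · intro j i
    have : (I.jobs.get j).r ≤ T := Finset.single_le_sum (f := fun j => (I.jobs.get j).r)
      (fun _ _ => Nat.zero_le _) (Finset.mem_univ j)
    exact_mod_cast (by omega : (I.jobs.get j).r ≤ T + (j : ℕ) * I.m + (i : ℕ))
  · intro i j j' h
    apply hsep
    intro he
    apply h
    apply Fin.ext
    have : (j : ℕ) * I.m = j' * I.m := by omega
    exact Nat.eq_of_mul_eq_mul_right (lt_of_le_of_lt (Nat.zero_le _) i.2) this
  · intro j i i' h
    apply hsep
    intro he
    apply h
    apply Fin.ext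
    omega

/-- `opt` is the minimum of the weighted number of tardy jobs over all feasible schedules. -/
theorem opt_isLeast (I : Shop) : IsLeast {c | ∃ S, Feasible I S ∧ tardyWeight I S = c} (opt I) := by
  obtain ⟨S, hS⟩ := exists_feasible I
  exact ⟨Nat.sInf_mem ⟨_, S, hS, rfl⟩, fun c hc => Nat.sInf_le hc⟩

end Pool.Agent.OpenShop
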