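import Mathlib

/-!
# The sweep argument

Abstract combinatorial core of the hardness proof: a collection of jobs using sites
`(ν, z)` (nominal index `ν`, zone `z`), with costs that decrease quickly in time.
-/

namespace Pool.Agent.OpenShop

open Finset

/-- The frame: index structure. -/
structure Frame where
  m : ℕ
  N : ℕ
  K : ℕ
  fst : ℕ → Bool
  hm : 1 ≤ m
  hK : 2 * m ≤ K
  h1 : ∀ ν, fst ν = true → fst (ν + 1) = false
  h2 : ∀ ν, fst ν = true → 2 * m ≤ ν ∧ ν + 1 < K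
  h3 : ∀ ν, fst ν = true → 3 ≤ m

namespace Frame

variable (F : Frame)

def snd : ℕ → Bool
  | 0 => false
  | ν + 1 => F.fst ν

def reg (ν : ℕ) : Bool := F.fst ν || F.snd ν

def blk (ν : ℕ) : ℕ := if F.snd ν then ν - 1 else ν

def W : ℕ := 2 * F.N + 3

/-- exponent of the start cost -/
def e (ν x : ℕ) : ℕ :=
  if F.fst ν then F.W * (F.K - ν - 1) + 2 * (F.N - 1 - x) + 1
  else if F.snd ν then F.W * (F.K - ν) + 2 * (F.N - 1 - x)
  else F.W * (F.K - ν)

/-- end cost -/
def cc (j : ℕ × ℕ × ℕ) : ℕ := if F.reg (j.1 + F.m - 1) then 2 ^ j.2.2 else 0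

/-- hole cost -/
def dl (ν z : ℕ) : ℕ :=
  2 ^ (F.W * (F.K - ν)) - 2 ^ F.e ν z - 2 ^ F.e (ν + 1) z - 2 * 2 ^ z

/-- regular cost of an index -/
def rc (ν : ℕ) : ℕ := if F.snd ν then 0 else 2 ^ (F.W * (F.K - ν))

/-- order of sites -/
def sle (a b : ℕ × ℕ) : Prop :=
  F.blk a.1 < F.blk b.1 ∨ (F.blk a.1 = F.blk b.1 ∧ (a.2 < b.2 ∨ (a.2 = b.2 ∧ a.1 ≤ b.1)))

def Q : ℕ := ∑ ν ∈ Ico 1 F.K, F.rc ν

variable {F}

theorem snd_succ (ν : ℕ) : F.snd (ν + 1) = F.fst ν := rfl

theorem snd_of_fst {ν : ℕ} (h : F.fst ν = true) : F.snd ν = false := by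
  rcases ν with _ | ν
  · rfl
  · by_contra h'
    have h'' : F.fst ν = true := by simpa [snd] using h'
    have := F.h1 ν h''
    rw [this] at h
    cases h

theorem blk_fst {ν : ℕ} (h : F.fst ν = true) : F.blk ν = ν := by
  unfold blk; rw [snd_of_fst h]; simp

theorem blk_succ {ν : ℕ} (h : F.fst ν = true) : F.blk (ν + 1) = ν := by
  unfold blk; rw [snd_succ, h]; simp

theorem blk_of_not_snd {ν : ℕ} (h : F.snd ν = false) : F.blk ν = ν := by
  unfold blk; rw [h]; simp

theorem blk_le (ν : ℕ) : F.blk ν ≤ ν := by unfold blk; split_ifs <;> omega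

theorem le_blk (ν : ℕ) : ν ≤ F.blk ν + 1 := by unfold blk; split_ifs <;> omega

theorem blk_eq_or {ν β : ℕ} (h : F.blk ν = β) : ν = β ∨ (ν = β + 1 ∧ F.fst β = true) := by
  unfold blk at h
  split_ifs at h with hs
  · rcases ν with _ | ν
    · simp [snd] at hs
    · right
      simp only [snd] at hs
      have : ν = β := by simpa using h
      subst this
      exact ⟨rfl, hs⟩
  · left; exact h

theorem reg_fst {ν : ℕ} (h : F.fst ν = true) : F.reg ν = true := by unfold reg; rw [h]; rfl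

theorem reg_succ {ν : ℕ} (h : F.fst ν = true) : F.reg (ν + 1) = true := by
  unfold reg; rw [snd_succ, h]; simp

theorem reg_iff {ν : ℕ} : F.reg ν = true ↔ F.fst ν = true ∨ F.snd ν = true := by
  unfold reg; simp

theorem reg_false {ν : ℕ} : F.reg ν = false ↔ F.fst ν = false ∧ F.snd ν = false := by
  unfold reg; simp

theorem fst_blk {ν : ℕ} (h : F.reg ν = true) : F.fst (F.blk ν) = true := by
  rcases reg_iff.mp h with h | h
  · rwa [blk_fst h]
  · rcases ν with _ | ν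
    · simp [snd] at h
    · rw [snd_succ] at h
      rwa [blk_succ h]

theorem reg_lt {ν : ℕ} (h : F.reg ν = true) : 2 * F.m ≤ ν ∧ ν < F.K := by
  have h1 := F.h2 _ (fst_blk h)
  have := blk_le (F := F) ν
  have := le_blk (F := F) ν
  omega

theorem two_W : 2 ≤ 2 ^ F.W := by
  have : 2 ^ 1 ≤ 2 ^ F.W := Nat.pow_le_pow_right (by norm_num) (by unfold W; omega)
  simpa using this

/-- Sum of the regular costs from `β` on. -/
def R (F : Frame) (β : ℕ) : ℕ := ∑ ν ∈ Ico β F.K, F.rc ν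

theorem R_lt (β : ℕ) (hβ : β ≤ F.K) : F.R β + 1 ≤ 2 * 2 ^ (F.W * (F.K - β)) := by
  obtain ⟨d, hd⟩ := Nat.exists_eq_add_of_le hβ
  induction d generalizing β with
  | zero =>
    have : F.R β = 0 := by unfold R; rw [Ico_eq_empty (by omega)]; simp
    rw [this, show F.K - β = 0 by omega]
    simp
  | succ d ih =>
    have h1 := ih (β + 1) (by omega) (by omega)
    have h2 : F.R β = F.rc β + F.R (β + 1) := by
      unfold R
      rw [Finset.sum_eq_sum_Ico_succ_bot (by omega)]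
    have h3 : F.rc β ≤ 2 ^ (F.W * (F.K - β)) := by
      unfold rc; split_ifs
      exacts [Nat.zero_le _, le_rfl]
    have h4 : 2 ^ (F.W * (F.K - β)) = 2 ^ F.W * 2 ^ (F.W * (F.K - (β + 1))) := by
      rw [← pow_add]; congr 1
      have : F.K - β = (F.K - (β + 1)) + 1 := by omega
      rw [this]; ring
    have h5 := two_W (F := F)
    have h6 := Nat.mul_le_mul_right (2 ^ (F.W * (F.K - (β + 1)))) h5
    rw [← h4] at h6
    clear h4 h5 ih
    generalize 2 ^ (F.W * (F.K - β)) = X at *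
    generalize 2 ^ (F.W * (F.K - (β + 1))) = Y at *
    omega

theorem pow_step (β : ℕ) (hβ : β < F.K) :
    2 * 2 ^ (F.W * (F.K - (β + 1))) ≤ 2 ^ (F.W * (F.K - β)) := by
  have h4 : 2 ^ (F.W * (F.K - β)) = 2 ^ F.W * 2 ^ (F.W * (F.K - (β + 1))) := by
    rw [← pow_add]; congr 1
    have : F.K - β = (F.K - (β + 1)) + 1 := by omega
    rw [this]; ring
  rw [h4]
  exact Nat.mul_le_mul_right _ two_W

/-- unit of cost of a region -/
def q (F : Frame) (β x : ℕ) : ℕ := 4 ^ (F.N - 1 - x) * 2 ^ (F.W * (F.K - (β + 1)))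

theorem pow_fst {β : ℕ} (hf : F.fst β = true) (x : ℕ) : 2 ^ F.e β x = 2 * F.q β x := by
  unfold e q
  rw [if_pos hf, show F.K - β - 1 = F.K - (β + 1) by omega, pow_add, pow_add,
    pow_mul 2 2 (F.N - 1 - x)]
  norm_num
  ring

theorem pow_snd {β : ℕ} (hf : F.fst β = true) (x : ℕ) : 2 ^ F.e (β + 1) x = F.q β x := by
  unfold e q
  rw [F.h1 β hf, snd_succ, hf]
  simp only [Bool.false_eq_true, if_false, if_true]
  rw [pow_add, pow_mul 2 2 (F.N - 1 - x)]
  norm_num
  ring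

theorem q_pos (β x : ℕ) : 2 ^ (F.W * (F.K - (β + 1))) ≤ F.q β x := by
  unfold q
  exact Nat.le_mul_of_pos_left _ (by positivity)

theorem q_lt {β x x' : ℕ} (h : x < x') (h' : x' < F.N) : 4 * F.q β x' ≤ F.q β x := by
  unfold q
  rw [← mul_assoc]
  apply Nat.mul_le_mul_right
  calc 4 * 4 ^ (F.N - 1 - x') = 4 ^ (F.N - 1 - x' + 1) := by ring
    _ ≤ 4 ^ (F.N - 1 - x) := Nat.pow_le_pow_right (by norm_num) (by omega)

theorem q_le {β x : ℕ} : F.q β x ≤ F.q β 0 := by
  unfold q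
  apply Nat.mul_le_mul_right
  exact Nat.pow_le_pow_right (by norm_num) (by omega)

theorem two_pow_le {β x : ℕ} (h : x < F.N) : 2 ^ x ≤ F.q β 0 := by
  unfold q
  calc 2 ^ x ≤ 2 ^ (F.N - 1) := Nat.pow_le_pow_right (by norm_num) (by omega)
    _ ≤ 4 ^ (F.N - 1) := Nat.pow_le_pow_left (by norm_num) _
    _ = 4 ^ (F.N - 1 - 0) := by simp
    _ ≤ _ := Nat.le_mul_of_pos_right _ (by positivity)

theorem pow_W {β : ℕ} (hN : 1 ≤ F.N) (hβ : β < F.K) :
    2 ^ (F.W * (F.K - β)) = 32 * F.q β 0 := by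
  unfold q W
  have : F.K - β = (F.K - (β + 1)) + 1 := by omega
  obtain ⟨n, hn⟩ : ∃ n, F.N = n + 1 := ⟨F.N - 1, by omega⟩
  rw [this, hn, show n + 1 - 1 - 0 = n by omega, mul_add, pow_add, mul_one,
    show 2 * (n + 1) + 3 = 2 * n + 5 by ring, pow_add 2 (2 * n) 5, pow_mul 2 2 n]
  norm_num
  ring

theorem dl_eq {β z : ℕ} (hf : F.fst β = true) (hz : z < F.N) :
    F.dl β z + 3 * F.q β z + 2 * 2 ^ z = 32 * F.q β 0 := by
  unfold dl
  have h0 := F.h2 β hf
  rw [pow_fst hf, pow_snd hf, pow_W (by omega) (by omega)]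
  have h1 := q_le (F := F) (β := β) (x := z)
  have h2 := two_pow_le (F := F) (β := β) hz
  generalize 2 ^ z = Y at *
  omega

theorem rc_fst {β : ℕ} (hf : F.fst β = true) (hN : 1 ≤ F.N) : F.rc β = 32 * F.q β 0 := by
  have h0 := F.h2 β hf
  unfold rc
  rw [snd_of_fst hf, pow_W hN (by omega)]
  simp

theorem rc_succ {β : ℕ} (hf : F.fst β = true) : F.rc (β + 1) = 0 := by
  unfold rc
  rw [snd_succ, hf]
  simp

theorem R_fst {β : ℕ} (hf : F.fst β = true) : F.R β = F.rc β + F.R (β + 2) := by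
  have h0 := F.h2 β hf
  unfold R
  rw [Finset.sum_eq_sum_Ico_succ_bot (by omega), Finset.sum_eq_sum_Ico_succ_bot (by omega),
    rc_succ hf, zero_add]

theorem R_fst_lt {β : ℕ} (hf : F.fst β = true) :
    F.R (β + 2) < 2 ^ (F.W * (F.K - (β + 1))) := by
  have h0 := F.h2 β hf
  have h1 := R_lt (F := F) (β + 2) (by omega)
  have h2 := pow_step (F := F) (β + 1) (by omega)
  rw [show β + 1 + 1 = β + 2 by ring] at h2
  omega

end Frame

/-- A configuration of external jobs. -/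
structure Conf (F : Frame) where
  E : Finset (ℕ × ℕ × ℕ)
  V : ℕ × ℕ × ℕ → Finset (ℕ × ℕ)
  hole : ℕ → ℕ → Bool
  hk : ∀ j ∈ E, 1 ≤ j.1 ∧ j.1 < F.K
  hx : ∀ j ∈ E, F.reg j.1 = true → j.2.1 < F.N
  hx0 : ∀ j ∈ E, F.reg j.1 = false → j.2.1 = 0
  hy : ∀ j ∈ E, F.reg (j.1 + F.m - 1) = true → j.2.2 < F.N
  hy0 : ∀ j ∈ E, F.reg (j.1 + F.m - 1) = false → j.2.2 = 0
  hV : ∀ j ∈ E, (V j).card = F.m
  hl : ∀ j ∈ E, ∀ s ∈ V j, F.sle (j.1, j.2.1) s
  hr : ∀ j ∈ E, ∀ s ∈ V j, F.sle s (j.1 + F.m - 1, j.2.2)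
  hs : ∀ j ∈ E, ∀ s ∈ V j, F.reg s.1 = true → s.2 < F.N ∧ hole (F.blk s.1) s.2 = true
  hs0 : ∀ j ∈ E, ∀ s ∈ V j, F.reg s.1 = false → s.2 = 0
  hT : ∀ ν, F.m ≤ ν → ν < F.K → F.reg ν = false → (E.filter (fun j => (ν, 0) ∈ V j)).card = F.m
  hR : ∀ ν z, F.reg ν = true → z < F.N → hole (F.blk ν) z = true →
    (E.filter (fun j => (ν, z) ∈ V j)).card = F.m
  hC : (∑ ν ∈ range F.K, if F.fst ν = true then
      ∑ z ∈ range F.N, (if hole ν z = true then F.dl ν z else 0) else 0) +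
      ∑ j ∈ E, (2 ^ F.e j.1 j.2.1 + F.cc j) ≤ F.Q

namespace Conf

variable {F : Frame} (C : Conf F)

/-- the zone of the hole of a region -/
noncomputable def h (ν : ℕ) : ℕ := by
  classical
  exact if F.reg ν = true then
    (if hz : ∃ z, z < F.N ∧ C.hole (F.blk ν) z = true then Nat.find hz else 0) else 0

/-- contribution of an index to the cost -/
def con (ν : ℕ) : ℕ :=
  (if F.fst ν = true then ∑ z ∈ range F.N, (if C.hole ν z = true then F.dl ν z else 0) else 0) +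
  ∑ j ∈ C.E.filter (fun j => j.1 = ν), 2 ^ F.e j.1 j.2.1 +
  ∑ j ∈ C.E.filter (fun j => j.1 + F.m - 1 = ν), F.cc j

theorem sum_fiber_le {ι : Type*} [DecidableEq ι] (E : Finset ι) (f : ι → ℕ) (g : ι → ℕ)
    (I : Finset ℕ) : ∑ ν ∈ I, ∑ j ∈ E.filter (fun j => f j = ν), g j ≤ ∑ j ∈ E, g j := by
  have h := Finset.sum_fiberwise_of_maps_to (s := E.filter (fun j => f j ∈ I)) (t := I) (g := f)
    (fun j hj => (mem_filter.mp hj).2) g
  have h2 : ∑ ν ∈ I, ∑ j ∈ E.filter (fun j => f j = ν), g j =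
      ∑ ν ∈ I, ∑ j ∈ (E.filter (fun j => f j ∈ I)).filter (fun j => f j = ν), g j := by
    refine sum_congr rfl fun ν hν => ?_
    refine sum_congr ?_ fun _ _ => rfl
    ext j
    simp only [mem_filter]
    constructor
    · rintro ⟨h1, h2⟩; exact ⟨⟨h1, by rw [h2]; exact hν⟩, h2⟩
    · rintro ⟨⟨h1, _⟩, h2⟩; exact ⟨h1, h2⟩
  rw [h2, h]
  exact Finset.sum_le_sum_of_subset (filter_subset _ _)

theorem con_le_cost : ∑ ν ∈ Ico 1 F.K, C.con ν ≤ (∑ ν ∈ range F.K, if F.fst ν = true then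
      ∑ z ∈ range F.N, (if C.hole ν z = true then F.dl ν z else 0) else 0) +
      ∑ j ∈ C.E, (2 ^ F.e j.1 j.2.1 + F.cc j) := by
  classical
  unfold con
  rw [sum_add_distrib, sum_add_distrib, sum_add_distrib, add_assoc]
  refine Nat.add_le_add ?_ (Nat.add_le_add ?_ ?_)
  · refine Finset.sum_le_sum_of_subset ?_
    intro ν hν
    rw [mem_Ico] at hν
    rw [mem_range]; exact hν.2
  · exact sum_fiber_le C.E (fun j => j.1) (fun j => 2 ^ F.e j.1 j.2.1) _
  · exact sum_fiber_le C.E (fun j => j.1 + F.m - 1) (fun j => F.cc j) _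

theorem con_le : ∑ ν ∈ Ico 1 F.K, C.con ν ≤ F.Q := le_trans C.con_le_cost C.hC

/-- Cost available from `β` on. -/
theorem con_rest (β : ℕ) (hβ1 : 1 ≤ β) (hβ : β ≤ F.K)
    (hd : ∑ ν ∈ Ico 1 β, F.rc ν ≤ ∑ ν ∈ Ico 1 β, C.con ν) :
    ∑ ν ∈ Ico β F.K, C.con ν ≤ F.R β := by
  have h1 := C.con_le
  have h2 := Finset.sum_Ico_consecutive C.con hβ1 hβ
  have h3 := Finset.sum_Ico_consecutive F.rc hβ1 hβ
  unfold Frame.Q at h1
  unfold Frame.R
  omega

/-- The invariant of the sweep. -/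
structure Inv (β : ℕ) : Prop where
  a : ∀ γ, γ < β → F.fst γ = true → C.h γ < F.N ∧ ∀ z < F.N, C.hole γ z = true ↔ z = C.h γ
  b : ∀ i, 1 ≤ i → i < β → ∃ y, (i, C.h i, y) ∈ C.E ∧ (∀ j ∈ C.E, j.1 = i → j = (i, C.h i, y)) ∧
    (∀ ν z, ν < β → ((ν, z) ∈ C.V (i, C.h i, y) ↔ z = C.h ν ∧ i ≤ ν ∧ ν < i + F.m)) ∧
    (F.reg (i + F.m - 1) = true → i + F.m - 1 < β → C.h (i + F.m - 1) ≤ y)
  d : ∑ ν ∈ Ico 1 β, F.rc ν ≤ ∑ ν ∈ Ico 1 β, C.con ν
  d' : (∃ i y, 1 ≤ i ∧ (i, C.h i, y) ∈ C.E ∧ F.reg (i + F.m - 1) = true ∧ i + F.m - 1 < β ∧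
    y ≠ C.h (i + F.m - 1)) → ∑ ν ∈ Ico 1 β, F.rc ν + 1 ≤ ∑ ν ∈ Ico 1 β, C.con ν

theorem h_of_not_reg {ν : ℕ} (h : F.reg ν = false) : C.h ν = 0 := by
  unfold Conf.h; simp [h]

theorem h_succ {β : ℕ} (hβ : F.fst β = true) : C.h (β + 1) = C.h β := by
  unfold Conf.h
  rw [Frame.blk_succ hβ, Frame.blk_fst hβ, Frame.reg_succ hβ, Frame.reg_fst hβ]

/-- A job that has used `m` nominal sites does not use others. -/
theorem saturated {j : ℕ × ℕ × ℕ} (hj : j ∈ C.E) {i : ℕ}
    (hc : ∀ ν, i ≤ ν → ν < i + F.m → (ν, C.h ν) ∈ C.V j) :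
    ∀ s ∈ C.V j, i ≤ s.1 ∧ s.1 < i + F.m ∧ s.2 = C.h s.1 := by
  have hsub : (Ico i (i + F.m)).image (fun ν => (ν, C.h ν)) ⊆ C.V j := by
    intro s hs
    obtain ⟨ν, hν, rfl⟩ := mem_image.mp hs
    rw [mem_Ico] at hν
    exact hc ν hν.1 hν.2
  have hcard : ((Ico i (i + F.m)).image (fun ν => (ν, C.h ν))).card = F.m := by
    rw [card_image_of_injective _ (fun a b hab => (Prod.ext_iff.mp hab).1)]
    simp
  have heq := Finset.eq_of_subset_of_card_le hsub (by rw [hcard, C.hV j hj])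
  intro s hs
  rw [← heq] at hs
  obtain ⟨ν, hν, rfl⟩ := mem_image.mp hs
  rw [mem_Ico] at hν
  exact ⟨hν.1, hν.2, rfl⟩

theorem con_start {j : ℕ × ℕ × ℕ} (hj : j ∈ C.E) : 2 ^ F.e j.1 j.2.1 ≤ C.con j.1 := by
  have := Finset.single_le_sum (f := fun j : ℕ × ℕ × ℕ => 2 ^ F.e j.1 j.2.1)
    (s := C.E.filter (fun j' => j'.1 = j.1)) (fun _ _ => Nat.zero_le _)
    (mem_filter.mpr ⟨hj, rfl⟩)
  unfold con
  omega

/-- The base of the sweep. -/
theorem inv_base : C.Inv F.m := by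
  have hm := F.hm
  have hK := F.hK
  have hreg : ∀ ν, ν < 2 * F.m → F.reg ν = false := by
    intro ν hν
    by_contra h
    have := Frame.reg_lt (F := F) (ν := ν) (by simpa using h)
    omega
  have hblk : ∀ ν, F.blk ν < 2 * F.m → F.blk ν = ν := by
    intro ν hν
    rcases Frame.blk_eq_or (F := F) (ν := ν) rfl with h | ⟨h, h'⟩
    · exact h.symm
    · have := F.h2 _ h'
      omega
  have hb2 : ∀ ν, ν < 2 * F.m → F.blk ν = ν := fun ν hν =>
    hblk ν (lt_of_le_of_lt (Frame.blk_le ν) hν)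
  have hcard := C.hT F.m le_rfl (by omega) (hreg _ (by omega))
  have huniq : ∀ j ∈ C.E, j.1 ≤ F.m → j = (j.1, 0, 0) := by
    intro j hj hj1
    have h1 := C.hx0 j hj (hreg _ (by omega))
    have h2 := C.hy0 j hj (hreg _ (by omega))
    exact Prod.ext rfl (Prod.ext h1 h2)
  have hsub : C.E.filter (fun j => (F.m, 0) ∈ C.V j) ⊆
      (Icc 1 F.m).image (fun i => (i, 0, 0)) := by
    intro j hj
    obtain ⟨hj, hs⟩ := mem_filter.mp hj
    have h1 := C.hl j hj _ hs
    unfold Frame.sle at h1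
    simp only [hb2 F.m (by omega)] at h1
    have h2 : F.blk j.1 ≤ F.m := by rcases h1 with h1 | h1 <;> omega
    have h3 := hblk j.1 (by omega)
    have h4 := (C.hk j hj).1
    rw [huniq j hj (by omega)]
    exact mem_image.mpr ⟨j.1, mem_Icc.mpr ⟨h4, by omega⟩, rfl⟩
  have hcard2 : ((Icc 1 F.m).image (fun i => (i, 0, 0) : ℕ → ℕ × ℕ × ℕ)).card = F.m := by
    rw [card_image_of_injective _ (fun a b hab => (Prod.ext_iff.mp hab).1)]
    simp
  have heq := Finset.eq_of_subset_of_card_le hsub (by rw [hcard, hcard2])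
  have hmem : ∀ i, 1 ≤ i → i ≤ F.m → (i, 0, 0) ∈ C.E := by
    intro i h1 h2
    have : (i, 0, 0) ∈ C.E.filter (fun j => (F.m, 0) ∈ C.V j) := by
      rw [heq]
      exact mem_image.mpr ⟨i, mem_Icc.mpr ⟨h1, h2⟩, rfl⟩
    exact (mem_filter.mp this).1
  refine ⟨?_, ?_, ?_, ?_⟩
  · intro γ hγ hf
    have := F.h2 γ hf
    omega
  · intro i h1 h2
    have hi0 : C.h i = 0 := C.h_of_not_reg (hreg _ (by omega))
    refine ⟨0, ?_, ?_, ?_, ?_⟩
    · rw [hi0]; exact hmem i h1 (by omega)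
    · intro j hj hji
      rw [hi0, huniq j hj (by omega), hji]
    · rw [hi0]
      have hj := hmem i h1 (by omega)
      have hVsub : C.V (i, 0, 0) ⊆ (Ico i (i + F.m)).image (fun ν => (ν, 0)) := by
        intro s hs
        have h3 := C.hr _ hj s hs
        have h4 := C.hl _ hj s hs
        unfold Frame.sle at h3 h4
        simp only at h3 h4
        rw [hb2 (i + F.m - 1) (by omega)] at h3
        rw [hb2 i (by omega)] at h4
        have h5 : F.blk s.1 ≤ i + F.m - 1 := by rcases h3 with h | h <;> omega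
        have h6 := hblk s.1 (by omega)
        have h7 := C.hs0 _ hj s hs (hreg _ (by omega))
        refine mem_image.mpr ⟨s.1, mem_Ico.mpr ⟨?_, by omega⟩, Prod.ext rfl h7.symm⟩
        rcases h4 with h | h <;> omega
      have hVeq := Finset.eq_of_subset_of_card_le hVsub (by
        rw [C.hV _ hj, card_image_of_injective _ (fun a b hab => (Prod.ext_iff.mp hab).1)]
        simp)
      intro ν z hν
      rw [hVeq, C.h_of_not_reg (hreg ν (by omega)), mem_image]
      constructor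
      · rintro ⟨ν', h3, h4⟩
        rw [mem_Ico] at h3
        have h5 := Prod.ext_iff.mp h4
        simp only at h5
        exact ⟨h5.2.symm, by omega, by omega⟩
      · rintro ⟨h3, h4, h5⟩
        exact ⟨ν, mem_Ico.mpr ⟨h4, h5⟩, by rw [h3]⟩
    · intro h3 h4
      have := Frame.reg_lt h3
      omega
  · refine Finset.sum_le_sum ?_
    intro ν hν
    rw [mem_Ico] at hν
    have h1 := C.con_start (hmem ν hν.1 (by omega))
    refine le_trans ?_ h1
    have h2 := Frame.reg_false.mp (hreg ν (by omega))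
    unfold Frame.rc Frame.e
    simp [h2.1, h2.2]
  · rintro ⟨i, y, h1, h2, h3, h4, h5⟩
    have := Frame.reg_lt h3
    omega

/-- Old users of a new site. -/
theorem old_users {β : ℕ} (hI : C.Inv β) {j : ℕ × ℕ × ℕ} (hj : j ∈ C.E)
    (hjβ : j.1 < β) {s : ℕ × ℕ} (hs : s ∈ C.V j) (hsβ : β ≤ s.1) : β < j.1 + F.m := by
  by_contra hlt
  obtain ⟨y, h1, h2, h3, _⟩ := hI.b j.1 (C.hk j hj).1 hjβ
  have h4 := h2 j hj rfl
  rw [← h4] at h3
  have := C.saturated hj (i := j.1) (fun ν hν1 hν2 => (h3 ν _ (by omega)).mpr ⟨rfl, hν1, hν2⟩)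
    s hs
  omega

/-- The index is injective on old jobs. -/
theorem old_inj {β : ℕ} (hI : C.Inv β) {j j' : ℕ × ℕ × ℕ} (hj : j ∈ C.E) (hj' : j' ∈ C.E)
    (hjβ : j.1 < β) (he : j.1 = j'.1) : j = j' := by
  obtain ⟨y, h1, h2, h3, _⟩ := hI.b j.1 (C.hk j hj).1 hjβ
  rw [h2 j hj rfl, h2 j' hj' he.symm]

/-- Extending the description of the old jobs by one index. -/
theorem step_tick {β : ℕ} (hI : C.Inv β) (hmβ : F.m ≤ β) (hβK : β < F.K)
    (hr : F.reg β = false) : C.Inv (β + 1) := by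
  classical
  have hm := F.hm
  obtain ⟨hf, hsn⟩ := Frame.reg_false.mp hr
  have hbβ : F.blk β = β := Frame.blk_of_not_snd hsn
  have hh : C.h β = 0 := C.h_of_not_reg hr
  -- users of the tick
  set A := C.E.filter (fun j => (β, 0) ∈ C.V j) with hA
  have hAcard : A.card = F.m := C.hT β hmβ hβK hr
  have hAle : ∀ j ∈ A, j.1 ≤ β := by
    intro j hj
    obtain ⟨hj, hs⟩ := mem_filter.mp hj
    have h1 := C.hl j hj _ hs
    unfold Frame.sle at h1
    simp only [hbβ] at h1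
    rcases Frame.blk_eq_or (F := F) (ν := j.1) rfl with h | ⟨h, h'⟩
    · rcases h1 with h1 | h1 <;> omega
    · rcases h1 with h1 | h1
      · omega
      · have : F.blk j.1 ≠ β := by
          intro h2
          rw [h2] at h'
          rw [h'] at hf
          cases hf
        exact absurd h1.1 this
  have hA1 : (A.filter (fun j => j.1 < β)).image (fun j => j.1) ⊆ Ico (β + 1 - F.m) β := by
    intro i hi
    obtain ⟨j, hj, rfl⟩ := mem_image.mp hi
    obtain ⟨hj, hjβ⟩ := mem_filter.mp hj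
    obtain ⟨hj, hs⟩ := mem_filter.mp hj
    have := C.old_users hI hj hjβ hs le_rfl
    rw [mem_Ico]
    omega
  have hinj : Set.InjOn (fun j : ℕ × ℕ × ℕ => j.1) (A.filter (fun j => j.1 < β)) := by
    intro j hj j' hj' he
    obtain ⟨hj1, hj2⟩ := mem_filter.mp (Finset.mem_coe.mp hj)
    obtain ⟨hj'1, _⟩ := mem_filter.mp (Finset.mem_coe.mp hj')
    exact C.old_inj hI (mem_filter.mp hj1).1 (mem_filter.mp hj'1).1 hj2 he
  have hcard1 : (A.filter (fun j => j.1 < β)).card =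
      ((A.filter (fun j => j.1 < β)).image (fun j => j.1)).card :=
    (card_image_of_injOn hinj).symm
  have hIco : (Ico (β + 1 - F.m) β).card = F.m - 1 := by rw [Nat.card_Ico]; omega
  have hc1 : (A.filter (fun j => j.1 < β)).card ≤ F.m - 1 := by
    rw [hcard1, ← hIco]; exact card_le_card hA1
  have hsplit : (A.filter (fun j => j.1 < β)).card + (A.filter (fun j => j.1 = β)).card = F.m := by
    rw [← hAcard, ← card_filter_add_card_filter_not (s := A) (fun j => j.1 < β)]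
    congr 2
    apply filter_congr
    intro j hj
    have := hAle j hj
    omega
  -- cost
  have hrest := C.con_rest β (by omega) (by omega) hI.d
  have hRR := Frame.R_lt (F := F) (β + 1) (by omega)
  have hps := Frame.pow_step (F := F) β hβK
  have hRβ : F.R β = F.rc β + F.R (β + 1) := by
    unfold Frame.R
    rw [Finset.sum_eq_sum_Ico_succ_bot (by omega)]
  have hrc : F.rc β = 2 ^ (F.W * (F.K - β)) := by unfold Frame.rc; simp [hsn]
  have hconβ : C.con β ≤ F.R β := by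
    refine le_trans ?_ hrest
    exact Finset.single_le_sum (f := fun ν => C.con ν) (fun _ _ => Nat.zero_le _)
      (mem_Ico.mpr ⟨le_rfl, hβK⟩)
  have hE1 : (C.E.filter (fun j => j.1 = β)).card ≤ 1 := by
    by_contra hlt
    have hgt : 1 < (C.E.filter (fun j => j.1 = β)).card := by omega
    obtain ⟨j, hj, j', hj', hne⟩ := Finset.one_lt_card.mp hgt
    have hsum : 2 * 2 ^ (F.W * (F.K - β)) ≤ C.con β := by
      have h1 : ∑ j ∈ ({j, j'} : Finset (ℕ × ℕ × ℕ)), 2 ^ F.e j.1 j.2.1 ≤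
          ∑ j ∈ C.E.filter (fun j => j.1 = β), 2 ^ F.e j.1 j.2.1 := by
        apply Finset.sum_le_sum_of_subset
        intro x hx
        simp only [mem_insert, mem_singleton] at hx
        rcases hx with rfl | rfl
        exacts [hj, hj']
      rw [Finset.sum_pair hne, (mem_filter.mp hj).2, (mem_filter.mp hj').2] at h1
      have h2 : ∀ x, F.e β x = F.W * (F.K - β) := by
        intro x; unfold Frame.e; simp [hf, hsn]
      rw [h2, h2] at h1
      unfold con
      generalize 2 ^ (F.W * (F.K - β)) = X at *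
      omega
    generalize 2 ^ (F.W * (F.K - β)) = X at *
    generalize 2 ^ (F.W * (F.K - (β + 1))) = Y at *
    omega
  have hA2le : (A.filter (fun j => j.1 = β)).card ≤ (C.E.filter (fun j => j.1 = β)).card := by
    apply card_le_card
    intro j hj
    obtain ⟨hj, h2⟩ := mem_filter.mp hj
    exact mem_filter.mpr ⟨(mem_filter.mp hj).1, h2⟩
  have hA2 : (A.filter (fun j => j.1 = β)).card = 1 := by omega
  have hc1' : (A.filter (fun j => j.1 < β)).card = F.m - 1 := by omega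
  have hA1eq : (A.filter (fun j => j.1 < β)).image (fun j => j.1) = Ico (β + 1 - F.m) β :=
    Finset.eq_of_subset_of_card_le hA1 (by rw [hIco, ← hcard1, hc1'])
  obtain ⟨j0, hj0⟩ := Finset.card_eq_one.mp hA2
  have hj0A : j0 ∈ A.filter (fun j => j.1 = β) := by rw [hj0]; exact mem_singleton_self _
  obtain ⟨hj0A, hj0β⟩ := mem_filter.mp hj0A
  obtain ⟨hj0E, hj0s⟩ := mem_filter.mp hj0A
  have hj0x : j0.2.1 = 0 := C.hx0 j0 hj0E (by rw [hj0β]; exact hr)
  have hj0eq : j0 = (β, C.h β, j0.2.2) := by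
    rw [hh]
    exact Prod.ext hj0β (Prod.ext hj0x rfl)
  have hj0u : ∀ j ∈ C.E, j.1 = β → j = j0 := by
    intro j hj hjβ
    have := Finset.card_le_one.mp hE1 j (mem_filter.mpr ⟨hj, hjβ⟩) j0
      (mem_filter.mpr ⟨hj0E, hj0β⟩)
    exact this
  refine ⟨?_, ?_, ?_, ?_⟩
  · intro γ hγ hfγ
    have : γ ≠ β := by
      intro h
      rw [h, hf] at hfγ
      cases hfγ
    exact hI.a γ (by omega) hfγ
  · intro i hi1 hi2
    by_cases hiβ : i = β
    · subst hiβ
      refine ⟨j0.2.2, ?_, ?_, ?_, ?_⟩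
      · rw [← hj0eq]; exact hj0E
      · intro j hj hji
        rw [← hj0eq]; exact hj0u j hj hji
      · rw [← hj0eq]
        intro ν z hν
        constructor
        · intro hs
          have h1 := C.hl j0 hj0E _ hs
          unfold Frame.sle at h1
          simp only [hj0β, hbβ] at h1
          have h2 := Frame.blk_le (F := F) ν
          have h3 : i ≤ ν := by rcases h1 with h1 | h1 <;> omega
          have h4 : ν = i := by omega
          subst h4
          exact ⟨by rw [hh]; exact C.hs0 j0 hj0E _ hs hr, le_rfl, by omega⟩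
        · rintro ⟨h1, h2, h3⟩
          have h4 : ν = i := by omega
          subst h4
          rw [h1, hh]
          exact hj0s
      · intro h1 h2
        have h3 : i + F.m - 1 = i := by omega
        rw [h3, hr] at h1
        cases h1
    · have hilt : i < β := by omega
      obtain ⟨y, h1, h2, h3, h4⟩ := hI.b i hi1 hilt
      refine ⟨y, h1, h2, ?_, ?_⟩
      · intro ν z hν
        by_cases hνβ : ν = β
        · subst hνβ
          constructor
          · intro hs
            have h5 := C.old_users hI h1 hilt hs le_rfl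
            exact ⟨by rw [hh]; exact C.hs0 _ h1 _ hs hr, by omega, h5⟩
          · rintro ⟨h5, h6, h7⟩
            have h8 : i ∈ (A.filter (fun j => j.1 < ν)).image (fun j => j.1) := by
              rw [hA1eq, mem_Ico]; omega
            obtain ⟨j, hj, hji⟩ := mem_image.mp h8
            obtain ⟨hj, _⟩ := mem_filter.mp hj
            obtain ⟨hjE, hjs⟩ := mem_filter.mp hj
            have h9 := h2 j hjE hji
            rw [← h9, h5, hh]
            exact hjs
        · exact h3 ν z (by omega)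
      · intro h5 h6
        have : i + F.m - 1 ≠ β := by
          intro h7
          rw [h7, hr] at h5
          cases h5
        exact h4 h5 (by omega)
  · rw [Finset.sum_Ico_succ_top (by omega), Finset.sum_Ico_succ_top (by omega)]
    refine Nat.add_le_add hI.d ?_
    have h1 := C.con_start hj0E
    rw [hj0β] at h1
    refine le_trans (le_of_eq ?_) h1
    rw [hrc]
    unfold Frame.e
    simp [hf, hsn]
  · rintro ⟨i, y, h1, h2, h3, h4, h5⟩
    rw [Finset.sum_Ico_succ_top (by omega), Finset.sum_Ico_succ_top (by omega)]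
    have h6 : i + F.m - 1 ≠ β := by
      intro h7
      rw [h7, hr] at h3
      cases h3
    have h7 := hI.d' ⟨i, y, h1, h2, h3, by omega, h5⟩
    have h8 := C.con_start hj0E
    rw [hj0β] at h8
    have h9 : F.rc β ≤ 2 ^ F.e β j0.2.1 := by
      rw [hrc]
      unfold Frame.e
      simp [hf, hsn]
    generalize 2 ^ F.e β j0.2.1 = X at *
    omega

end Conf

end Pool.Agent.OpenShop
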