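import Mathlib
import Pool.Agent.OpenShop.Sweep

/-!
# The sweep argument: the step for a region and the conclusion
-/

namespace Pool.Agent.OpenShop

open Finset

namespace Conf

variable {F : Frame} (C : Conf F)

theorem new_sites {β : ℕ} {j : ℕ × ℕ × ℕ} (hj : j ∈ C.E) {i : ℕ} (hiβ : i ≤ β)
    (hc : ∀ ν z, ν < β → ((ν, z) ∈ C.V j ↔ z = C.h ν ∧ i ≤ ν ∧ ν < i + F.m)) :
    i + F.m ≤ β + ((C.V j).filter (fun s => β ≤ s.1)).card := by
  have h1 := card_filter_add_card_filter_not (s := C.V j) (fun s => β ≤ s.1)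
  rw [C.hV j hj] at h1
  have h2 : (C.V j).filter (fun s => ¬ β ≤ s.1) ⊆ (Ico i β).image (fun ν => (ν, C.h ν)) := by
    intro s hs
    obtain ⟨hs, hlt⟩ := mem_filter.mp hs
    obtain ⟨h3, h4, h5⟩ := (hc s.1 s.2 (by omega)).mp hs
    exact mem_image.mpr ⟨s.1, mem_Ico.mpr ⟨h4, by omega⟩, Prod.ext rfl h3.symm⟩
  have h3 := card_le_card h2
  have h4 : ((Ico i β).image (fun ν => (ν, C.h ν))).card ≤ β - i := by
    refine le_trans card_image_le ?_
    rw [Nat.card_Ico]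
  omega

/-- Sites of a region. -/
theorem reg_site {β : ℕ} {ν : ℕ} (h1 : β ≤ ν) (h2 : F.blk ν ≤ β) :
    ν = β ∨ ν = β + 1 := by
  have := Frame.le_blk (F := F) ν
  omega

theorem h_spec {β z : ℕ} (hf : F.fst β = true) (hz : z < F.N) (hh : C.hole β z = true)
    (hu : ∀ z', z' < F.N → C.hole β z' = true → z' = z) :
    C.h β = z := by
  classical
  unfold Conf.h
  rw [if_pos (Frame.reg_fst hf), Frame.blk_fst hf, dif_pos ⟨z, hz, hh⟩]
  have := Nat.find_spec (⟨z, hz, hh⟩ : ∃ z, z < F.N ∧ C.hole β z = true)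
  exact hu _ this.1 this.2

theorem sum_two_le {ι : Type*} [DecidableEq ι] {s : Finset ι} {f : ι → ℕ} {a b : ι} (ha : a ∈ s)
    (hb : b ∈ s) (hab : a ≠ b) : f a + f b ≤ ∑ x ∈ s, f x := by
  rw [← Finset.sum_pair hab]
  apply Finset.sum_le_sum_of_subset
  intro x hx
  simp only [mem_insert, mem_singleton] at hx
  rcases hx with rfl | rfl
  exacts [ha, hb]

theorem hole_unique {β : ℕ} (hf : F.fst β = true)
    (hd : ∑ ν ∈ Ico 1 β, F.rc ν ≤ ∑ ν ∈ Ico 1 β, C.con ν) {z z' : ℕ} (hz : z < F.N)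
    (hz' : z' < F.N) (hh : C.hole β z = true) (hh' : C.hole β z' = true) : z = z' := by
  by_contra hne
  have h0 := F.h2 β hf
  have hm := F.hm
  have hrest := C.con_rest β (by omega) (by omega) hd
  rw [Frame.R_fst hf, Frame.rc_fst hf (by omega)] at hrest
  have hRR := Frame.R_fst_lt hf
  have h1 : F.dl β z + F.dl β z' ≤ C.con β := by
    have h2 := sum_two_le (s := range F.N)
      (f := fun z => if C.hole β z = true then F.dl β z else 0) (mem_range.mpr hz)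
      (mem_range.mpr hz') hne
    simp only [hh, hh', if_true] at h2
    unfold con
    rw [if_pos hf]
    omega
  have h3 : C.con β ≤ ∑ ν ∈ Ico β F.K, C.con ν :=
    Finset.single_le_sum (f := fun ν => C.con ν) (fun _ _ => Nat.zero_le _)
      (mem_Ico.mpr ⟨le_rfl, by omega⟩)
  have h4 := Frame.dl_eq hf hz
  have h5 := Frame.dl_eq hf hz'
  have h6 := Frame.q_le (F := F) (β := β) (x := z)
  have h7 := Frame.q_le (F := F) (β := β) (x := z')
  have h8 := Frame.two_pow_le (F := F) (β := β) hz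
  have h9 := Frame.two_pow_le (F := F) (β := β) hz'
  have h10 := Frame.q_pos (F := F) β 0
  have h11 : 1 ≤ 2 ^ (F.W * (F.K - (β + 1))) := Nat.one_le_two_pow
  generalize 2 ^ (F.W * (F.K - (β + 1))) = L at *
  generalize 2 ^ z = Y at *
  generalize 2 ^ z' = Y' at *
  omega

theorem con_lower {β : ℕ} (hf : F.fst β = true) {z : ℕ} (hz : z < F.N)
    (hh : C.hole β z = true) {j1 j2 : ℕ × ℕ × ℕ} (hj1 : j1 ∈ C.E) (hj2 : j2 ∈ C.E)
    (h1 : j1.1 + F.m - 1 = β) (h2 : j2.1 + F.m - 1 = β + 1) :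
    F.dl β z + ∑ j ∈ C.E.filter (fun j => j.1 = β), 2 ^ F.e j.1 j.2.1 + 2 ^ j1.2.2 ≤ C.con β ∧
    ∑ j ∈ C.E.filter (fun j => j.1 = β + 1), 2 ^ F.e j.1 j.2.1 + 2 ^ j2.2.2 ≤ C.con (β + 1) := by
  constructor
  · have h3 := Finset.single_le_sum (f := fun z => if C.hole β z = true then F.dl β z else 0)
      (s := range F.N) (fun _ _ => Nat.zero_le _) (mem_range.mpr hz)
    simp only [hh, if_true] at h3
    have h4 := Finset.single_le_sum (f := F.cc)
      (s := C.E.filter (fun j => j.1 + F.m - 1 = β)) (fun _ _ => Nat.zero_le _)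
      (mem_filter.mpr ⟨hj1, h1⟩)
    have h5 : F.cc j1 = 2 ^ j1.2.2 := by
      unfold Frame.cc; rw [h1, Frame.reg_fst hf]; simp
    rw [h5] at h4
    unfold con
    rw [if_pos hf]
    generalize 2 ^ j1.2.2 = Y at *
    omega
  · have h4 := Finset.single_le_sum (f := F.cc)
      (s := C.E.filter (fun j => j.1 + F.m - 1 = β + 1)) (fun _ _ => Nat.zero_le _)
      (mem_filter.mpr ⟨hj2, h2⟩)
    have h5 : F.cc j2 = 2 ^ j2.2.2 := by
      unfold Frame.cc; rw [h2, Frame.reg_succ hf]; simp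
    rw [h5] at h4
    unfold con
    generalize 2 ^ j2.2.2 = Y at *
    omega

theorem con_two_le {β : ℕ} (hf : F.fst β = true)
    (hd : ∑ ν ∈ Ico 1 β, F.rc ν ≤ ∑ ν ∈ Ico 1 β, C.con ν) (hN : 1 ≤ F.N) :
    C.con β + C.con (β + 1) ≤ 32 * F.q β 0 + F.R (β + 2) := by
  have h0 := F.h2 β hf
  have hm := F.hm
  have hrest := C.con_rest β (by omega) (by omega) hd
  rw [Frame.R_fst hf, Frame.rc_fst hf hN] at hrest
  refine le_trans ?_ hrest
  exact sum_two_le (f := fun ν => C.con ν) (mem_Ico.mpr ⟨le_rfl, by omega⟩)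
    (mem_Ico.mpr ⟨by omega, by omega⟩) (by omega)

/-- First part of the region data. -/
structure RD (β i1 z y1 y2 : ℕ) : Prop where
  hf : F.fst β = true
  hi1 : i1 + F.m = β + 1
  h1i : 1 ≤ i1
  him : i1 + 2 ≤ β
  hE1 : (i1, C.h i1, y1) ∈ C.E
  hE2 : (i1 + 1, C.h (i1 + 1), y2) ∈ C.E
  hu1 : ∀ j ∈ C.E, j.1 = i1 → j = (i1, C.h i1, y1)
  hu2 : ∀ j ∈ C.E, j.1 = i1 + 1 → j = (i1 + 1, C.h (i1 + 1), y2)
  hc1 : ∀ ν z, ν < β → ((ν, z) ∈ C.V (i1, C.h i1, y1) ↔ z = C.h ν ∧ i1 ≤ ν ∧ ν < i1 + F.m)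
  hz : C.h β = z
  hzN : z < F.N
  hzh : C.hole β z = true
  hzu : ∀ z', z' < F.N → C.hole β z' = true → z' = z
  hy1 : z ≤ y1
  hy2 : z ≤ y2
  bud : ∑ j ∈ C.E.filter (fun j => j.1 = β), 2 ^ F.e j.1 j.2.1 +
    ∑ j ∈ C.E.filter (fun j => j.1 = β + 1), 2 ^ F.e j.1 j.2.1 <
    3 * F.q β z + 2 ^ (F.W * (F.K - (β + 1)))

/-- Sites used by the ending jobs. -/
theorem end_sites {β : ℕ} (hf : F.fst β = true) {j : ℕ × ℕ × ℕ} (hj : j ∈ C.E)
    (he : F.blk (j.1 + F.m - 1) = β) :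
    ∀ s ∈ (C.V j).filter (fun s => β ≤ s.1), s.2 < F.N ∧ C.hole β s.2 = true ∧ s.2 ≤ j.2.2 := by
  intro s hs
  obtain ⟨hs, hle⟩ := mem_filter.mp hs
  have h1 := C.hr _ hj s hs
  unfold Frame.sle at h1
  simp only [he] at h1
  have h2 := reg_site (F := F) hle (by rcases h1 with h | h <;> omega)
  have h3 : F.blk s.1 = β := by
    rcases h2 with h | h
    · rw [h]; exact Frame.blk_fst hf
    · rw [h]; exact Frame.blk_succ hf
  have h4 : F.reg s.1 = true := by
    rcases h2 with h | h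
    · rw [h]; exact Frame.reg_fst hf
    · rw [h]; exact Frame.reg_succ hf
  have h5 := C.hs _ hj s hs h4
  rw [h3] at h5 h1
  refine ⟨h5.1, h5.2, ?_⟩
  rcases h1 with h | h
  · exact absurd h (lt_irrefl _)
  · rcases h.2 with h | h
    · exact h.le
    · exact h.1.le

theorem exists_RD {β : ℕ} (hI : C.Inv β) (hf : F.fst β = true) :
    ∃ i1 z y1 y2, C.RD β i1 z y1 y2 := by
  classical
  obtain ⟨h2m, hβK⟩ := F.h2 β hf
  have hm3 := F.h3 β hf
  obtain ⟨i1, hi1⟩ : ∃ i1, i1 + F.m = β + 1 := ⟨β + 1 - F.m, by omega⟩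
  have h1i : 1 ≤ i1 := by omega
  have him : i1 + 2 ≤ β := by omega
  obtain ⟨y1, hE1, hu1, hc1, _⟩ := hI.b i1 (by omega) (by omega)
  obtain ⟨y2, hE2, hu2, hc2, _⟩ := hI.b (i1 + 1) (by omega) (by omega)
  have he1 : i1 + F.m - 1 = β := by omega
  have he2 : i1 + 1 + F.m - 1 = β + 1 := by omega
  have hn1 := C.new_sites hE1 (by omega : i1 ≤ β) hc1
  have hn2 := C.new_sites hE2 (by omega : i1 + 1 ≤ β) hc2
  have hp1 := C.end_sites hf hE1 (by simp only [he1]; exact Frame.blk_fst hf)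
  have hp2 := C.end_sites hf hE2 (by simp only [he2]; exact Frame.blk_succ hf)
  obtain ⟨s0, hs0⟩ : ((C.V (i1, C.h i1, y1)).filter (fun s => β ≤ s.1)).Nonempty := by
    rw [← Finset.card_pos]; omega
  obtain ⟨s1, hs1⟩ : ((C.V (i1 + 1, C.h (i1 + 1), y2)).filter (fun s => β ≤ s.1)).Nonempty := by
    rw [← Finset.card_pos]; omega
  obtain ⟨hzN, hzh, hy1⟩ := hp1 s0 hs0
  obtain ⟨hzN1, hzh1, hy2⟩ := hp2 s1 hs1
  have huniq : ∀ z', z' < F.N → C.hole β z' = true → z' = s0.2 :=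
    fun z' hz' hh' => C.hole_unique hf hI.d hz' hzN hh' hzh
  have hh := C.h_spec hf hzN hzh huniq
  rw [huniq _ hzN1 hzh1] at hy2
  refine ⟨i1, s0.2, y1, y2, hf, hi1, h1i, him, hE1, hE2, hu1, hu2, hc1, hh, hzN, hzh, huniq,
    hy1, hy2, ?_⟩
  obtain ⟨hcl1, hcl2⟩ := C.con_lower hf hzN hzh hE1 hE2 he1 he2
  have hctl := C.con_two_le hf hI.d (by omega)
  have hdl := Frame.dl_eq hf hzN
  have hRR := Frame.R_fst_lt hf
  have hq1 : 2 ^ s0.2 ≤ 2 ^ y1 := Nat.pow_le_pow_right (by norm_num) hy1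
  have hq2 : 2 ^ s0.2 ≤ 2 ^ y2 := Nat.pow_le_pow_right (by norm_num) hy2
  clear hn1 hn2 hp1 hp2 hs0 hs1 hE1 hE2 he1 he2 hi1 h1i him hu1 hu2 hc1 hc2
  simp only at hcl1 hcl2
  generalize ∑ j ∈ C.E.filter (fun j => j.1 = β), 2 ^ F.e j.1 j.2.1 = S1 at *
  generalize ∑ j ∈ C.E.filter (fun j => j.1 = β + 1), 2 ^ F.e j.1 j.2.1 = S2 at *
  generalize 2 ^ (F.W * (F.K - (β + 1))) = L at *
  generalize 2 ^ s0.2 = X at *
  generalize 2 ^ y1 = X1 at *
  generalize 2 ^ y2 = X2 at *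
  omega

/-- Value of the costs. -/
theorem RD.val1 {C : Conf F} {β i1 z y1 y2 : ℕ} (D : C.RD β i1 z y1 y2) {j : ℕ × ℕ × ℕ}
    (hj : j ∈ C.E.filter (fun j => j.1 = β)) : 2 ^ F.e j.1 j.2.1 = 2 * F.q β j.2.1 := by
  rw [(mem_filter.mp hj).2]; exact Frame.pow_fst D.hf _

theorem RD.val2 {C : Conf F} {β i1 z y1 y2 : ℕ} (D : C.RD β i1 z y1 y2) {j : ℕ × ℕ × ℕ}
    (hj : j ∈ C.E.filter (fun j => j.1 = β + 1)) : 2 ^ F.e j.1 j.2.1 = F.q β j.2.1 := by
  rw [(mem_filter.mp hj).2]; exact Frame.pow_snd D.hf _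

theorem RD.sum1 {C : Conf F} {β i1 z y1 y2 : ℕ} (D : C.RD β i1 z y1 y2) {j : ℕ × ℕ × ℕ}
    (hj : j ∈ C.E) (h : j.1 = β) : 2 * F.q β j.2.1 ≤
      ∑ j ∈ C.E.filter (fun j => j.1 = β), 2 ^ F.e j.1 j.2.1 := by
  have h1 : j ∈ C.E.filter (fun j => j.1 = β) := mem_filter.mpr ⟨hj, h⟩
  rw [← D.val1 h1]
  exact Finset.single_le_sum (f := fun j : ℕ × ℕ × ℕ => 2 ^ F.e j.1 j.2.1)
    (fun _ _ => Nat.zero_le _) h1

theorem RD.sum2 {C : Conf F} {β i1 z y1 y2 : ℕ} (D : C.RD β i1 z y1 y2) {j : ℕ × ℕ × ℕ}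
    (hj : j ∈ C.E) (h : j.1 = β + 1) : F.q β j.2.1 ≤
      ∑ j ∈ C.E.filter (fun j => j.1 = β + 1), 2 ^ F.e j.1 j.2.1 := by
  have h1 : j ∈ C.E.filter (fun j => j.1 = β + 1) := mem_filter.mpr ⟨hj, h⟩
  rw [← D.val2 h1]
  exact Finset.single_le_sum (f := fun j : ℕ × ℕ × ℕ => 2 ^ F.e j.1 j.2.1)
    (fun _ _ => Nat.zero_le _) h1

theorem RD.sum1' {C : Conf F} {β i1 z y1 y2 : ℕ} (D : C.RD β i1 z y1 y2) {j j' : ℕ × ℕ × ℕ}
    (hj : j ∈ C.E) (h : j.1 = β) (hj' : j' ∈ C.E) (h' : j'.1 = β) (hne : j ≠ j') :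
    2 * F.q β j.2.1 + 2 * F.q β j'.2.1 ≤
      ∑ j ∈ C.E.filter (fun j => j.1 = β), 2 ^ F.e j.1 j.2.1 := by
  have h1 : j ∈ C.E.filter (fun j => j.1 = β) := mem_filter.mpr ⟨hj, h⟩
  have h2 : j' ∈ C.E.filter (fun j => j.1 = β) := mem_filter.mpr ⟨hj', h'⟩
  rw [← D.val1 h1, ← D.val1 h2]
  exact sum_two_le (f := fun j : ℕ × ℕ × ℕ => 2 ^ F.e j.1 j.2.1) h1 h2 hne

theorem RD.sum2' {C : Conf F} {β i1 z y1 y2 : ℕ} (D : C.RD β i1 z y1 y2) {j j' : ℕ × ℕ × ℕ}
    (hj : j ∈ C.E) (h : j.1 = β + 1) (hj' : j' ∈ C.E) (h' : j'.1 = β + 1) (hne : j ≠ j') :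
    F.q β j.2.1 + F.q β j'.2.1 ≤
      ∑ j ∈ C.E.filter (fun j => j.1 = β + 1), 2 ^ F.e j.1 j.2.1 := by
  have h1 : j ∈ C.E.filter (fun j => j.1 = β + 1) := mem_filter.mpr ⟨hj, h⟩
  have h2 : j' ∈ C.E.filter (fun j => j.1 = β + 1) := mem_filter.mpr ⟨hj', h'⟩
  rw [← D.val2 h1, ← D.val2 h2]
  exact sum_two_le (f := fun j : ℕ × ℕ × ℕ => 2 ^ F.e j.1 j.2.1) h1 h2 hne

theorem RD.ge {C : Conf F} {β i1 z y1 y2 : ℕ} (D : C.RD β i1 z y1 y2) :
    ∀ j ∈ C.E, j.1 = β ∨ j.1 = β + 1 → z ≤ j.2.1 := by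
  intro j hj hjβ
  by_contra hlt
  have h3 := Frame.q_lt (F := F) (β := β) (x := j.2.1) (x' := z) (by omega) D.hzN
  have h4 := Frame.q_pos (F := F) β z
  have hLpos : 1 ≤ 2 ^ (F.W * (F.K - (β + 1))) := Nat.one_le_two_pow
  have h5 := D.bud
  rcases hjβ with h | h
  · have h2 := D.sum1 hj h
    generalize ∑ j ∈ C.E.filter (fun j => j.1 = β), 2 ^ F.e j.1 j.2.1 = S1 at *
    generalize ∑ j ∈ C.E.filter (fun j => j.1 = β + 1), 2 ^ F.e j.1 j.2.1 = S2 at *
    generalize 2 ^ (F.W * (F.K - (β + 1))) = L at *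
    omega
  · have h2 := D.sum2 hj h
    generalize ∑ j ∈ C.E.filter (fun j => j.1 = β), 2 ^ F.e j.1 j.2.1 = S1 at *
    generalize ∑ j ∈ C.E.filter (fun j => j.1 = β + 1), 2 ^ F.e j.1 j.2.1 = S2 at *
    generalize 2 ^ (F.W * (F.K - (β + 1))) = L at *
    omega

theorem RD.one {C : Conf F} {β i1 z y1 y2 : ℕ} (D : C.RD β i1 z y1 y2) :
    ∀ j ∈ C.E, ∀ j' ∈ C.E, j.1 = β → j'.1 = β → j.2.1 = z → j'.2.1 = z → j = j' := by
  intro j hj j' hj' h1 h2 h3 h4
  by_contra hne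
  have h5 := D.bud
  have h7 := D.sum1' hj h1 hj' h2 hne
  rw [h3, h4] at h7
  have h8 := Frame.q_pos (F := F) β z
  generalize ∑ j ∈ C.E.filter (fun j => j.1 = β), 2 ^ F.e j.1 j.2.1 = S1 at *
  generalize ∑ j ∈ C.E.filter (fun j => j.1 = β + 1), 2 ^ F.e j.1 j.2.1 = S2 at *
  generalize 2 ^ (F.W * (F.K - (β + 1))) = L at *
  omega

theorem RD.uniq {C : Conf F} {β i1 z y1 y2 : ℕ} (D : C.RD β i1 z y1 y2) {j3 j4 : ℕ × ℕ × ℕ}
    (h3 : j3 ∈ C.E) (h3β : j3.1 = β) (h3z : j3.2.1 = z) (h4 : j4 ∈ C.E) (h4β : j4.1 = β + 1)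
    (h4z : j4.2.1 = z) : (∀ j ∈ C.E, j.1 = β → j = j3) ∧ (∀ j ∈ C.E, j.1 = β + 1 → j = j4) := by
  have h5 := D.bud
  have hs3 := D.sum1 h3 h3β
  have hs4 := D.sum2 h4 h4β
  rw [h3z] at hs3
  rw [h4z] at hs4
  constructor
  · intro j hj h1
    by_contra hne
    have h7 := D.sum1' hj h1 h3 h3β hne
    rw [h3z] at h7
    have h8 := Frame.q_pos (F := F) β j.2.1
    generalize ∑ j ∈ C.E.filter (fun j => j.1 = β), 2 ^ F.e j.1 j.2.1 = S1 at *
    generalize ∑ j ∈ C.E.filter (fun j => j.1 = β + 1), 2 ^ F.e j.1 j.2.1 = S2 at *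
    generalize 2 ^ (F.W * (F.K - (β + 1))) = L at *
    omega
  · intro j hj h1
    by_contra hne
    have h7 := D.sum2' hj h1 h4 h4β hne
    rw [h4z] at h7
    have h8 := Frame.q_pos (F := F) β j.2.1
    generalize ∑ j ∈ C.E.filter (fun j => j.1 = β), 2 ^ F.e j.1 j.2.1 = S1 at *
    generalize ∑ j ∈ C.E.filter (fun j => j.1 = β + 1), 2 ^ F.e j.1 j.2.1 = S2 at *
    generalize 2 ^ (F.W * (F.K - (β + 1))) = L at *
    omega

theorem RD.zu {C : Conf F} {β i1 z y1 y2 : ℕ} (D : C.RD β i1 z y1 y2) :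
    ∀ j ∈ C.E, ∀ ν z', (ν = β ∨ ν = β + 1) → (ν, z') ∈ C.V j → z' = z := by
  intro j hj ν z' hν hs
  have h4 : F.reg ν = true := by
    rcases hν with h | h
    · rw [h]; exact Frame.reg_fst D.hf
    · rw [h]; exact Frame.reg_succ D.hf
  have h3 : F.blk ν = β := by
    rcases hν with h | h
    · rw [h]; exact Frame.blk_fst D.hf
    · rw [h]; exact Frame.blk_succ D.hf
  have h5 := C.hs _ hj _ hs h4
  simp only [h3] at h5
  exact D.hzu _ h5.1 h5.2

/-- Second part of the region data. -/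
structure RE (β z : ℕ) (j3 j4 : ℕ × ℕ × ℕ) : Prop where
  h3E : j3 ∈ C.E
  h3β : j3.1 = β
  h3z : j3.2.1 = z
  h3s : (β, z) ∈ C.V j3
  h3s2 : (β + 1, z) ∈ C.V j3
  h4E : j4 ∈ C.E
  h4β : j4.1 = β + 1
  h4z : j4.2.1 = z
  h4s : (β + 1, z) ∈ C.V j4
  u3 : ∀ j ∈ C.E, j.1 = β → j = j3
  u4 : ∀ j ∈ C.E, j.1 = β + 1 → j = j4
  old1 : ∀ j ∈ C.E, j.1 < β → β < j.1 + F.m → (β, z) ∈ C.V j
  old2 : ∀ j ∈ C.E, j.1 < β → β + 1 < j.1 + F.m → (β + 1, z) ∈ C.V j
  Bold : ∀ j ∈ C.E, j.1 < β → ∀ z', (β + 1, z') ∈ C.V j → β + 1 < j.1 + F.m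

theorem card_old {β : ℕ} (hI : C.Inv β) (D : Finset (ℕ × ℕ × ℕ)) (hD : D ⊆ C.E) :
    (D.filter (fun j => j.1 < β)).card = ((D.filter (fun j => j.1 < β)).image (fun j => j.1)).card := by
  refine (card_image_of_injOn ?_).symm
  intro j hj j' hj' he
  obtain ⟨hj1, hj2⟩ := mem_filter.mp (Finset.mem_coe.mp hj)
  obtain ⟨hj'1, _⟩ := mem_filter.mp (Finset.mem_coe.mp hj')
  exact C.old_inj hI (hD hj1) (hD hj'1) hj2 he

theorem siteA {β i1 z y1 y2 : ℕ} (hI : C.Inv β) (D : C.RD β i1 z y1 y2) :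
    (∃ j3 ∈ C.E, j3.1 = β ∧ j3.2.1 = z ∧ (β, z) ∈ C.V j3) ∧
    (∀ j ∈ C.E, j.1 < β → β < j.1 + F.m → (β, z) ∈ C.V j) := by
  classical
  have hf := D.hf
  have hbβ : F.blk β = β := Frame.blk_fst hf
  have hbβ1 : F.blk (β + 1) = β := Frame.blk_succ hf
  set A := C.E.filter (fun j => (β, z) ∈ C.V j) with hA
  have hAcard : A.card = F.m := C.hR β z (Frame.reg_fst hf) D.hzN (by rw [hbβ]; exact D.hzh)
  have hAnew : ∀ j ∈ A, ¬ j.1 < β → j.1 = β ∧ j.2.1 = z := by
    intro j hj hlt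
    obtain ⟨hj, hs⟩ := mem_filter.mp hj
    have h1 := C.hl j hj _ hs
    unfold Frame.sle at h1
    simp only [hbβ] at h1
    have h2 := reg_site (F := F) (β := β) (ν := j.1) (by omega)
      (by rcases h1 with h | h <;> omega)
    have h3 := D.ge j hj h2
    rcases h2 with h | h
    · rw [h, hbβ] at h1
      refine ⟨h, ?_⟩
      rcases h1 with h' | h' <;> omega
    · rw [h, hbβ1] at h1
      rcases h1 with h' | h' <;> omega
  have hi1 := D.hi1
  have hA1 : (A.filter (fun j => j.1 < β)).image (fun j => j.1) ⊆ Ico i1 β := by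
    intro i hi
    obtain ⟨j, hj, rfl⟩ := mem_image.mp hi
    obtain ⟨hj, hjβ⟩ := mem_filter.mp hj
    obtain ⟨hj, hs⟩ := mem_filter.mp hj
    have := C.old_users hI hj hjβ hs le_rfl
    rw [mem_Ico]
    omega
  have hcard1 := C.card_old hI A (filter_subset _ _)
  have hIco : (Ico i1 β).card + 1 = F.m := by
    rw [Nat.card_Ico]; have := D.him; omega
  have hc1' := card_le_card hA1
  have hsplit := card_filter_add_card_filter_not (s := A) (fun j => j.1 < β)
  have hA2le : (A.filter (fun j => ¬ j.1 < β)).card ≤ 1 := by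
    rw [Finset.card_le_one]
    intro j hj j' hj'
    obtain ⟨h1, h2⟩ := mem_filter.mp hj
    obtain ⟨h1', h2'⟩ := mem_filter.mp hj'
    obtain ⟨h3, h4⟩ := hAnew j h1 h2
    obtain ⟨h3', h4'⟩ := hAnew j' h1' h2'
    exact D.one j (mem_filter.mp h1).1 j' (mem_filter.mp h1').1 h3 h3' h4 h4'
  have hA1eq : (A.filter (fun j => j.1 < β)).image (fun j => j.1) = Ico i1 β :=
    Finset.eq_of_subset_of_card_le hA1 (by omega)
  obtain ⟨j3, hj3⟩ : (A.filter (fun j => ¬ j.1 < β)).Nonempty := by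
    rw [← Finset.card_pos]; omega
  obtain ⟨hj3A, hj3lt⟩ := mem_filter.mp hj3
  obtain ⟨hj3β, hj3z⟩ := hAnew j3 hj3A hj3lt
  obtain ⟨hj3E, hj3s⟩ := mem_filter.mp hj3A
  refine ⟨⟨j3, hj3E, hj3β, hj3z, hj3s⟩, ?_⟩
  intro j hj h1 h2
  have h8 : j.1 ∈ (A.filter (fun j => j.1 < β)).image (fun j => j.1) := by
    rw [hA1eq, mem_Ico]; omega
  obtain ⟨j', hj', hji⟩ := mem_image.mp h8
  obtain ⟨hj', _⟩ := mem_filter.mp hj'
  obtain ⟨hj'E, hj's⟩ := mem_filter.mp hj'
  rw [C.old_inj hI hj hj'E h1 hji.symm]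
  exact hj's

theorem exists_RE {β i1 z y1 y2 : ℕ} (hI : C.Inv β) (D : C.RD β i1 z y1 y2) :
    ∃ j3 j4, C.RE β z j3 j4 := by
  classical
  have hf := D.hf
  have hbβ : F.blk β = β := Frame.blk_fst hf
  have hbβ1 : F.blk (β + 1) = β := Frame.blk_succ hf
  obtain ⟨⟨j3, hj3E, hj3β, hj3z, hj3s⟩, hold1⟩ := C.siteA hI D
  have hi1 := D.hi1
  have him := D.him
  -- the users of the second site of the hole
  set B := C.E.filter (fun j => (β + 1, z) ∈ C.V j) with hB
  have hBcard : B.card = F.m := C.hR (β + 1) z (Frame.reg_succ hf) D.hzN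
    (by rw [hbβ1]; exact D.hzh)
  have hBold : ∀ j ∈ C.E, j.1 < β → ∀ z', (β + 1, z') ∈ C.V j → β + 1 < j.1 + F.m := by
    intro j hj h1 z' hs
    have h2 := C.old_users hI hj h1 hs (by simp)
    by_contra hlt
    have h3 : j.1 = i1 := by omega
    have h4 := D.hu1 j hj h3
    have h5 := C.saturated hj (i := j.1) (fun ν hν1 hν2 => by
      by_cases hν : ν = β
      · rw [hν, D.hz]
        exact hold1 j hj h1 h2
      · rw [h4]
        refine (D.hc1 ν _ (by omega)).mpr ⟨rfl, by omega, by omega⟩) _ hs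
    simp only at h5
    omega
  have hB1 : (B.filter (fun j => j.1 < β)).image (fun j => j.1) ⊆ Ico (i1 + 1) β := by
    intro i hi
    obtain ⟨j, hj, rfl⟩ := mem_image.mp hi
    obtain ⟨hj, hjβ⟩ := mem_filter.mp hj
    obtain ⟨hj, hs⟩ := mem_filter.mp hj
    have := hBold j hj hjβ _ hs
    rw [mem_Ico]
    omega
  have hcard2 := C.card_old hI B (filter_subset _ _)
  have hIco2 : (Ico (i1 + 1) β).card + 2 = F.m := by rw [Nat.card_Ico]; omega
  have hc2' := card_le_card hB1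
  have hBnew : ∀ j ∈ B, ¬ j.1 < β → (j = j3 ∨ (j.1 = β + 1 ∧ j.2.1 = z)) := by
    intro j hj hlt
    obtain ⟨hj, hs⟩ := mem_filter.mp hj
    have h1 := C.hl j hj _ hs
    unfold Frame.sle at h1
    simp only [hbβ1] at h1
    have h2 := reg_site (F := F) (β := β) (ν := j.1) (by omega)
      (by rcases h1 with h | h <;> omega)
    have h3 := D.ge j hj h2
    rcases h2 with h | h
    · left
      rw [h, hbβ] at h1
      refine D.one j hj j3 hj3E h hj3β ?_ hj3z
      rcases h1 with h' | h' <;> omega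
    · right
      rw [h, hbβ1] at h1
      refine ⟨h, ?_⟩
      rcases h1 with h' | h' <;> omega
  have hsplit2 := card_filter_add_card_filter_not (s := B) (fun j => j.1 < β)
  rw [hBcard] at hsplit2
  obtain ⟨j4, hj4, hj4ne⟩ : ∃ j4 ∈ B.filter (fun j => ¬ j.1 < β), j4 ≠ j3 := by
    by_contra hno
    have hno' : ∀ a ∈ B.filter (fun j => ¬ j.1 < β), a = j3 := fun a ha => by
      by_contra h
      exact hno ⟨a, ha, h⟩
    have : (B.filter (fun j => ¬ j.1 < β)).card ≤ 1 := by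
      rw [Finset.card_le_one]
      intro a ha b hb
      rw [hno' a ha, hno' b hb]
    omega
  obtain ⟨hj4B, hj4lt⟩ := mem_filter.mp hj4
  obtain ⟨hj4β, hj4z⟩ := (hBnew j4 hj4B hj4lt).resolve_left hj4ne
  obtain ⟨hj4E, hj4s⟩ := mem_filter.mp hj4B
  obtain ⟨hu3, hu4⟩ := D.uniq hj3E hj3β hj3z hj4E hj4β hj4z
  have hB2le : (B.filter (fun j => ¬ j.1 < β)) ⊆ {j3, j4} := by
    intro j hj
    obtain ⟨hjB, hjlt⟩ := mem_filter.mp hj
    rcases hBnew j hjB hjlt with h | h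
    · rw [h]; simp
    · rw [hu4 j (mem_filter.mp hjB).1 h.1]; simp
  have hB2card : (B.filter (fun j => ¬ j.1 < β)).card ≤ 2 :=
    le_trans (card_le_card hB2le) (Finset.card_le_two)
  have hB1eq : (B.filter (fun j => j.1 < β)).image (fun j => j.1) = Ico (i1 + 1) β :=
    Finset.eq_of_subset_of_card_le hB1 (by omega)
  have hB2eq : (B.filter (fun j => ¬ j.1 < β)) = {j3, j4} :=
    Finset.eq_of_subset_of_card_le hB2le (by
      rw [Finset.card_pair (Ne.symm hj4ne)]; omega)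
  have hj3s2 : (β + 1, z) ∈ C.V j3 := by
    have : j3 ∈ B.filter (fun j => ¬ j.1 < β) := by rw [hB2eq]; simp
    exact (mem_filter.mp (mem_filter.mp this).1).2
  refine ⟨j3, j4, hj3E, hj3β, hj3z, hj3s, hj3s2, hj4E, hj4β, hj4z, hj4s, hu3, hu4, hold1, ?_,
    hBold⟩
  intro j hj h1 h2
  have h8 : j.1 ∈ (B.filter (fun j => j.1 < β)).image (fun j => j.1) := by
    rw [hB1eq, mem_Ico]; omega
  obtain ⟨j', hj', hji⟩ := mem_image.mp h8
  obtain ⟨hj', _⟩ := mem_filter.mp hj'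
  obtain ⟨hj'E, hj's⟩ := mem_filter.mp hj'
  rw [C.old_inj hI hj hj'E h1 hji.symm]
  exact hj's

theorem RD.conlow {C : Conf F} {β i1 z y1 y2 : ℕ} (D : C.RD β i1 z y1 y2)
    {j3 j4 : ℕ × ℕ × ℕ} (G : C.RE β z j3 j4) :
    F.rc β + (2 ^ y1 - 2 ^ z) + (2 ^ y2 - 2 ^ z) ≤ C.con β + C.con (β + 1) := by
  have he1 : i1 + F.m - 1 = β := by have := D.hi1; omega
  have he2 : i1 + 1 + F.m - 1 = β + 1 := by have := D.hi1; omega
  obtain ⟨hcl1, hcl2⟩ := C.con_lower D.hf D.hzN D.hzh D.hE1 D.hE2 he1 he2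
  have hrcβ : F.rc β = 32 * F.q β 0 := Frame.rc_fst D.hf (by have := D.hzN; omega)
  have hdl := Frame.dl_eq D.hf D.hzN
  have hs3 := D.sum1 G.h3E G.h3β
  have hs4 := D.sum2 G.h4E G.h4β
  rw [G.h3z] at hs3
  rw [G.h4z] at hs4
  have hp1 : 2 ^ z ≤ 2 ^ y1 := Nat.pow_le_pow_right (by norm_num) D.hy1
  have hp2 : 2 ^ z ≤ 2 ^ y2 := Nat.pow_le_pow_right (by norm_num) D.hy2
  rw [hrcβ]
  simp only at hcl1 hcl2
  clear he1 he2 hrcβ
  generalize ∑ j ∈ C.E.filter (fun j => j.1 = β), 2 ^ F.e j.1 j.2.1 = S1 at *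
  generalize ∑ j ∈ C.E.filter (fun j => j.1 = β + 1), 2 ^ F.e j.1 j.2.1 = S2 at *
  generalize 2 ^ z = X at *
  generalize 2 ^ y1 = X1 at *
  generalize 2 ^ y2 = X2 at *
  omega

/-- The step for a region. -/
theorem step_reg {β : ℕ} (hI : C.Inv β) (hf : F.fst β = true) : C.Inv (β + 2) := by
  classical
  obtain ⟨i1, z, y1, y2, D⟩ := C.exists_RD hI hf
  obtain ⟨j3, j4, G⟩ := C.exists_RE hI D
  have hm3 := F.h3 β hf
  have hbβ : F.blk β = β := Frame.blk_fst hf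
  have hbβ1 : F.blk (β + 1) = β := Frame.blk_succ hf
  have hz : C.h β = z := D.hz
  have hz1 : C.h (β + 1) = z := by rw [C.h_succ hf]; exact hz
  have hj3eq : j3 = (β, C.h β, j3.2.2) := by
    rw [hz]; exact Prod.ext G.h3β (Prod.ext G.h3z rfl)
  have hj4eq : j4 = (β + 1, C.h (β + 1), j4.2.2) := by
    rw [hz1]; exact Prod.ext G.h4β (Prod.ext G.h4z rfl)
  have hb0 : ∀ j ∈ C.E, j.1 = β ∨ j.1 = β + 1 → ∀ ν z', (ν, z') ∈ C.V j → β ≤ ν := by
    intro j hj hjβ ν z' hs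
    have h1 := C.hl j hj _ hs
    unfold Frame.sle at h1
    simp only at h1
    have h2 := Frame.blk_le (F := F) ν
    have h3 : F.blk j.1 = β := by rcases hjβ with h | h <;> rw [h] <;> assumption
    rw [h3] at h1
    rcases h1 with h1 | h1 <;> omega
  have hi1 := D.hi1
  have him := D.him
  refine ⟨?_, ?_, ?_, ?_⟩
  · intro γ hγ hfγ
    by_cases h1 : γ = β
    · rw [h1, hz]
      exact ⟨D.hzN, fun z' hz' => ⟨D.hzu z' hz', fun h => by rw [h]; exact D.hzh⟩⟩
    · by_cases h2 : γ = β + 1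
      · rw [h2, F.h1 β hf] at hfγ; cases hfγ
      · exact hI.a γ (by omega) hfγ
  · intro i hi1' hi2
    by_cases hiβ : i = β
    · subst hiβ
      refine ⟨j3.2.2, ?_, ?_, ?_, ?_⟩
      · rw [← hj3eq]; exact G.h3E
      · intro j hj hji
        rw [← hj3eq]; exact G.u3 j hj hji
      · rw [← hj3eq]
        intro ν z' hν
        constructor
        · intro hs
          have h1 := hb0 j3 G.h3E (Or.inl G.h3β) ν z' hs
          have h2 : ν = i ∨ ν = i + 1 := by omega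
          have h3 := D.zu j3 G.h3E ν z' h2 hs
          refine ⟨?_, h1, by omega⟩
          rcases h2 with h2 | h2
          · rw [h2, h3, hz]
          · rw [h2, h3, hz1]
        · rintro ⟨h1, h2, h3⟩
          have h4 : ν = i ∨ ν = i + 1 := by omega
          rcases h4 with h4 | h4
          · rw [h1, h4, hz]; exact G.h3s
          · rw [h1, h4, hz1]; exact G.h3s2
      · intro h1 h2
        omega
    · by_cases hiβ1 : i = β + 1
      · subst hiβ1
        refine ⟨j4.2.2, ?_, ?_, ?_, ?_⟩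
        · rw [← hj4eq]; exact G.h4E
        · intro j hj hji
          rw [← hj4eq]; exact G.u4 j hj hji
        · rw [← hj4eq]
          intro ν z' hν
          constructor
          · intro hs
            have h1 := hb0 j4 G.h4E (Or.inr G.h4β) ν z' hs
            have h2 : ν = β ∨ ν = β + 1 := by omega
            have h3 := D.zu j4 G.h4E ν z' h2 hs
            rcases h2 with h2 | h2
            · exfalso
              have h4 := C.hl j4 G.h4E _ hs
              unfold Frame.sle at h4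
              simp only [h2, h3, G.h4β, G.h4z, hbβ, hbβ1] at h4
              omega
            · exact ⟨by rw [h2, h3, hz1], by omega, by omega⟩
          · rintro ⟨h1, h2, h3⟩
            have h4 : ν = β + 1 := by omega
            rw [h1, h4, hz1]; exact G.h4s
        · intro h1 h2
          omega
      · have hilt : i < β := by omega
        obtain ⟨y, h1, h2, h3, h4⟩ := hI.b i hi1' hilt
        refine ⟨y, h1, h2, ?_, ?_⟩
        · intro ν z' hν
          by_cases hνβ : ν = β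
          · subst hνβ
            constructor
            · intro hs
              have h5 := C.old_users hI h1 hilt hs le_rfl
              exact ⟨by rw [hz]; exact D.zu _ h1 _ _ (Or.inl rfl) hs, by omega, h5⟩
            · rintro ⟨h5, h6, h7⟩
              rw [h5, hz]
              exact G.old1 _ h1 hilt h7
          · by_cases hνβ1 : ν = β + 1
            · subst hνβ1
              constructor
              · intro hs
                have h5 := G.Bold _ h1 hilt _ hs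
                exact ⟨by rw [hz1]; exact D.zu _ h1 _ _ (Or.inr rfl) hs, by omega, h5⟩
              · rintro ⟨h5, h6, h7⟩
                rw [h5, hz1]
                exact G.old2 _ h1 hilt h7
            · exact h3 ν z' (by omega)
        · intro h5 h6
          by_cases h7 : i + F.m - 1 = β
          · rw [h7, hz]
            have h8 : i = i1 := by omega
            have h9 := D.hu1 _ h1 h8
            have h10 : y = y1 := congrArg (fun j : ℕ × ℕ × ℕ => j.2.2) h9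
            rw [h10]; exact D.hy1
          · by_cases h7' : i + F.m - 1 = β + 1
            · rw [h7', hz1]
              have h8 : i = i1 + 1 := by omega
              have h9 := D.hu2 _ h1 h8
              have h10 : y = y2 := congrArg (fun j : ℕ × ℕ × ℕ => j.2.2) h9
              rw [h10]; exact D.hy2
            · exact h4 h5 (by omega)
  · have hd := hI.d
    have hc := D.conlow G
    have hr1 : F.rc (β + 1) = 0 := Frame.rc_succ hf
    rw [Finset.sum_Ico_succ_top (by omega), Finset.sum_Ico_succ_top (by omega),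
      Finset.sum_Ico_succ_top (by omega), Finset.sum_Ico_succ_top (by omega)]
    clear hi1 him hm3 hbβ hbβ1
    generalize 2 ^ z = X at *
    generalize 2 ^ y1 = X1 at *
    generalize 2 ^ y2 = X2 at *
    omega
  · rintro ⟨i, y, h1, h2, h3, h4, h5⟩
    have hd := hI.d
    have hc := D.conlow G
    have hr1 : F.rc (β + 1) = 0 := Frame.rc_succ hf
    rw [Finset.sum_Ico_succ_top (by omega), Finset.sum_Ico_succ_top (by omega),
      Finset.sum_Ico_succ_top (by omega), Finset.sum_Ico_succ_top (by omega)]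
    by_cases h7 : i + F.m - 1 = β
    · rw [h7, hz] at h5
      have h8 : i = i1 := by omega
      have h9 := D.hu1 _ h2 h8
      have h10 : y = y1 := congrArg (fun j : ℕ × ℕ × ℕ => j.2.2) h9
      rw [h10] at h5
      have h11 : 2 ^ z < 2 ^ y1 := Nat.pow_lt_pow_right (by norm_num) (by
        have := D.hy1; omega)
      clear hi1 him hm3 hbβ hbβ1 h7 h8 h4 h1
      generalize 2 ^ z = X at *
      generalize 2 ^ y1 = X1 at *
      generalize 2 ^ y2 = X2 at *
      omega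
    · by_cases h7' : i + F.m - 1 = β + 1
      · rw [h7', hz1] at h5
        have h8 : i = i1 + 1 := by omega
        have h9 := D.hu2 _ h2 h8
        have h10 : y = y2 := congrArg (fun j : ℕ × ℕ × ℕ => j.2.2) h9
        rw [h10] at h5
        have h11 : 2 ^ z < 2 ^ y2 := Nat.pow_lt_pow_right (by norm_num) (by
          have := D.hy2; omega)
        clear hi1 him hm3 hbβ hbβ1 h7 h7' h8 h4 h1
        generalize 2 ^ z = X at *
        generalize 2 ^ y1 = X1 at *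
        generalize 2 ^ y2 = X2 at *
        omega
      · have h8 := hI.d' ⟨i, y, h1, h2, h3, by omega, h5⟩
        clear hi1 him hm3 hbβ hbβ1 h7 h7' h4 h1
        generalize 2 ^ z = X at *
        generalize 2 ^ y1 = X1 at *
        generalize 2 ^ y2 = X2 at *
        omega

/-- The invariant holds at all block boundaries. -/
theorem inv_all : ∀ β, F.m ≤ β → β ≤ F.K → F.snd β = false → C.Inv β := by
  intro β
  induction β using Nat.strong_induction_on with
  | _ β ih =>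
    intro h1 h2 h3
    by_cases hb : β = F.m
    · rw [hb]; exact C.inv_base
    · obtain ⟨γ, rfl⟩ : ∃ γ, β = γ + 1 := ⟨β - 1, by omega⟩
      have hm := F.hm
      rw [Frame.snd_succ] at h3
      by_cases hs : F.snd γ = true
      · obtain ⟨δ, rfl⟩ : ∃ δ, γ = δ + 1 := by
          rcases γ with _ | δ
          · simp [Frame.snd] at hs
          · exact ⟨δ, rfl⟩
        rw [Frame.snd_succ] at hs
        have h4 := F.h2 δ hs
        exact C.step_reg (ih δ (by omega) (by omega) (by omega) (Frame.snd_of_fst hs)) hs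
      · have hs' : F.snd γ = false := by simpa using hs
        exact C.step_tick (ih γ (by omega) (by omega) (by omega) hs') (by omega) (by omega)
          (Frame.reg_false.mpr ⟨h3, hs'⟩)

/-- Conclusion of the sweep. -/
theorem sweep : (∀ γ, F.fst γ = true → C.h γ < F.N) ∧
    (∀ k, 1 ≤ k → k < F.K → (k, C.h k, C.h (k + F.m - 1)) ∈ C.E) ∧
    F.Q ≤ (∑ ν ∈ range F.K, if F.fst ν = true then
      ∑ z ∈ range F.N, (if C.hole ν z = true then F.dl ν z else 0) else 0) +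
      ∑ j ∈ C.E, (2 ^ F.e j.1 j.2.1 + F.cc j) := by
  have hm := F.hm
  have hK := F.hK
  have hsK : F.snd F.K = false := by
    by_contra h
    have h' : F.snd F.K = true := by simpa using h
    have := Frame.reg_lt (F := F) (ν := F.K) (Frame.reg_iff.mpr (Or.inr h'))
    omega
  have hI := C.inv_all F.K (by omega) le_rfl hsK
  refine ⟨fun γ hγ => (hI.a γ (by have := F.h2 γ hγ; omega) hγ).1, ?_,
    le_trans hI.d C.con_le_cost⟩
  intro k hk1 hk2
  obtain ⟨y, h1, h2, h3, h4⟩ := hI.b k hk1 hk2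
  have hy : y = C.h (k + F.m - 1) := by
    by_cases hr : F.reg (k + F.m - 1) = true
    · by_contra hne
      have h5 := hI.d' ⟨k, y, hk1, h1, hr, (Frame.reg_lt hr).2, hne⟩
      have h6 := C.con_le
      unfold Frame.Q at h6
      omega
    · have hr' : F.reg (k + F.m - 1) = false := by simpa using hr
      rw [C.h_of_not_reg hr']
      exact C.hy0 _ h1 hr'
  rw [← hy]
  exact h1

end Conf

end Pool.Agent.OpenShop
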