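import Mathlib
import Pool.Agent.OpenShop.Sweep2

/-!
# Layout of the time slots
-/

namespace Pool.Agent.OpenShop

open Finset

/-- Descriptions of the time slots: sites and body slots. -/
inductive Slot
  | st (ν z : ℕ)
  | bd (β z i : ℕ)
  deriving DecidableEq

namespace Frame

variable (F : Frame)

/-- number of slots of an index -/
def len (ν : ℕ) : ℕ := if F.fst ν = true then F.N * (F.m + 2) else if F.snd ν = true then 0 else 1

/-- start time of an index -/
def bt (ν : ℕ) : ℕ := ∑ i ∈ range ν, F.len i

/-- time of a site -/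
def sti (ν z : ℕ) : ℕ :=
  if F.fst ν = true then F.bt ν + z * (F.m + 2) + F.m
  else if F.snd ν = true then F.bt (ν - 1) + z * (F.m + 2) + F.m + 1
  else F.bt ν

/-- time of a slot -/
def tm : Slot → ℕ
  | .st ν z => F.sti ν z
  | .bd β z i => F.bt β + z * (F.m + 2) + i

/-- valid slots -/
def valid : Slot → Prop
  | .st ν z => ν < F.K + F.m ∧ (F.reg ν = true → z < F.N) ∧ (F.reg ν = false → z = 0)
  | .bd β z i => F.fst β = true ∧ z < F.N ∧ i < F.m

/-- block of a slot -/
def sblk : Slot → ℕ
  | .st ν _ => F.blk ν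
  | .bd β _ _ => β

variable {F}

theorem bt_succ (ν : ℕ) : F.bt (ν + 1) = F.bt ν + F.len ν := by
  unfold bt; rw [sum_range_succ]

theorem bt_mono {a b : ℕ} (h : a ≤ b) : F.bt a ≤ F.bt b := by
  unfold bt
  exact Finset.sum_le_sum_of_subset (range_mono h)

theorem bt_fst {β : ℕ} (h : F.fst β = true) : F.bt (β + 1) = F.bt β + F.N * (F.m + 2) := by
  rw [bt_succ]; unfold len; rw [if_pos h]

theorem bt_fst2 {β : ℕ} (h : F.fst β = true) : F.bt (β + 2) = F.bt (β + 1) := by
  rw [bt_succ]; unfold len; rw [snd_succ, F.h1 β h, h]; simp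

theorem bt_tick {ν : ℕ} (h : F.reg ν = false) : F.bt (ν + 1) = F.bt ν + 1 := by
  obtain ⟨h1, h2⟩ := reg_false.mp h
  rw [bt_succ]; unfold len; rw [h1, h2]; simp

theorem sti_fst {β : ℕ} (h : F.fst β = true) (z : ℕ) :
    F.sti β z = F.bt β + z * (F.m + 2) + F.m := by unfold sti; rw [if_pos h]

theorem sti_snd {β : ℕ} (h : F.fst β = true) (z : ℕ) :
    F.sti (β + 1) z = F.bt β + z * (F.m + 2) + F.m + 1 := by
  unfold sti; rw [F.h1 β h, snd_succ, h]; simp

theorem sti_tick {ν : ℕ} (h : F.reg ν = false) (z : ℕ) : F.sti ν z = F.bt ν := by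
  obtain ⟨h1, h2⟩ := reg_false.mp h
  unfold sti; rw [h1, h2]; simp

theorem mul_lt_aux {z N c : ℕ} (h : z < N) : z * c + c ≤ N * c := by
  have : (z + 1) * c ≤ N * c := Nat.mul_le_mul_right _ h
  rwa [Nat.add_mul, one_mul] at this

/-- A region index. -/
theorem reg_cases {ν : ℕ} (h : F.reg ν = true) :
    (F.fst ν = true ∧ F.blk ν = ν) ∨ (∃ β, ν = β + 1 ∧ F.fst β = true ∧ F.blk ν = β) := by
  rcases reg_iff.mp h with h | h
  · exact Or.inl ⟨h, blk_fst h⟩
  · rcases ν with _ | β
    · simp [snd] at h
    · rw [snd_succ] at h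
      exact Or.inr ⟨β, rfl, h, blk_succ h⟩

/-- The time of a slot lies in its block. -/
theorem tm_mem {s : Slot} (hs : F.valid s) :
    F.bt (F.sblk s) ≤ F.tm s ∧ F.tm s < F.bt (F.sblk s + 1) := by
  rcases s with ⟨ν, z⟩ | ⟨β, z, i⟩
  · obtain ⟨h1, h2, h3⟩ := hs
    unfold sblk tm
    by_cases hr : F.reg ν = true
    · have hz := mul_lt_aux (c := F.m + 2) (h2 hr)
      rcases reg_cases hr with ⟨hf, hb⟩ | ⟨β, rfl, hf, hb⟩
      · simp only
        rw [hb, sti_fst hf, bt_fst hf]
        omega
      · simp only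
        rw [hb, sti_snd hf, bt_fst hf]
        omega
    · have hr' : F.reg ν = false := by simpa using hr
      simp only
      rw [blk_of_not_snd (reg_false.mp hr').2, sti_tick hr', bt_tick hr']
      omega
  · obtain ⟨h1, h2, h3⟩ := hs
    unfold sblk tm
    have hz := mul_lt_aux (c := F.m + 2) h2
    simp only
    rw [bt_fst h1]
    omega

theorem sblk_le {s s' : Slot} (hs : F.valid s) (hs' : F.valid s') (h : F.tm s ≤ F.tm s') :
    F.sblk s ≤ F.sblk s' := by
  by_contra hlt
  have h1 := (tm_mem hs).1
  have h2 := (tm_mem hs').2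
  have h3 := bt_mono (F := F) (a := F.sblk s' + 1) (b := F.sblk s) (by omega)
  omega

theorem blk_not_reg {ν : ℕ} (h : F.reg ν = false) : F.blk ν = ν :=
  blk_of_not_snd (reg_false.mp h).2

theorem same_blk {ν ν' : ℕ} (h : F.blk ν = F.blk ν') (hr : F.reg ν = false) : ν' = ν := by
  have h1 := blk_not_reg hr
  rw [h1] at h
  rcases blk_eq_or h.symm with h2 | ⟨_, h3⟩
  · exact h2
  · rw [(reg_false.mp hr).1] at h3; cases h3

/-- offset inside a zone -/
def off (F : Frame) : Slot → ℕ × ℕ
  | .st ν z => (z, if F.fst ν = true then F.m else F.m + 1)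
  | .bd _ z i => (z, i)

theorem tm_reg {s : Slot} (hs : F.valid s) (hf : F.fst (F.sblk s) = true) :
    F.tm s = F.bt (F.sblk s) + (F.off s).1 * (F.m + 2) + (F.off s).2 ∧ (F.off s).2 < F.m + 2 ∧
      (F.off s).1 < F.N := by
  rcases s with ⟨ν, z⟩ | ⟨β, z, i⟩
  · obtain ⟨h1, h2, h3⟩ := hs
    by_cases hr : F.reg ν = true
    · rcases reg_cases hr with ⟨hf, hb⟩ | ⟨β, rfl, hf, hb⟩
      · simp only [sblk, tm, off, hb, sti_fst hf, hf, if_true]
        exact ⟨trivial, by omega, h2 hr⟩
      · simp only [sblk, tm, off, hb, sti_snd hf, F.h1 β hf]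
        simp only [Bool.false_eq_true, if_false]
        exact ⟨by omega, by omega, h2 hr⟩
    · have hr' : F.reg ν = false := by simpa using hr
      simp only [sblk] at hf
      rw [blk_not_reg hr', (reg_false.mp hr').1] at hf
      cases hf
  · obtain ⟨h1, h2, h3⟩ := hs
    simp only [tm, sblk, off]
    exact ⟨trivial, by omega, h2⟩

theorem zone_le {z z' c r r' a : ℕ} (h : a + z * c + r ≤ a + z' * c + r') (hr : r' < c) :
    z ≤ z' := by
  by_contra hlt
  have : (z' + 1) * c ≤ z * c := Nat.mul_le_mul_right _ (by omega)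
  rw [Nat.add_mul, one_mul] at this
  omega

/-- Sites and the order. -/
theorem sle_of_le {a b : ℕ × ℕ} (ha : F.valid (.st a.1 a.2)) (hb : F.valid (.st b.1 b.2))
    (h : F.sti a.1 a.2 ≤ F.sti b.1 b.2) : F.sle a b := by
  have h1 := sblk_le ha hb h
  simp only [sblk] at h1
  unfold sle
  rcases lt_or_eq_of_le h1 with h2 | h2
  · exact Or.inl h2
  · refine Or.inr ⟨h2, ?_⟩
    by_cases hr : F.reg a.1 = true
    · have hf : F.fst (F.blk a.1) = true := fst_blk hr
      obtain ⟨e1, e2, e3⟩ := tm_reg ha hf
      obtain ⟨f1, f2, f3⟩ := tm_reg hb (by simp only [sblk]; rw [← h2]; exact hf)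
      simp only [tm, sblk, off] at e1 e2 f1 f2
      rw [e1, f1, h2] at h
      have h3 := zone_le h f2
      rcases lt_or_eq_of_le h3 with h4 | h4
      · exact Or.inl h4
      · refine Or.inr ⟨h4, ?_⟩
        rw [h4] at h
        have h5 := le_blk (F := F) a.1
        have h6 := le_blk (F := F) b.1
        have h7 := blk_le (F := F) a.1
        have h8 := blk_le (F := F) b.1
        by_contra hlt
        have h9 : a.1 = F.blk a.1 + 1 := by omega
        have h10 : b.1 = F.blk b.1 := by omega
        have h11 : F.fst b.1 = true := by rw [h10, ← h2]; exact hf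
        have h12 : F.fst a.1 = false := by rw [h9]; exact F.h1 _ hf
        rw [h11, h12] at h
        simp at h
    · have hr' : F.reg a.1 = false := by simpa using hr
      have h3 := same_blk h2 hr'
      have h4 := ha.2.2 hr'
      have h5 := hb.2.2 (by rw [h3]; exact hr')
      exact Or.inr ⟨by omega, by omega⟩

/-- Times determine the slots. -/
theorem tm_inj {s s' : Slot} (hs : F.valid s) (hs' : F.valid s') (h : F.tm s = F.tm s') :
    s = s' := by
  have h1 : F.sblk s = F.sblk s' :=
    le_antisymm (sblk_le hs hs' h.le) (sblk_le hs' hs h.ge)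
  by_cases hf : F.fst (F.sblk s) = true
  · obtain ⟨e1, e2, e3⟩ := tm_reg hs hf
    obtain ⟨f1, f2, f3⟩ := tm_reg hs' (by rw [← h1]; exact hf)
    rw [e1, f1, h1] at h
    have h2 : (F.off s).1 = (F.off s').1 :=
      le_antisymm (zone_le h.le f2) (zone_le h.ge e2)
    rw [h2] at h
    have h3 : (F.off s).2 = (F.off s').2 := by omega
    rcases s with ⟨ν, z⟩ | ⟨β, z, i⟩ <;> rcases s' with ⟨ν', z'⟩ | ⟨β', z', i'⟩
    · simp only [off] at h2 h3
      simp only [sblk] at h1 hf
      have hν : ν = ν' := by
        have h5 := le_blk (F := F) ν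
        have h6 := le_blk (F := F) ν'
        have h7 := blk_le (F := F) ν
        have h8 := blk_le (F := F) ν'
        by_contra hne
        have h9 : (ν = F.blk ν ∧ ν' = F.blk ν + 1) ∨ (ν' = F.blk ν ∧ ν = F.blk ν + 1) := by omega
        rcases h9 with ⟨h9, h10⟩ | ⟨h9, h10⟩
        · have h11 : F.fst ν = true := by rw [h9]; exact hf
          have h12 : F.fst ν' = false := by rw [h10]; exact F.h1 _ hf
          rw [h11, h12] at h3
          simp at h3
        · have h11 : F.fst ν' = true := by rw [h9]; exact hf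
          have h12 : F.fst ν = false := by rw [h10]; exact F.h1 _ hf
          rw [h11, h12] at h3
          simp at h3
      rw [hν, h2]
    · simp only [off] at h3
      have := hs'.2.2
      split_ifs at h3 <;> omega
    · simp only [off] at h3
      have := hs.2.2
      split_ifs at h3 <;> omega
    · simp only [off] at h2 h3
      simp only [sblk] at h1
      rw [h1, h2, h3]
  · rcases s with ⟨ν, z⟩ | ⟨β, z, i⟩
    · rcases s' with ⟨ν', z'⟩ | ⟨β', z', i'⟩
      · simp only [sblk] at h1 hf
        have hr : F.reg ν = false := by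
          by_contra h
          exact hf (fst_blk (by simpa using h))
        have h3 := same_blk h1 hr
        have h4 := hs.2.2 hr
        have h5 := hs'.2.2 (by rw [h3]; exact hr)
        rw [h3, h4, h5]
      · exfalso
        simp only [sblk] at h1
        apply hf
        simp only [sblk]
        rw [h1]
        exact hs'.1
    · exfalso
      exact hf hs.1

/-- Every time is the time of a slot. -/
theorem tm_surj : ∀ n, n ≤ F.K + F.m → ∀ t, t < F.bt n → ∃ s, F.valid s ∧ F.tm s = t := by
  intro n
  induction n with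
  | zero => intro _ t ht; simp [bt] at ht
  | succ n ih =>
    intro hn t ht
    by_cases h : t < F.bt n
    · exact ih (by omega) t h
    · by_cases hr : F.reg n = true
      · rcases reg_cases hr with ⟨hf, hb⟩ | ⟨β, rfl, hf, hb⟩
        · rw [bt_fst hf] at ht
          have h2 := F.h2 n hf
          have hm := F.hm
          obtain ⟨o, ho⟩ : ∃ o, t = F.bt n + o := ⟨t - F.bt n, by omega⟩
          have h3 : o < F.N * (F.m + 2) := by omega
          have h4 : o / (F.m + 2) < F.N := Nat.div_lt_of_lt_mul (by rw [mul_comm]; exact h3)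
          have h5 := Nat.mod_lt o (by omega : 0 < F.m + 2)
          have h6 := Nat.div_add_mod o (F.m + 2)
          rw [mul_comm] at h6
          rcases (by omega : o % (F.m + 2) < F.m ∨ o % (F.m + 2) = F.m ∨
            o % (F.m + 2) = F.m + 1) with h7 | h7 | h7
          · refine ⟨.bd n (o / (F.m + 2)) (o % (F.m + 2)), ⟨hf, h4, h7⟩, ?_⟩
            simp only [tm]
            omega
          · refine ⟨.st n (o / (F.m + 2)), ⟨by omega, fun _ => h4, fun h => ?_⟩, ?_⟩
            · rw [reg_fst hf] at h; cases h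
            · simp only [tm]
              rw [sti_fst hf]
              omega
          · refine ⟨.st (n + 1) (o / (F.m + 2)), ⟨by omega, fun _ => h4, fun h => ?_⟩, ?_⟩
            · rw [reg_succ hf] at h; cases h
            · simp only [tm]
              rw [sti_snd hf]
              omega
        · rw [bt_fst2 hf] at ht
          exact absurd ht h
      · have hr' : F.reg n = false := by simpa using hr
        rw [bt_tick hr'] at ht
        refine ⟨.st n 0, ⟨by omega, fun h => absurd h hr, fun _ => rfl⟩, ?_⟩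
        simp only [tm]
        rw [sti_tick hr']
        omega

end Frame

end Pool.Agent.OpenShop
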