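import Mathlib
import Pool.Agent.OpenShop.Layout

/-!
# Exactness: all priced slots are full
-/

namespace Pool.Agent.OpenShop

open Finset

/-- The real jobs of the instance. -/
inductive RJob
  | tight (β z i : ℕ)
  | loose (β z i : ℕ)
  | ext (k x y : ℕ)
  deriving DecidableEq

namespace Frame

variable (F : Frame)

/-- release date -/
def jr : RJob → ℕ
  | .tight β z _ => F.bt β + z * (F.m + 2)
  | .loose β z _ => F.bt β + z * (F.m + 2)
  | .ext k x _ => F.sti k x

/-- due date -/
def jd : RJob → ℕ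
  | .tight β z _ => F.bt β + z * (F.m + 2) + F.m
  | .loose β z _ => F.bt β + z * (F.m + 2) + F.m + 2
  | .ext k _ y => F.sti (k + F.m - 1) y + 1

/-- base value of an external job -/
def bE (k : ℕ) : ℕ := F.m - (F.m - k) - (k + F.m - F.K)

/-- base value -/
def jb : RJob → ℕ
  | .tight _ _ _ => 2 * F.m
  | .loose _ _ _ => 2 * F.m - 2
  | .ext k _ _ => F.bE k

/-- cost -/
def jc : RJob → ℕ
  | .tight β z i => if i = 0 then F.dl β z else 0
  | .loose _ _ _ => 0
  | .ext k x y => 2 ^ F.e k x + F.cc (k, x, y)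

/-- scale -/
def M0 : ℕ := 2 ^ (F.W * F.K)

/-- weight -/
def jw (j : RJob) : ℕ := F.M0 * F.jb j - F.jc j

/-- admissible jobs -/
def good : RJob → Prop
  | .tight β z i => F.fst β = true ∧ z < F.N ∧ i < F.m
  | .loose β z i => F.fst β = true ∧ z < F.N ∧ i < F.m
  | .ext k x y => 1 ≤ k ∧ k < F.K ∧ (F.reg k = true → x < F.N) ∧ (F.reg k = false → x = 0) ∧
      (F.reg (k + F.m - 1) = true → y < F.N) ∧ (F.reg (k + F.m - 1) = false → y = 0)

/-- price of a slot -/
def pr : Slot → ℕ
  | .st ν _ => if F.m ≤ ν ∧ ν < F.K then 1 else 0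
  | .bd _ _ _ => 2

/-- number of sites of an index -/
def ns (ν : ℕ) : ℕ := if F.reg ν = true then F.N else 1

/-- all slots -/
def slots : Finset Slot :=
  ((range (F.K + F.m)).biUnion (fun ν => (range (F.ns ν)).image (fun z => Slot.st ν z))) ∪
  ((range F.K).filter (fun β => F.fst β = true)).biUnion
    (fun β => (range F.N).biUnion (fun z => (range F.m).image (fun i => Slot.bd β z i)))

/-- total price -/
def PS : ℕ := ∑ ν ∈ range F.K, ((if F.m ≤ ν then F.ns ν else 0) +
  (if F.fst ν = true then 2 * (F.N * F.m) else 0))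

variable {F}

theorem mem_slots {s : Slot} : s ∈ F.slots ↔ F.valid s := by
  unfold slots ns
  rcases s with ⟨ν, z⟩ | ⟨β, z, i⟩
  · simp only [mem_union, mem_biUnion, mem_range, mem_image, Slot.st.injEq, mem_filter,
      reduceCtorEq, and_false, exists_false, or_false, valid]
    constructor
    · rintro ⟨ν', h1, z', h2, rfl, rfl⟩
      refine ⟨h1, fun h => ?_, fun h => ?_⟩
      · rw [if_pos h] at h2; exact h2
      · rw [h] at h2; simpa using h2
    · rintro ⟨h1, h2, h3⟩
      refine ⟨ν, h1, z, ?_, rfl, rfl⟩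
      by_cases h : F.reg ν = true
      · rw [if_pos h]; exact h2 h
      · rw [if_neg h, h3 (by simpa using h)]; exact one_pos
  · simp only [mem_union, mem_biUnion, mem_range, mem_image, Slot.bd.injEq, mem_filter,
      reduceCtorEq, and_false, exists_false, false_or, valid]
    constructor
    · rintro ⟨β', ⟨h1, h2⟩, z', h3, i', h4, rfl, rfl, rfl⟩
      exact ⟨h2, h3, h4⟩
    · rintro ⟨h1, h2, h3⟩
      exact ⟨β, ⟨by have := F.h2 β h1; omega, h1⟩, z, h2, i, h3, rfl, rfl, rfl⟩

theorem sum_slots : ∑ s ∈ F.slots, F.pr s = F.PS := by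
  unfold slots PS
  rw [sum_union]
  · rw [sum_add_distrib]
    congr 1
    · rw [sum_biUnion]
      · rw [Finset.sum_range_add]
        have h2 : ∑ x ∈ range F.m, ∑ s ∈ (range (F.ns (F.K + x))).image
            (fun z => Slot.st (F.K + x) z), F.pr s = 0 := by
          refine Finset.sum_eq_zero fun x _ => Finset.sum_eq_zero fun s hs => ?_
          obtain ⟨z, _, rfl⟩ := mem_image.mp hs
          simp only [pr]
          rw [if_neg (by omega)]
        rw [h2, add_zero]
        refine sum_congr rfl fun ν hν => ?_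
        rw [mem_range] at hν
        rw [sum_image (fun a _ b _ h => by simpa using h)]
        unfold pr
        by_cases h : F.m ≤ ν
        · simp [h, hν]
        · simp [h]
      · intro a _ b _ hab
        rw [Function.onFun, Finset.disjoint_left]
        intro s hs hs'
        obtain ⟨z, _, rfl⟩ := mem_image.mp hs
        obtain ⟨z', _, h⟩ := mem_image.mp hs'
        simp only [Slot.st.injEq] at h
        exact hab h.1.symm
    · rw [sum_biUnion]
      · rw [sum_filter]
        refine sum_congr rfl fun β _ => ?_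
        split_ifs with hf
        · rw [sum_biUnion]
          · have : ∀ z ∈ range F.N, ∑ s ∈ (range F.m).image (fun i => Slot.bd β z i), F.pr s =
                2 * F.m := by
              intro z _
              rw [sum_image (fun a _ b _ h => by simpa using h)]
              simp [pr, mul_comm]
            rw [sum_congr rfl this]
            simp
            ring
          · intro a _ b _ hab
            rw [Function.onFun, Finset.disjoint_left]
            intro s hs hs'
            obtain ⟨z, _, rfl⟩ := mem_image.mp hs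
            obtain ⟨z', _, h⟩ := mem_image.mp hs'
            simp only [Slot.bd.injEq] at h
            exact hab h.2.1.symm
        · rfl
      · intro a _ b _ hab
        rw [Function.onFun, Finset.disjoint_left]
        intro s hs hs'
        simp only [mem_biUnion, mem_image] at hs hs'
        obtain ⟨z, _, i, _, rfl⟩ := hs
        obtain ⟨z', _, i', _, h⟩ := hs'
        simp only [Slot.bd.injEq] at h
        exact hab h.1.symm
  · rw [Finset.disjoint_left]
    intro s hs hs'
    simp only [mem_biUnion, mem_image] at hs hs'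
    obtain ⟨ν, _, z, _, rfl⟩ := hs
    obtain ⟨β, _, z', _, i', _, h⟩ := hs'
    cases h

/-- Slots of a zone. -/
theorem zone_slot {β z : ℕ} (hf : F.fst β = true) (hz : z < F.N) {s : Slot} (hs : F.valid s)
    (h1 : F.bt β + z * (F.m + 2) ≤ F.tm s) (h2 : F.tm s < F.bt β + z * (F.m + 2) + F.m + 2) :
    (∃ i, i < F.m ∧ s = .bd β z i) ∨ s = .st β z ∨ s = .st (β + 1) z := by
  obtain ⟨r, hr⟩ : ∃ r, F.tm s = F.bt β + z * (F.m + 2) + r :=
    ⟨F.tm s - (F.bt β + z * (F.m + 2)), by omega⟩
  have hm := F.hm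
  have hK := F.h2 β hf
  rcases (by omega : r < F.m ∨ r = F.m ∨ r = F.m + 1) with h | h | h
  · left
    refine ⟨r, h, tm_inj hs ⟨hf, hz, h⟩ ?_⟩
    rw [hr]; rfl
  · right; left
    refine tm_inj hs ⟨by omega, fun _ => hz, fun h' => ?_⟩ ?_
    · rw [reg_fst hf] at h'; cases h'
    · rw [hr, h]; simp only [tm, sti_fst hf]
  · right; right
    refine tm_inj hs ⟨by omega, fun _ => hz, fun h' => ?_⟩ ?_
    · rw [reg_succ hf] at h'; cases h'
    · rw [hr, h]; simp only [tm, sti_snd hf]; omega

end Frame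

/-- A selection of on-time jobs with their slots. -/
structure Sol (F : Frame) where
  O : Finset RJob
  U : RJob → Finset ℕ
  hg : ∀ j ∈ O, F.good j
  hU : ∀ j ∈ O, (U j).card = F.m
  hw : ∀ j ∈ O, ∀ t ∈ U j, F.jr j ≤ t ∧ t < F.jd j
  hcap : ∀ t, (O.filter (fun j => t ∈ U j)).card ≤ F.m

namespace Sol

variable {F : Frame} (S : Sol F)

/-- slots used by a job -/
def V (j : RJob) : Finset Slot := F.slots.filter (fun s => F.tm s ∈ S.U j)

theorem mem_V {j : RJob} {s : Slot} : s ∈ S.V j ↔ F.valid s ∧ F.tm s ∈ S.U j := by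
  unfold V; rw [mem_filter, Frame.mem_slots]

theorem jd_le {j : RJob} (hj : F.good j) : F.jd j ≤ F.bt (F.K + F.m) := by
  have hm := F.hm
  rcases j with ⟨β, z, i⟩ | ⟨β, z, i⟩ | ⟨k, x, y⟩
  · obtain ⟨h1, h2, h3⟩ := hj
    have h4 := F.h2 β h1
    have h5 := Frame.bt_mono (F := F) (a := β + 1) (b := F.K + F.m) (by omega)
    have h6 := Frame.mul_lt_aux (c := F.m + 2) h2
    rw [Frame.bt_fst h1] at h5
    simp only [Frame.jd]
    omega
  · obtain ⟨h1, h2, h3⟩ := hj
    have h4 := F.h2 β h1
    have h5 := Frame.bt_mono (F := F) (a := β + 1) (b := F.K + F.m) (by omega)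
    have h6 := Frame.mul_lt_aux (c := F.m + 2) h2
    rw [Frame.bt_fst h1] at h5
    simp only [Frame.jd]
    omega
  · obtain ⟨h1, h2, h3, h4, h5, h6⟩ := hj
    have h7 : F.valid (.st (k + F.m - 1) y) := ⟨by omega, h5, h6⟩
    have h8 := (Frame.tm_mem h7).2
    have h9 := Frame.bt_mono (F := F) (a := F.sblk (.st (k + F.m - 1) y) + 1) (b := F.K + F.m) (by
      simp only [Frame.sblk]
      have := Frame.blk_le (F := F) (k + F.m - 1)
      omega)
    simp only [Frame.tm] at h8
    simp only [Frame.jd]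
    omega

theorem card_V {j : RJob} (hj : j ∈ S.O) : (S.V j).card = F.m := by
  rw [← S.hU j hj]
  have h1 : (S.V j).image F.tm = S.U j := by
    ext t
    rw [mem_image]
    constructor
    · rintro ⟨s, hs, rfl⟩
      exact (S.mem_V.mp hs).2
    · intro ht
      have h2 := S.hw j hj t ht
      obtain ⟨s, hs, hst⟩ := Frame.tm_surj (F := F) (F.K + F.m) le_rfl t
        (lt_of_lt_of_le h2.2 (jd_le (S.hg j hj)))
      exact ⟨s, S.mem_V.mpr ⟨hs, by rw [hst]; exact ht⟩, hst⟩
  rw [← h1, card_image_of_injOn]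
  intro a ha b hb hab
  exact Frame.tm_inj (S.mem_V.mp ha).1 (S.mem_V.mp hb).1 hab

theorem V_window {j : RJob} (hj : j ∈ S.O) {s : Slot} (hs : s ∈ S.V j) :
    F.jr j ≤ F.tm s ∧ F.tm s < F.jd j := S.hw j hj _ (S.mem_V.mp hs).2

theorem V_tight {β z i : ℕ} (hj : RJob.tight β z i ∈ S.O) :
    S.V (.tight β z i) = (range F.m).image (fun i => Slot.bd β z i) := by
  have hsub : S.V (.tight β z i) ⊆ (range F.m).image (fun i => Slot.bd β z i) := by
    intro s hs
    obtain ⟨h1, h2, h3⟩ := S.hg _ hj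
    obtain ⟨h4, h5⟩ := S.V_window hj hs
    simp only [Frame.jr, Frame.jd] at h4 h5
    rcases Frame.zone_slot h1 h2 (S.mem_V.mp hs).1 h4 (by omega) with ⟨i', h6, rfl⟩ | rfl | rfl
    · exact mem_image.mpr ⟨i', mem_range.mpr h6, rfl⟩
    · simp only [Frame.tm, Frame.sti_fst h1] at h5; omega
    · simp only [Frame.tm, Frame.sti_snd h1] at h5; omega
  apply Finset.eq_of_subset_of_card_le hsub
  rw [S.card_V hj]
  exact le_trans card_image_le (by simp)

theorem V_loose {β z i : ℕ} (hj : RJob.loose β z i ∈ S.O) :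
    ∀ s ∈ S.V (.loose β z i), (∃ i, i < F.m ∧ s = .bd β z i) ∨ s = .st β z ∨
      s = .st (β + 1) z := by
  intro s hs
  obtain ⟨h1, h2, h3⟩ := S.hg _ hj
  obtain ⟨h4, h5⟩ := S.V_window hj hs
  simp only [Frame.jr, Frame.jd] at h4 h5
  exact Frame.zone_slot h1 h2 (S.mem_V.mp hs).1 h4 h5

theorem ext_valid {k x y : ℕ} (hj : F.good (.ext k x y)) :
    F.valid (.st k x) ∧ F.valid (.st (k + F.m - 1) y) := by
  have hm := F.hm
  obtain ⟨h1, h2, h3, h4, h5, h6⟩ := hj
  exact ⟨⟨by omega, h3, h4⟩, ⟨by omega, h5, h6⟩⟩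

theorem V_ext {k x y : ℕ} (hj : RJob.ext k x y ∈ S.O) {ν z : ℕ}
    (hs : Slot.st ν z ∈ S.V (.ext k x y)) :
    F.sle (k, x) (ν, z) ∧ F.sle (ν, z) (k + F.m - 1, y) := by
  obtain ⟨h1, h2⟩ := ext_valid (S.hg _ hj)
  obtain ⟨h4, h5⟩ := S.V_window hj hs
  have h6 := (S.mem_V.mp hs).1
  simp only [Frame.jr, Frame.jd, Frame.tm] at h4 h5
  exact ⟨Frame.sle_of_le (a := (k, x)) (b := (ν, z)) h1 h6 h4,
    Frame.sle_of_le (a := (ν, z)) (b := (k + F.m - 1, y)) h6 h2
      (by show F.sti ν z ≤ F.sti (k + F.m - 1) y; omega)⟩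

/-- Sum of the prices used by a job. -/
def P (j : RJob) : ℕ := ∑ s ∈ S.V j, F.pr s

theorem P_tight {β z i : ℕ} (hj : RJob.tight β z i ∈ S.O) : S.P (.tight β z i) = 2 * F.m := by
  unfold P
  rw [S.V_tight hj, sum_image (fun a _ b _ h => by simpa using h)]
  simp [Frame.pr, mul_comm]

/-- number of body slots of a zone used by a job -/
def nb (β z : ℕ) (j : RJob) : ℕ :=
  ((range F.m).filter (fun i => Slot.bd β z i ∈ S.V j)).card

theorem nb_eq (β z : ℕ) (j : RJob) : S.nb β z j =
    ((S.V j).filter (fun s => ∃ i, i < F.m ∧ s = Slot.bd β z i)).card := by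
  unfold nb
  refine Finset.card_bij (fun i _ => Slot.bd β z i) ?_ ?_ ?_
  · intro i hi
    obtain ⟨h1, h2⟩ := mem_filter.mp hi
    exact mem_filter.mpr ⟨h2, i, mem_range.mp h1, rfl⟩
  · intro a _ b _ h
    simpa using h
  · intro s hs
    obtain ⟨h1, i, h2, rfl⟩ := mem_filter.mp hs
    exact ⟨i, mem_filter.mpr ⟨mem_range.mpr h2, h1⟩, rfl⟩

theorem P_loose {β z i : ℕ} (hj : RJob.loose β z i ∈ S.O) :
    2 * F.m - 2 ≤ S.P (.loose β z i) ∧ (S.P (.loose β z i) = 2 * F.m - 2 →
      Slot.st β z ∈ S.V (.loose β z i) ∧ Slot.st (β + 1) z ∈ S.V (.loose β z i) ∧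
      S.nb β z (.loose β z i) = F.m - 2) := by
  obtain ⟨h1, h2, h3⟩ := S.hg _ hj
  have hm3 := F.h3 β h1
  have hK := F.h2 β h1
  set V := S.V (.loose β z i) with hV
  have hc := S.card_V hj
  have hnb := S.nb_eq β z (.loose β z i)
  rw [← hV] at hc hnb
  have hsplit := card_filter_add_card_filter_not (s := V)
    (fun s => ∃ i, i < F.m ∧ s = Slot.bd β z i)
  set B := V.filter (fun s => ∃ i, i < F.m ∧ s = Slot.bd β z i) with hB
  set T := V.filter (fun s => ¬ ∃ i, i < F.m ∧ s = Slot.bd β z i) with hT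
  have hTsub : T ⊆ {Slot.st β z, Slot.st (β + 1) z} := by
    intro s hs
    obtain ⟨h4, h5⟩ := mem_filter.mp hs
    rcases S.V_loose hj s h4 with h | rfl | rfl
    · exact absurd h h5
    · simp
    · simp
  have hT2 : T.card ≤ 2 := le_trans (card_le_card hTsub) Finset.card_le_two
  have hP : S.P (.loose β z i) = B.card * 2 + T.card := by
    unfold P
    rw [← hV, ← Finset.sum_filter_add_sum_filter_not V
      (fun s => ∃ i, i < F.m ∧ s = Slot.bd β z i)]
    congr 1
    · rw [sum_congr rfl (g := fun _ => 2)]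
      · simp [hB]
      · intro s hs
        obtain ⟨_, i', _, rfl⟩ := mem_filter.mp hs
        rfl
    · rw [sum_congr rfl (g := fun _ => 1)]
      · simp [hT]
      · intro s hs
        have h4 := hTsub hs
        simp only [mem_insert, mem_singleton] at h4
        rcases h4 with rfl | rfl
        · simp only [Frame.pr]; rw [if_pos (by omega)]
        · simp only [Frame.pr]; rw [if_pos (by omega)]
  constructor
  · omega
  · intro h4
    have h5 : T.card = 2 := by omega
    have h6 : T = {Slot.st β z, Slot.st (β + 1) z} := by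
      apply Finset.eq_of_subset_of_card_le hTsub
      rw [h5]
      exact Finset.card_le_two
    refine ⟨?_, ?_, by omega⟩
    · have : Slot.st β z ∈ T := by rw [h6]; simp
      exact (mem_filter.mp this).1
    · have : Slot.st (β + 1) z ∈ T := by rw [h6]; simp
      exact (mem_filter.mp this).1

theorem P_ext {k x y : ℕ} (hj : RJob.ext k x y ∈ S.O) :
    F.bE k ≤ S.P (.ext k x y) ∧ (S.P (.ext k x y) = F.bE k →
      ∀ β z i, Slot.bd β z i ∉ S.V (.ext k x y)) := by
  classical
  obtain ⟨h1, h2, h3, h4, h5, h6⟩ := S.hg _ hj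
  have hm := F.hm
  set V := S.V (.ext k x y) with hV
  have hc := S.card_V hj
  rw [← hV] at hc
  have hsplit := card_filter_add_card_filter_not (s := V) (fun s => F.pr s = 0)
  rw [hc] at hsplit
  set Z := V.filter (fun s => F.pr s = 0) with hZ
  have hZsub : Z ⊆ (Ico k F.m ∪ Ico F.K (k + F.m)).image (fun ν => Slot.st ν 0) := by
    intro s hs
    obtain ⟨h7, h8⟩ := mem_filter.mp hs
    have hval := (S.mem_V.mp h7).1
    rcases s with ⟨ν, z⟩ | ⟨β, z, i⟩
    · simp only [Frame.pr] at h8
      have h9 : ν < F.m ∨ F.K ≤ ν := by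
        by_contra h
        rw [if_pos (by omega)] at h8
        cases h8
      have hr : F.reg ν = false := by
        by_contra h
        have := Frame.reg_lt (F := F) (ν := ν) (by simpa using h)
        omega
      have hz := hval.2.2 hr
      obtain ⟨h10, h11⟩ := S.V_ext hj h7
      unfold Frame.sle at h10 h11
      simp only [Frame.blk_not_reg hr] at h10 h11
      have h12 : F.blk k ≤ ν := by rcases h10 with h | h <;> omega
      have h13 : ν ≤ F.blk (k + F.m - 1) := by rcases h11 with h | h <;> omega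
      have h14 := Frame.blk_le (F := F) (k + F.m - 1)
      refine mem_image.mpr ⟨ν, ?_, by rw [hz]⟩
      rw [mem_union, mem_Ico, mem_Ico]
      rcases h9 with h9 | h9
      · left
        refine ⟨?_, h9⟩
        by_cases hrk : F.reg k = true
        · have := F.h2 _ (Frame.fst_blk hrk)
          omega
        · rw [Frame.blk_not_reg (by simpa using hrk)] at h12
          exact h12
      · right; omega
    · simp [Frame.pr] at h8
  have hZc : Z.card ≤ (F.m - k) + (k + F.m - F.K) := by
    refine le_trans (card_le_card hZsub) (le_trans card_image_le (le_trans (card_union_le _ _) ?_))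
    rw [Nat.card_Ico, Nat.card_Ico]
  set D := V.filter (fun s => ¬ F.pr s = 0) with hD
  have hP : ∑ s ∈ D, F.pr s = S.P (.ext k x y) := by
    unfold P
    rw [← hV, ← Finset.sum_filter_add_sum_filter_not V (fun s => F.pr s = 0)]
    rw [Finset.sum_eq_zero (s := V.filter (fun s => F.pr s = 0)) (fun s hs => (mem_filter.mp hs).2)]
    rw [zero_add]
  have hge : ∀ s ∈ D, 1 ≤ F.pr s := fun s hs => Nat.pos_of_ne_zero (mem_filter.mp hs).2
  have hPD : D.card ≤ S.P (.ext k x y) := by
    rw [← hP]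
    calc D.card = ∑ s ∈ D, 1 := by simp
      _ ≤ _ := Finset.sum_le_sum hge
  unfold Frame.bE
  constructor
  · omega
  · intro h7 β z i hs
    have hsD : Slot.bd β z i ∈ D := mem_filter.mpr ⟨hs, by simp [Frame.pr]⟩
    have h8 : D.card < S.P (.ext k x y) := by
      rw [← hP]
      calc D.card = ∑ s ∈ D, 1 := by simp
        _ < _ := Finset.sum_lt_sum hge ⟨_, hsD, by simp [Frame.pr]⟩
    omega

theorem P_ge {j : RJob} (hj : j ∈ S.O) : F.jb j ≤ S.P j := by
  rcases j with ⟨β, z, i⟩ | ⟨β, z, i⟩ | ⟨k, x, y⟩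
  · rw [S.P_tight hj]; rfl
  · exact (S.P_loose hj).1
  · exact (S.P_ext hj).1

/-- users of a slot -/
def us (s : Slot) : Finset RJob := S.O.filter (fun j => s ∈ S.V j)

theorem us_le {s : Slot} : (S.us s).card ≤ F.m := by
  refine le_trans (card_le_card ?_) (S.hcap (F.tm s))
  intro j hj
  obtain ⟨h1, h2⟩ := mem_filter.mp hj
  exact mem_filter.mpr ⟨h1, (S.mem_V.mp h2).2⟩

theorem sum_P : ∑ j ∈ S.O, S.P j = ∑ s ∈ F.slots, F.pr s * (S.us s).card := by
  have h1 : ∀ j ∈ S.O, S.P j = ∑ s ∈ F.slots, if s ∈ S.V j then F.pr s else 0 := by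
    intro j _
    unfold P
    rw [← Finset.sum_filter]
    refine sum_congr ?_ fun _ _ => rfl
    ext s
    rw [mem_filter, Frame.mem_slots]
    exact ⟨fun h => ⟨(S.mem_V.mp h).1, h⟩, fun h => h.2⟩
  rw [sum_congr rfl h1, sum_comm]
  refine sum_congr rfl fun s _ => ?_
  unfold us
  rw [← Finset.sum_filter, sum_const, smul_eq_mul, mul_comm]

theorem sum_P_le : ∑ j ∈ S.O, S.P j ≤ F.m * F.PS := by
  rw [S.sum_P, ← Frame.sum_slots, mul_sum]
  refine Finset.sum_le_sum fun s _ => ?_
  rw [mul_comm]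
  exact Nat.mul_le_mul_right _ S.us_le

/-- Exactness. -/
theorem exact (h : F.m * F.PS ≤ ∑ j ∈ S.O, F.jb j) :
    (∀ s, F.valid s → F.pr s ≠ 0 → (S.us s).card = F.m) ∧ ∀ j ∈ S.O, S.P j = F.jb j := by
  have h1 : ∑ j ∈ S.O, F.jb j ≤ ∑ j ∈ S.O, S.P j := Finset.sum_le_sum fun j hj => S.P_ge hj
  have h2 := S.sum_P_le
  have h3 : ∑ j ∈ S.O, F.jb j = ∑ j ∈ S.O, S.P j := by omega
  have h4 : ∑ j ∈ S.O, S.P j = F.m * F.PS := by omega
  constructor
  · rw [S.sum_P, ← Frame.sum_slots, mul_sum] at h4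
    have h5 := (Finset.sum_eq_sum_iff_of_le (s := F.slots)
      (f := fun s => F.pr s * (S.us s).card) (g := fun s => F.m * F.pr s) (fun s _ => by
        rw [mul_comm]
        exact Nat.mul_le_mul_right _ S.us_le)).mp h4
    intro s hs hp
    have h6 := h5 s (Frame.mem_slots.mpr hs)
    rw [mul_comm] at h6
    exact Nat.eq_of_mul_eq_mul_right (Nat.pos_of_ne_zero hp) h6
  · intro j hj
    exact ((Finset.sum_eq_sum_iff_of_le (fun j hj => S.P_ge hj)).mp h3 j hj).symm

end Sol

end Pool.Agent.OpenShop
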