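import Mathlib
import Pool.Agent.OpenShop.Exact

/-!
# Zones are full or holes; soundness
-/

namespace Pool.Agent.OpenShop

open Finset

namespace Frame

variable {F : Frame}

theorem bE_pos {k : ℕ} (h1 : 1 ≤ k) (h2 : k < F.K) : 1 ≤ F.bE k := by
  have := F.hm
  have := F.hK
  unfold bE
  omega

theorem jb_pos {j : RJob} (hj : F.good j) : 1 ≤ F.jb j := by
  have hm := F.hm
  rcases j with ⟨β, z, i⟩ | ⟨β, z, i⟩ | ⟨k, x, y⟩
  · simp only [jb]; omega
  · have := F.h3 β hj.1
    simp only [jb]; omega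
  · exact bE_pos hj.1 hj.2.1

theorem M0_ge : 2 * 2 ^ (F.W * (F.K - 1)) ≤ F.M0 := by
  have hK := F.hK
  have hm := F.hm
  have := pow_step (F := F) 0 (by omega)
  unfold M0
  simpa using this

theorem e_le {k x : ℕ} (h1 : 1 ≤ k) (h2 : k < F.K) : F.e k x ≤ F.W * (F.K - 1) := by
  have hW : 2 * (F.N - 1 - x) + 1 ≤ F.W := by unfold W; omega
  unfold e
  split_ifs with h3 h4
  · have h5 := F.h2 k h3
    calc F.W * (F.K - k - 1) + 2 * (F.N - 1 - x) + 1 ≤ F.W * (F.K - k - 1) + F.W := by omega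
      _ = F.W * (F.K - k - 1 + 1) := by ring
      _ ≤ _ := Nat.mul_le_mul_left _ (by omega)
  · rcases k with _ | k
    · omega
    · rw [snd_succ] at h4
      have h5 := F.h2 k h4
      have hm := F.hm
      calc F.W * (F.K - (k + 1)) + 2 * (F.N - 1 - x) ≤ F.W * (F.K - (k + 1)) + F.W := by omega
        _ = F.W * (F.K - (k + 1) + 1) := by ring
        _ ≤ _ := Nat.mul_le_mul_left _ (by omega)
  · exact Nat.mul_le_mul_left _ (by omega)

theorem jc_le {j : RJob} (hj : F.good j) : F.jc j ≤ F.M0 := by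
  have hK := F.hK
  have hm := F.hm
  have h0 := M0_ge (F := F)
  rcases j with ⟨β, z, i⟩ | ⟨β, z, i⟩ | ⟨k, x, y⟩
  · simp only [jc]
    split_ifs
    · unfold dl
      have h1 := F.h2 β hj.1
      have : 2 ^ (F.W * (F.K - β)) ≤ F.M0 := by
        unfold M0
        exact Nat.pow_le_pow_right (by norm_num) (Nat.mul_le_mul_left _ (by omega))
      exact le_trans (le_trans (Nat.sub_le _ _) (le_trans (Nat.sub_le _ _) (Nat.sub_le _ _))) this
    · exact Nat.zero_le _
  · exact Nat.zero_le _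
  · obtain ⟨h1, h2, h3, h4, h5, h6⟩ := hj
    simp only [jc]
    have h7 : 2 ^ F.e k x ≤ 2 ^ (F.W * (F.K - 1)) :=
      Nat.pow_le_pow_right (by norm_num) (e_le h1 h2)
    have h8 : F.cc (k, x, y) ≤ 2 ^ (F.W * (F.K - 1)) := by
      unfold cc
      split_ifs with h9
      · have h10 := h5 h9
        simp only
        apply Nat.pow_le_pow_right (by norm_num)
        have : F.W * 1 ≤ F.W * (F.K - 1) := Nat.mul_le_mul_left _ (by omega)
        unfold W at *
        omega
      · exact Nat.zero_le _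
    generalize 2 ^ F.e k x = X at *
    generalize 2 ^ (F.W * (F.K - 1)) = Y at *
    omega

theorem jw_add {j : RJob} (hj : F.good j) : F.jw j + F.jc j = F.M0 * F.jb j := by
  unfold jw
  apply Nat.sub_add_cancel
  calc F.jc j ≤ F.M0 := jc_le hj
    _ = F.M0 * 1 := by ring
    _ ≤ _ := Nat.mul_le_mul_left _ (jb_pos hj)

theorem Q_lt : F.Q < F.M0 := by
  have hK := F.hK
  have hm := F.hm
  have h1 := R_lt (F := F) 1 (by omega)
  have h2 := M0_ge (F := F)
  have h3 : F.Q = F.R 1 := rfl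
  omega

end Frame

namespace Sol

variable {F : Frame} (S : Sol F)

/-- external jobs as triples -/
def E : Finset (ℕ × ℕ × ℕ) := S.O.biUnion (fun j => match j with
  | .ext k x y => {(k, x, y)}
  | _ => ∅)

theorem mem_E {k x y : ℕ} : (k, x, y) ∈ S.E ↔ RJob.ext k x y ∈ S.O := by
  unfold E
  rw [mem_biUnion]
  constructor
  · rintro ⟨j, hj, hm⟩
    rcases j with ⟨β, z, i⟩ | ⟨β, z, i⟩ | ⟨k', x', y'⟩
    · simp at hm
    · simp at hm
    · simp only [mem_singleton, Prod.mk.injEq] at hm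
      obtain ⟨rfl, rfl, rfl⟩ := hm
      exact hj
  · intro h
    exact ⟨_, h, by simp⟩

/-- sites used by external jobs -/
def VE (j : ℕ × ℕ × ℕ) : Finset (ℕ × ℕ) :=
  (range (F.K + F.m) ×ˢ range (F.N + 1)).filter
    (fun p => Slot.st p.1 p.2 ∈ S.V (.ext j.1 j.2.1 j.2.2))

theorem mem_VE {j : ℕ × ℕ × ℕ} {ν z : ℕ} :
    (ν, z) ∈ S.VE j ↔ Slot.st ν z ∈ S.V (.ext j.1 j.2.1 j.2.2) := by
  unfold VE
  rw [mem_filter, mem_product, mem_range, mem_range]
  constructor
  · exact fun h => h.2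
  · intro h
    obtain ⟨h1, h2, h3⟩ := (S.mem_V.mp h).1
    refine ⟨⟨h1, ?_⟩, h⟩
    by_cases hr : F.reg ν = true
    · have := h2 hr; simp only; omega
    · rw [h3 (by simpa using hr)]; simp

/-- zone `z` of the region `β` is a hole -/
def hole (β z : ℕ) : Bool := decide (∀ i < F.m, RJob.loose β z i ∉ S.O)

section Exactness

variable (hodd : F.m % 2 = 1) (hfull : ∀ s, F.valid s → F.pr s ≠ 0 → (S.us s).card = F.m)
  (hP : ∀ j ∈ S.O, S.P j = F.jb j)

include hP in
theorem nb_val {β z : ℕ} {j : RJob} (hj : j ∈ S.O) : S.nb β z j =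
    (if j ∈ (range F.m).image (fun i => RJob.tight β z i) then F.m else 0) +
    (if j ∈ (range F.m).image (fun i => RJob.loose β z i) then F.m - 2 else 0) := by
  have hg := S.hg j hj
  rcases j with ⟨β', z', i'⟩ | ⟨β', z', i'⟩ | ⟨k, x, y⟩
  · have h2 : RJob.tight β' z' i' ∉ (range F.m).image (fun i => RJob.loose β z i) := by
      simp
    rw [if_neg h2, add_zero]
    unfold nb
    rw [S.V_tight hj]
    by_cases h : β' = β ∧ z' = z
    · obtain ⟨rfl, rfl⟩ := h
      rw [if_pos (mem_image.mpr ⟨i', mem_range.mpr hg.2.2, rfl⟩)]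
      rw [Finset.filter_true_of_mem]
      · simp
      · intro i hi
        exact mem_image.mpr ⟨i, hi, rfl⟩
    · rw [if_neg, Finset.filter_false_of_mem]
      · simp
      · intro i hi h'
        obtain ⟨i2, _, h3⟩ := mem_image.mp h'
        simp only [Slot.bd.injEq] at h3
        exact h ⟨h3.1, h3.2.1⟩
      · intro h'
        obtain ⟨i2, _, h3⟩ := mem_image.mp h'
        simp only [RJob.tight.injEq] at h3
        exact h ⟨h3.1.symm, h3.2.1.symm⟩
  · have h2 : RJob.loose β' z' i' ∉ (range F.m).image (fun i => RJob.tight β z i) := by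
      simp
    rw [if_neg h2, zero_add]
    by_cases h : β' = β ∧ z' = z
    · obtain ⟨rfl, rfl⟩ := h
      rw [if_pos (mem_image.mpr ⟨i', mem_range.mpr hg.2.2, rfl⟩)]
      exact ((S.P_loose hj).2 (hP _ hj)).2.2
    · rw [if_neg]
      · unfold nb
        rw [Finset.filter_false_of_mem]
        · simp
        · intro i hi h'
          rcases S.V_loose hj _ h' with ⟨i2, _, h3⟩ | h3 | h3
          · simp only [Slot.bd.injEq] at h3
            exact h ⟨h3.1.symm, h3.2.1.symm⟩
          · cases h3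
          · cases h3
      · intro h'
        obtain ⟨i2, _, h3⟩ := mem_image.mp h'
        simp only [RJob.loose.injEq] at h3
        exact h ⟨h3.1.symm, h3.2.1.symm⟩
  · rw [if_neg (by simp), if_neg (by simp)]
    unfold nb
    rw [Finset.filter_false_of_mem]
    · simp
    · intro i _
      exact (S.P_ext hj).2 (hP _ hj) _ _ _

include hfull hP in
theorem zone_count {β z : ℕ} (hf : F.fst β = true) (hz : z < F.N) :
    F.m * F.m =
      F.m * (S.O.filter (fun j => j ∈ (range F.m).image (fun i => RJob.tight β z i))).card +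
      (F.m - 2) * (S.O.filter (fun j => j ∈ (range F.m).image (fun i => RJob.loose β z i))).card := by
  have h1 : ∑ i ∈ range F.m, (S.us (.bd β z i)).card = F.m * F.m := by
    rw [sum_congr rfl (g := fun _ => F.m)]
    · simp
    · intro i hi
      exact hfull _ ⟨hf, hz, mem_range.mp hi⟩ (by simp [Frame.pr])
  have h2 : ∑ i ∈ range F.m, (S.us (.bd β z i)).card = ∑ j ∈ S.O, S.nb β z j := by
    unfold us nb
    exact Finset.sum_card_bipartiteAbove_eq_sum_card_bipartiteBelow
      (fun (i : ℕ) (j : RJob) => Slot.bd β z i ∈ S.V j)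
  rw [← h1, h2, sum_congr rfl (fun j hj => S.nb_val hP (β := β) (z := z) hj), sum_add_distrib,
    ← sum_filter, ← sum_filter, sum_const, sum_const, smul_eq_mul, smul_eq_mul, mul_comm,
    mul_comm (F.m - 2)]

include hodd hfull hP in
theorem zone_cases {β z : ℕ} (hf : F.fst β = true) (hz : z < F.N) :
    (S.hole β z = true ∧ ∀ i < F.m, RJob.tight β z i ∈ S.O) ∨
    (S.hole β z = false ∧ ∀ i < F.m, RJob.loose β z i ∈ S.O) := by
  have hm3 := F.h3 β hf
  have hc := S.zone_count hfull hP hf hz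
  set T := (range F.m).image (fun i => RJob.tight β z i) with hT
  set L := (range F.m).image (fun i => RJob.loose β z i) with hL
  have hTc : T.card = F.m := by
    rw [hT, card_image_of_injective _ (fun a b h => by simpa using h), card_range]
  have hLc : L.card = F.m := by
    rw [hL, card_image_of_injective _ (fun a b h => by simpa using h), card_range]
  have hT1 : S.O.filter (fun j => j ∈ T) ⊆ T := fun j hj => (mem_filter.mp hj).2
  have hL1 : S.O.filter (fun j => j ∈ L) ⊆ L := fun j hj => (mem_filter.mp hj).2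
  have ht := card_le_card hT1
  have hu := card_le_card hL1
  set t := (S.O.filter (fun j => j ∈ T)).card with ht'
  set u := (S.O.filter (fun j => j ∈ L)).card with hu'
  have hdvd : F.m ∣ u := by
    have h1 : F.m ∣ (F.m - 2) * u := by
      have h2 : F.m ∣ F.m * t + (F.m - 2) * u := by rw [← hc]; exact dvd_mul_left _ _
      exact (Nat.dvd_add_right (dvd_mul_right _ _)).mp h2
    refine Nat.Coprime.dvd_of_dvd_mul_left ?_ h1
    have h3 : Nat.Coprime F.m 2 := (Nat.odd_iff.mpr hodd).coprime_two_right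
    have h4 : F.m = 2 + (F.m - 2) := by omega
    rw [Nat.coprime_comm]
    have h5 : Nat.Coprime (F.m - 2) 2 := by
      rw [Nat.coprime_two_right]
      rw [Nat.odd_iff]; omega
    rw [h4]
    simp only [Nat.add_sub_cancel_left, Nat.coprime_add_self_right]
    exact h5
  rcases Nat.eq_zero_or_pos u with h0 | h0
  · left
    constructor
    · unfold hole
      rw [decide_eq_true_eq]
      intro i hi hmem
      have : RJob.loose β z i ∈ S.O.filter (fun j => j ∈ L) :=
        mem_filter.mpr ⟨hmem, mem_image.mpr ⟨i, mem_range.mpr hi, rfl⟩⟩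
      rw [Finset.card_eq_zero.mp h0] at this
      simp at this
    · rw [h0, mul_zero, add_zero] at hc
      have h1 : t = F.m := (Nat.eq_of_mul_eq_mul_left (by omega) hc).symm
      have h2 : S.O.filter (fun j => j ∈ T) = T := Finset.eq_of_subset_of_card_le hT1 (by omega)
      intro i hi
      have : RJob.tight β z i ∈ T := mem_image.mpr ⟨i, mem_range.mpr hi, rfl⟩
      rw [← h2] at this
      exact (mem_filter.mp this).1
  · right
    have h1 : u = F.m := by
      have := Nat.le_of_dvd h0 hdvd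
      omega
    have h2 : S.O.filter (fun j => j ∈ L) = L := Finset.eq_of_subset_of_card_le hL1 (by omega)
    have h3 : ∀ i < F.m, RJob.loose β z i ∈ S.O := by
      intro i hi
      have : RJob.loose β z i ∈ L := mem_image.mpr ⟨i, mem_range.mpr hi, rfl⟩
      rw [← h2] at this
      exact (mem_filter.mp this).1
    refine ⟨?_, h3⟩
    unfold hole
    rw [decide_eq_false_iff_not]
    intro h4
    exact h4 0 (by omega) (h3 0 (by omega))

include hodd hfull hP in
/-- A site used by an external job is in a hole. -/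
theorem ext_hole {k x y ν z : ℕ} (hj : RJob.ext k x y ∈ S.O)
    (hs : Slot.st ν z ∈ S.V (.ext k x y)) (hr : F.reg ν = true) :
    z < F.N ∧ S.hole (F.blk ν) z = true := by
  have hval := (S.mem_V.mp hs).1
  have hz := hval.2.1 hr
  have hf := Frame.fst_blk hr
  refine ⟨hz, ?_⟩
  rcases S.zone_cases hodd hfull hP hf hz with h | ⟨_, h⟩
  · exact h.1
  · exfalso
    set L := (range F.m).image (fun i => RJob.loose (F.blk ν) z i) with hL
    have hLc : L.card = F.m := by
      rw [hL, card_image_of_injective _ (fun a b h => by simpa using h), card_range]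
    have hsub : insert (RJob.ext k x y) L ⊆ S.us (.st ν z) := by
      intro j hj'
      rcases mem_insert.mp hj' with rfl | hj'
      · exact mem_filter.mpr ⟨hj, hs⟩
      · obtain ⟨i, hi, rfl⟩ := mem_image.mp hj'
        have h1 := h i (mem_range.mp hi)
        have h2 := (S.P_loose h1).2 (hP _ h1)
        refine mem_filter.mpr ⟨h1, ?_⟩
        rcases Frame.reg_cases hr with ⟨h3, h4⟩ | ⟨β, rfl, h3, h4⟩
        · rw [h4] at h2 ⊢
          exact h2.1
        · rw [h4] at h2 ⊢
          exact h2.2.1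
    have h5 := card_le_card hsub
    rw [card_insert_of_notMem (by rw [hL]; simp), hLc] at h5
    have h6 := S.us_le (s := .st ν z)
    omega

theorem card_ext_users {ν z : ℕ}
    (h : ∀ j ∈ S.us (.st ν z), ∃ k x y, j = RJob.ext k x y) :
    (S.E.filter (fun j => (ν, z) ∈ S.VE j)).card = (S.us (.st ν z)).card := by
  refine Finset.card_bij (fun j _ => RJob.ext j.1 j.2.1 j.2.2) ?_ ?_ ?_
  · intro j hj
    obtain ⟨h1, h2⟩ := mem_filter.mp hj
    exact mem_filter.mpr ⟨S.mem_E.mp h1, S.mem_VE.mp h2⟩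
  · intro a _ b _ hab
    simp only [RJob.ext.injEq] at hab
    exact Prod.ext hab.1 (Prod.ext hab.2.1 hab.2.2)
  · intro j hj
    obtain ⟨k, x, y, rfl⟩ := h j hj
    obtain ⟨h1, h2⟩ := mem_filter.mp hj
    exact ⟨(k, x, y), mem_filter.mpr ⟨S.mem_E.mpr h1, S.mem_VE.mpr h2⟩, rfl⟩

end Exactness

theorem conf_cost (hodd : F.m % 2 = 1)
    (hfull : ∀ s, F.valid s → F.pr s ≠ 0 → (S.us s).card = F.m)
    (hP : ∀ j ∈ S.O, S.P j = F.jb j) : (∑ ν ∈ range F.K, if F.fst ν = true then
      ∑ z ∈ range F.N, (if S.hole ν z = true then F.dl ν z else 0) else 0) +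
      ∑ j ∈ S.E, (2 ^ F.e j.1 j.2.1 + F.cc j) ≤ ∑ j ∈ S.O, F.jc j := by
  set A := ((range F.K ×ˢ range F.N).filter
    (fun p => F.fst p.1 = true ∧ S.hole p.1 p.2 = true)).image
    (fun p => RJob.tight p.1 p.2 0) with hA
  set B := S.E.image (fun j => RJob.ext j.1 j.2.1 j.2.2) with hB
  have hAB : Disjoint A B := by
    rw [Finset.disjoint_left]
    intro j hj hj'
    obtain ⟨_, _, rfl⟩ := mem_image.mp hj
    obtain ⟨_, _, h⟩ := mem_image.mp hj'
    cases h
  have hsub : A ∪ B ⊆ S.O := by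
    intro j hj
    rcases mem_union.mp hj with hj | hj
    · obtain ⟨⟨β, z⟩, h1, rfl⟩ := mem_image.mp hj
      obtain ⟨h2, h3, h4⟩ := mem_filter.mp h1
      rw [mem_product, mem_range, mem_range] at h2
      have hm3 := F.h3 β h3
      rcases S.zone_cases hodd hfull hP h3 h2.2 with ⟨_, h⟩ | ⟨h, _⟩
      · exact h 0 (by omega)
      · simp only at h4 h; rw [h] at h4; cases h4
    · obtain ⟨⟨k, x, y⟩, h1, rfl⟩ := mem_image.mp hj
      exact S.mem_E.mp h1
  refine le_trans (le_of_eq ?_) (Finset.sum_le_sum_of_subset hsub)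
  rw [sum_union hAB]
  congr 1
  · rw [hA, sum_image]
    · rw [sum_filter, sum_product]
      refine sum_congr rfl fun β _ => ?_
      split_ifs with hf
      · refine sum_congr rfl fun z _ => ?_
        by_cases hh : S.hole β z = true
        · simp [hh, hf, Frame.jc]
        · simp [hh, hf]
      · symm
        refine Finset.sum_eq_zero fun z _ => ?_
        simp [hf]
    · intro a _ b _ hab
      simp only [RJob.tight.injEq] at hab
      exact Prod.ext hab.1 hab.2.1
  · rw [hB, sum_image]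
    · rfl
    · intro a _ b _ hab
      simp only [RJob.ext.injEq] at hab
      exact Prod.ext hab.1 (Prod.ext hab.2.1 hab.2.2)

/-- The configuration of the external jobs. -/
def conf (hodd : F.m % 2 = 1) (hfull : ∀ s, F.valid s → F.pr s ≠ 0 → (S.us s).card = F.m)
    (hP : ∀ j ∈ S.O, S.P j = F.jb j) (hcost : ∑ j ∈ S.O, F.jc j ≤ F.Q) : Conf F where
  E := S.E
  V := S.VE
  hole := S.hole
  hk := by
    rintro ⟨k, x, y⟩ hj
    have := S.hg _ (S.mem_E.mp hj)
    exact ⟨this.1, this.2.1⟩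
  hx := by
    rintro ⟨k, x, y⟩ hj
    exact (S.hg _ (S.mem_E.mp hj)).2.2.1
  hx0 := by
    rintro ⟨k, x, y⟩ hj
    exact (S.hg _ (S.mem_E.mp hj)).2.2.2.1
  hy := by
    rintro ⟨k, x, y⟩ hj
    exact (S.hg _ (S.mem_E.mp hj)).2.2.2.2.1
  hy0 := by
    rintro ⟨k, x, y⟩ hj
    exact (S.hg _ (S.mem_E.mp hj)).2.2.2.2.2
  hV := by
    rintro ⟨k, x, y⟩ hj
    have hj' := S.mem_E.mp hj
    rw [← S.card_V hj']
    refine Finset.card_bij (fun p _ => Slot.st p.1 p.2) ?_ ?_ ?_
    · intro p hp
      exact S.mem_VE.mp hp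
    · intro a _ b _ hab
      simp only [Slot.st.injEq] at hab
      exact Prod.ext hab.1 hab.2
    · intro s hs
      rcases s with ⟨ν, z⟩ | ⟨β, z, i⟩
      · exact ⟨(ν, z), S.mem_VE.mpr hs, rfl⟩
      · exact absurd hs ((S.P_ext hj').2 (hP _ hj') _ _ _)
  hl := by
    rintro ⟨k, x, y⟩ hj ⟨ν, z⟩ hs
    exact (S.V_ext (S.mem_E.mp hj) (S.mem_VE.mp hs)).1
  hr := by
    rintro ⟨k, x, y⟩ hj ⟨ν, z⟩ hs
    exact (S.V_ext (S.mem_E.mp hj) (S.mem_VE.mp hs)).2
  hs := by
    rintro ⟨k, x, y⟩ hj ⟨ν, z⟩ hs hr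
    exact S.ext_hole hodd hfull hP (S.mem_E.mp hj) (S.mem_VE.mp hs) hr
  hs0 := by
    rintro ⟨k, x, y⟩ hj ⟨ν, z⟩ hs hr
    exact (S.mem_V.mp (S.mem_VE.mp hs)).1.2.2 hr
  hT := by
    intro ν h1 h2 hr
    rw [S.card_ext_users]
    · refine hfull _ ⟨by omega, fun h => ?_, fun _ => rfl⟩ ?_
      · rw [h] at hr; cases hr
      · simp only [Frame.pr]; rw [if_pos ⟨h1, h2⟩]; exact one_ne_zero
    · intro j hj
      obtain ⟨h3, h4⟩ := mem_filter.mp hj
      rcases j with ⟨β', z', i'⟩ | ⟨β', z', i'⟩ | ⟨k, x, y⟩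
      · rw [S.V_tight h3] at h4
        obtain ⟨_, _, h5⟩ := mem_image.mp h4
        cases h5
      · have hf := (S.hg _ h3).1
        rcases S.V_loose h3 _ h4 with ⟨_, _, h5⟩ | h5 | h5
        · cases h5
        · simp only [Slot.st.injEq] at h5
          rw [h5.1, Frame.reg_fst hf] at hr; cases hr
        · simp only [Slot.st.injEq] at h5
          rw [h5.1, Frame.reg_succ hf] at hr; cases hr
      · exact ⟨k, x, y, rfl⟩
  hR := by
    intro ν z hr hz hh
    have hK := Frame.reg_lt hr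
    have hm := F.hm
    rw [S.card_ext_users]
    · refine hfull _ ⟨by omega, fun _ => hz, fun h => ?_⟩ ?_
      · rw [h] at hr; cases hr
      · simp only [Frame.pr]; rw [if_pos ⟨by omega, hK.2⟩]; exact one_ne_zero
    · intro j hj
      obtain ⟨h3, h4⟩ := mem_filter.mp hj
      rcases j with ⟨β', z', i'⟩ | ⟨β', z', i'⟩ | ⟨k, x, y⟩
      · rw [S.V_tight h3] at h4
        obtain ⟨_, _, h5⟩ := mem_image.mp h4
        cases h5
      · exfalso
        have hf := (S.hg _ h3).1
        have hi := (S.hg _ h3).2.2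
        have hh' : ∀ i < F.m, RJob.loose (F.blk ν) z i ∉ S.O := by
          unfold hole at hh
          exact of_decide_eq_true hh
        rcases S.V_loose h3 _ h4 with ⟨_, _, h5⟩ | h5 | h5
        · cases h5
        · simp only [Slot.st.injEq] at h5
          rw [h5.1, h5.2, Frame.blk_fst hf] at hh'
          exact hh' i' hi h3
        · simp only [Slot.st.injEq] at h5
          rw [h5.1, h5.2, Frame.blk_succ hf] at hh'
          exact hh' i' hi h3
      · exact ⟨k, x, y, rfl⟩
  hC := le_trans (S.conf_cost hodd hfull hP) hcost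


/-- Soundness: a selection of on-time jobs of the maximal possible weight comes from a choice of
zones. -/
theorem sound (hodd : F.m % 2 = 1)
    (hval : F.M0 * (F.m * F.PS) ≤ ∑ j ∈ S.O, F.jw j + F.Q) :
    ∑ j ∈ S.O, F.jw j + F.Q = F.M0 * (F.m * F.PS) ∧
    ∃ h : ℕ → ℕ, (∀ γ, F.fst γ = true → h γ < F.N ∧ h (γ + 1) = h γ) ∧
      (∀ ν, F.reg ν = false → h ν = 0) ∧
      ∀ k, 1 ≤ k → k < F.K → RJob.ext k (h k) (h (k + F.m - 1)) ∈ S.O := by
  have hsum : ∑ j ∈ S.O, F.jw j + ∑ j ∈ S.O, F.jc j = F.M0 * ∑ j ∈ S.O, F.jb j := by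
    rw [← sum_add_distrib, mul_sum]
    exact sum_congr rfl fun j hj => Frame.jw_add (S.hg j hj)
  have hQ := Frame.Q_lt (F := F)
  have h1 : F.m * F.PS ≤ ∑ j ∈ S.O, F.jb j := by
    by_contra hlt
    have h2 : F.M0 * (∑ j ∈ S.O, F.jb j + 1) ≤ F.M0 * (F.m * F.PS) :=
      Nat.mul_le_mul_left _ (by omega)
    rw [Nat.mul_add, mul_one] at h2
    omega
  have h2 : ∑ j ∈ S.O, F.jb j ≤ F.m * F.PS :=
    le_trans (Finset.sum_le_sum fun j hj => S.P_ge hj) S.sum_P_le
  have h3 : ∑ j ∈ S.O, F.jb j = F.m * F.PS := le_antisymm h2 h1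
  obtain ⟨hfull, hP⟩ := S.exact h1
  rw [h3] at hsum
  have hcost : ∑ j ∈ S.O, F.jc j ≤ F.Q := by omega
  obtain ⟨s1, s2, s3⟩ := (S.conf hodd hfull hP hcost).sweep
  have h4 := le_trans s3 (S.conf_cost hodd hfull hP)
  refine ⟨by omega, (S.conf hodd hfull hP hcost).h, fun γ hγ => ⟨s1 γ hγ, Conf.h_succ _ hγ⟩,
    fun ν hν => Conf.h_of_not_reg _ hν, fun k hk1 hk2 => S.mem_E.mp (s2 k hk1 hk2)⟩

end Sol

end Pool.Agent.OpenShop
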