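import Mathlib
import Pool.Agent.OpenShop.Zone

/-!
# Completeness: a choice of zones gives a schedule
-/

namespace Pool.Agent.OpenShop

open Finset

/-- A choice of zones. -/
structure Choice (F : Frame) where
  h : ℕ → ℕ
  hN : ∀ γ, F.fst γ = true → h γ < F.N
  hs : ∀ γ, F.fst γ = true → h (γ + 1) = h γ
  h0 : ∀ ν, F.reg ν = false → h ν = 0

namespace Choice

variable {F : Frame} (H : Choice F)

/-- Slot of a job on a machine. -/
def A : RJob → ℕ → Slot
  | .ext k _ _, μ => .st (k + μ) (H.h (k + μ))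
  | .tight β z i, μ => .bd β z ((μ + (F.m - i)) % F.m)
  | .loose β z i, μ => if (2 * μ) % F.m = (i + 1) % F.m then .st β z
      else if (2 * μ) % F.m = (i + 2) % F.m then .st (β + 1) z
      else .bd β z ((i + (F.m - μ)) % F.m)

/-- The selected jobs. -/
def sel : RJob → Prop
  | .ext k x y => 1 ≤ k ∧ k < F.K ∧ x = H.h k ∧ y = H.h (k + F.m - 1)
  | .tight β z i => F.fst β = true ∧ z < F.N ∧ i < F.m ∧ (z = H.h β ∨ i = 1 ∨ i = 2)
  | .loose β z i => F.fst β = true ∧ z < F.N ∧ i < F.m ∧ z ≠ H.h β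

theorem h_lt {ν : ℕ} (hr : F.reg ν = true) : H.h ν < F.N := by
  rcases Frame.reg_cases hr with ⟨hf, _⟩ | ⟨β, rfl, hf, _⟩
  · exact H.hN _ hf
  · rw [H.hs _ hf]; exact H.hN _ hf

theorem valid_st {ν : ℕ} (h : ν < F.K + F.m) : F.valid (.st ν (H.h ν)) :=
  ⟨h, fun hr => H.h_lt hr, fun hr => H.h0 ν hr⟩

theorem sti_lt (ν : ℕ) : F.sti ν (H.h ν) < F.sti (ν + 1) (H.h (ν + 1)) := by
  have hge : ∀ γ, F.fst γ = true ∨ F.reg γ = false → F.bt γ ≤ F.sti γ (H.h γ) := by
    intro γ hγ
    rcases hγ with h | h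
    · rw [Frame.sti_fst h]; omega
    · rw [Frame.sti_tick h]
  by_cases hr : F.reg ν = true
  · rcases Frame.reg_cases hr with ⟨hf, _⟩ | ⟨β, rfl, hf, _⟩
    · rw [Frame.sti_fst hf, Frame.sti_snd hf, H.hs _ hf]; omega
    · have h1 : F.fst (β + 1 + 1) = true ∨ F.reg (β + 1 + 1) = false := by
        by_cases h : F.fst (β + 1 + 1) = true
        · exact Or.inl h
        · right
          rw [Frame.reg_false]
          refine ⟨by simpa using h, ?_⟩
          rw [Frame.snd_succ]; exact F.h1 _ hf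
      have h2 := hge _ h1
      have h3 := Frame.mul_lt_aux (c := F.m + 2) (H.hN _ hf)
      have h4 := Frame.bt_fst2 hf
      have h5 := Frame.bt_fst hf
      rw [Frame.sti_snd hf, H.hs _ hf]
      rw [show β + 1 + 1 = β + 2 by ring] at h2 ⊢
      omega
  · have hr' : F.reg ν = false := by simpa using hr
    have h1 : F.fst (ν + 1) = true ∨ F.reg (ν + 1) = false := by
      by_cases h : F.fst (ν + 1) = true
      · exact Or.inl h
      · right
        rw [Frame.reg_false]
        exact ⟨by simpa using h, by rw [Frame.snd_succ]; exact (Frame.reg_false.mp hr').1⟩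
    have h2 := hge _ h1
    rw [Frame.sti_tick hr']
    have h3 := Frame.bt_tick hr'
    omega

theorem sti_mono {a b : ℕ} (h : a ≤ b) : F.sti a (H.h a) ≤ F.sti b (H.h b) :=
  (strictMono_nat_of_lt_succ (f := fun ν => F.sti ν (H.h ν)) H.sti_lt).monotone h

theorem sel_good {j : RJob} (hj : H.sel j) : F.good j := by
  have hm := F.hm
  rcases j with ⟨β, z, i⟩ | ⟨β, z, i⟩ | ⟨k, x, y⟩
  · exact ⟨hj.1, hj.2.1, hj.2.2.1⟩
  · exact ⟨hj.1, hj.2.1, hj.2.2.1⟩
  · obtain ⟨h1, h2, rfl, rfl⟩ := hj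
    exact ⟨h1, h2, fun h => H.h_lt h, fun h => H.h0 _ h, fun h => H.h_lt h, fun h => H.h0 _ h⟩

theorem A_valid {j : RJob} (hj : H.sel j) {μ : ℕ} (hμ : μ < F.m) : F.valid (H.A j μ) := by
  rcases j with ⟨β, z, i⟩ | ⟨β, z, i⟩ | ⟨k, x, y⟩
  · exact ⟨hj.1, hj.2.1, Nat.mod_lt _ F.hm⟩
  · have h0 := F.h2 β hj.1
    simp only [A]
    split_ifs
    · exact ⟨by omega, fun _ => hj.2.1, fun h => by rw [Frame.reg_fst hj.1] at h; cases h⟩
    · exact ⟨by omega, fun _ => hj.2.1, fun h => by rw [Frame.reg_succ hj.1] at h; cases h⟩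
    · exact ⟨hj.1, hj.2.1, Nat.mod_lt _ F.hm⟩
  · exact H.valid_st (by have := hj.2.1; omega)

theorem A_window {j : RJob} (hj : H.sel j) {μ : ℕ} (hμ : μ < F.m) :
    F.jr j ≤ F.tm (H.A j μ) ∧ F.tm (H.A j μ) + 1 ≤ F.jd j := by
  rcases j with ⟨β, z, i⟩ | ⟨β, z, i⟩ | ⟨k, x, y⟩
  · have := Nat.mod_lt (μ + (F.m - i)) F.hm
    simp only [Frame.jr, Frame.jd, A, Frame.tm]
    omega
  · have := Nat.mod_lt (i + (F.m - μ)) F.hm
    simp only [A]
    split_ifs
    · simp only [Frame.jr, Frame.jd, Frame.tm, Frame.sti_fst hj.1]; omega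
    · simp only [Frame.jr, Frame.jd, Frame.tm, Frame.sti_snd hj.1]; omega
    · simp only [Frame.jr, Frame.jd, Frame.tm]; omega
  · obtain ⟨h1, h2, rfl, rfl⟩ := hj
    simp only [Frame.jr, Frame.jd, A, Frame.tm]
    have h3 := H.sti_mono (a := k) (b := k + μ) (by omega)
    have h4 := H.sti_mono (a := k + μ) (b := k + F.m - 1) (by omega)
    omega

theorem mod_cancel {m a b c : ℕ} (h : (a + b) % m = (a + c) % m) : b % m = c % m :=
  Nat.ModEq.add_left_cancel' a h

theorem sub_mod {m i i' : ℕ} (hi : i < m) (hi' : i' < m) (h : (m - i) % m = (m - i') % m) :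
    i = i' := by
  have h1 : (i + i' + (m - i)) % m = (i + i' + (m - i')) % m := Nat.ModEq.add_left (i + i') h
  rw [show i + i' + (m - i) = m + i' by omega, show i + i' + (m - i') = m + i by omega,
    Nat.add_mod_left, Nat.add_mod_left, Nat.mod_eq_of_lt hi, Nat.mod_eq_of_lt hi'] at h1
  exact h1.symm

theorem two_mul_mod {m a b : ℕ} (hodd : m % 2 = 1) (ha : a < m) (hb : b < m)
    (h : (2 * a) % m = (2 * b) % m) : a = b := by
  have h1 : a ≡ b [MOD m] :=
    Nat.ModEq.cancel_left_of_coprime (by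
      rw [Nat.coprime_iff_gcd_eq_one.mp ((Nat.odd_iff.mpr hodd).coprime_two_right)]) h
  exact Nat.ModEq.eq_of_lt_of_lt h1 ha hb

theorem A_inj_machine (hodd : F.m % 2 = 1) {j : RJob} (hj : H.sel j) {μ μ' : ℕ} (hμ : μ < F.m)
    (hμ' : μ' < F.m) (h : H.A j μ = H.A j μ') : μ = μ' := by
  rcases j with ⟨β, z, i⟩ | ⟨β, z, i⟩ | ⟨k, x, y⟩
  · simp only [A, Slot.bd.injEq, true_and] at h
    rw [add_comm μ, add_comm μ'] at h
    have := mod_cancel h
    rwa [Nat.mod_eq_of_lt hμ, Nat.mod_eq_of_lt hμ'] at this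
  · simp only [A] at h
    by_cases h1 : 2 * μ % F.m = (i + 1) % F.m <;> by_cases h2 : 2 * μ' % F.m = (i + 1) % F.m
    · exact two_mul_mod hodd hμ hμ' (h1.trans h2.symm)
    · rw [if_pos h1, if_neg h2] at h
      split_ifs at h
      exfalso
      simp at h
    · rw [if_neg h1, if_pos h2] at h
      split_ifs at h
      exfalso
      simp at h
    · rw [if_neg h1, if_neg h2] at h
      by_cases h3 : 2 * μ % F.m = (i + 2) % F.m <;> by_cases h4 : 2 * μ' % F.m = (i + 2) % F.m
      · exact two_mul_mod hodd hμ hμ' (h3.trans h4.symm)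
      · rw [if_pos h3, if_neg h4] at h
        cases h
      · rw [if_neg h3, if_pos h4] at h
        cases h
      · rw [if_neg h3, if_neg h4] at h
        simp only [Slot.bd.injEq, true_and] at h
        exact sub_mod hμ hμ' (mod_cancel h)
  · simp only [A, Slot.st.injEq] at h
    omega

theorem tight_loose {m μ i i' : ℕ} (hμ : μ < m) (hi : i < m)
    (h : (μ + (m - i)) % m = (i' + (m - μ)) % m) : (2 * μ) % m = (i' + i) % m := by
  have h1 : (i + μ + (μ + (m - i))) % m = (i + μ + (i' + (m - μ))) % m := Nat.ModEq.add_left _ h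
  rw [show i + μ + (μ + (m - i)) = m + 2 * μ by omega,
    show i + μ + (i' + (m - μ)) = m + (i' + i) by omega, Nat.add_mod_left, Nat.add_mod_left] at h1
  exact h1

theorem A_inj_job {j j' : RJob} (hj : H.sel j)
    (hj' : H.sel j') {μ : ℕ} (hμ : μ < F.m) (h : H.A j μ = H.A j' μ) : j = j' := by
  have key : ∀ β z i k x y, H.sel (.loose β z i) → H.sel (.ext k x y) →
      H.A (.loose β z i) μ ≠ H.A (.ext k x y) μ := by
    intro β z i k x y hj hj' h
    have hz := hj.2.2.2
    have hf := hj.1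
    simp only [A] at h
    split_ifs at h
    · simp only [Slot.st.injEq] at h
      rw [← h.1] at h
      exact hz h.2
    · simp only [Slot.st.injEq] at h
      rw [← h.1, H.hs _ hf] at h
      exact hz h.2
  have key2 : ∀ β z i β' z' i', H.sel (.tight β z i) → H.sel (.loose β' z' i') →
      H.A (.tight β z i) μ ≠ H.A (.loose β' z' i') μ := by
    intro β z i β' z' i' hj hj' h
    simp only [A] at h
    split_ifs at h with h1 h2
    simp only [Slot.bd.injEq] at h
    obtain ⟨rfl, rfl, h3⟩ := h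
    have h4 := tight_loose hμ hj.2.2.1 h3
    rcases hj.2.2.2 with h5 | h5 | h5
    · exact hj'.2.2.2 h5
    · rw [h5] at h4; exact h1 h4
    · rw [h5] at h4; exact h2 h4
  rcases j with ⟨β, z, i⟩ | ⟨β, z, i⟩ | ⟨k, x, y⟩ <;>
    rcases j' with ⟨β', z', i'⟩ | ⟨β', z', i'⟩ | ⟨k', x', y'⟩
  · simp only [A, Slot.bd.injEq] at h
    obtain ⟨rfl, rfl, h⟩ := h
    rw [sub_mod hj.2.2.1 hj'.2.2.1 (mod_cancel h)]
  · exact absurd h (key2 _ _ _ _ _ _ hj hj')
  · simp only [A] at h; cases h
  · exact absurd h.symm (key2 _ _ _ _ _ _ hj' hj)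
  · have hi := hj.2.2.1
    have hi' := hj'.2.2.1
    have hf := hj.1
    have hf' := hj'.1
    have hne : β ≠ β' + 1 := by
      intro h0
      rw [h0, F.h1 _ hf'] at hf
      cases hf
    have hne' : β + 1 ≠ β' := by
      intro h0
      rw [← h0, F.h1 _ hf] at hf'
      cases hf'
    have e1 : ∀ c, (i + c) % F.m = (i' + c) % F.m → i = i' := by
      intro c hc
      rw [add_comm i, add_comm i'] at hc
      have := mod_cancel hc
      rwa [Nat.mod_eq_of_lt hi, Nat.mod_eq_of_lt hi'] at this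
    simp only [A] at h
    split_ifs at h with h1 h2 h3 h4 h5 h6 h7 h8
    · simp only [Slot.st.injEq] at h
      obtain ⟨rfl, rfl⟩ := h
      rw [e1 1 (h1.symm.trans h2)]
    · simp only [Slot.st.injEq] at h
      exact absurd h.1 hne
    · simp only [Slot.st.injEq] at h
      exact absurd h.1 hne'
    · simp only [Slot.st.injEq] at h
      obtain ⟨h0, rfl⟩ := h
      have h0' : β = β' := by omega
      subst h0'
      rw [e1 2 (h4.symm.trans h6)]
    · simp only [Slot.bd.injEq] at h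
      obtain ⟨rfl, rfl, h⟩ := h
      rw [e1 _ h]
  · exact absurd h (key _ _ _ _ _ _ hj hj')
  · simp only [A] at h; cases h
  · exact absurd h.symm (key _ _ _ _ _ _ hj' hj)
  · obtain ⟨_, _, rfl, rfl⟩ := hj
    obtain ⟨_, _, rfl, rfl⟩ := hj'
    simp only [A, Slot.st.injEq] at h
    have : k = k' := by omega
    rw [this]

/-! ### The total weight -/

/-- selected local jobs of a zone -/
def OZ (β z : ℕ) : Finset RJob :=
  if z = H.h β then (range F.m).image (fun i => RJob.tight β z i)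
  else {RJob.tight β z 1, RJob.tight β z 2} ∪ (range F.m).image (fun i => RJob.loose β z i)

/-- selected jobs -/
def O : Finset RJob :=
  (Ico 1 F.K).image (fun k => RJob.ext k (H.h k) (H.h (k + F.m - 1))) ∪
  ((range F.K).filter (fun β => F.fst β = true)).biUnion
    (fun β => (range F.N).biUnion (fun z => H.OZ β z))

theorem mem_OZ {β z : ℕ} (hf : F.fst β = true) (hz : z < F.N) {j : RJob} (hj : j ∈ H.OZ β z) :
    H.sel j ∧ ((∃ i, j = .tight β z i) ∨ ∃ i, j = .loose β z i) := by
  have hm3 := F.h3 β hf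
  unfold OZ at hj
  split_ifs at hj with h
  · obtain ⟨i, hi, rfl⟩ := mem_image.mp hj
    exact ⟨⟨hf, hz, mem_range.mp hi, Or.inl h⟩, Or.inl ⟨i, rfl⟩⟩
  · rcases mem_union.mp hj with hj | hj
    · simp only [mem_insert, mem_singleton] at hj
      rcases hj with rfl | rfl
      · exact ⟨⟨hf, hz, by omega, Or.inr (Or.inl rfl)⟩, Or.inl ⟨1, rfl⟩⟩
      · exact ⟨⟨hf, hz, by omega, Or.inr (Or.inr rfl)⟩, Or.inl ⟨2, rfl⟩⟩
    · obtain ⟨i, hi, rfl⟩ := mem_image.mp hj
      exact ⟨⟨hf, hz, mem_range.mp hi, h⟩, Or.inr ⟨i, rfl⟩⟩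

theorem O_sel {j : RJob} (hj : j ∈ H.O) : H.sel j := by
  unfold O at hj
  rcases mem_union.mp hj with hj | hj
  · obtain ⟨k, hk, rfl⟩ := mem_image.mp hj
    rw [mem_Ico] at hk
    exact ⟨hk.1, hk.2, rfl, rfl⟩
  · simp only [mem_biUnion, mem_filter, mem_range] at hj
    obtain ⟨β, ⟨_, hf⟩, z, hz, hj⟩ := hj
    exact (H.mem_OZ hf hz hj).1

theorem sum_O (f : RJob → ℕ) : ∑ j ∈ H.O, f j =
    ∑ k ∈ Ico 1 F.K, f (.ext k (H.h k) (H.h (k + F.m - 1))) +
    ∑ β ∈ range F.K, if F.fst β = true then ∑ z ∈ range F.N, ∑ j ∈ H.OZ β z, f j else 0 := by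
  unfold O
  rw [sum_union]
  · congr 1
    · rw [sum_image]
      intro a _ b _ h
      simp only [RJob.ext.injEq] at h
      exact h.1
    · rw [sum_biUnion]
      · rw [sum_filter]
        refine sum_congr rfl fun β _ => ?_
        split_ifs with hf
        · rw [sum_biUnion]
          intro a ha b hb hab
          rw [Function.onFun, Finset.disjoint_left]
          intro j hj hj'
          have h1 := (H.mem_OZ hf (mem_range.mp (Finset.mem_coe.mp ha)) hj).2
          have h2 := (H.mem_OZ hf (mem_range.mp (Finset.mem_coe.mp hb)) hj').2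
          rcases h1 with ⟨i, rfl⟩ | ⟨i, rfl⟩ <;> rcases h2 with ⟨i', h⟩ | ⟨i', h⟩
          · simp only [RJob.tight.injEq] at h; exact hab h.2.1
          · cases h
          · cases h
          · simp only [RJob.loose.injEq] at h; exact hab h.2.1
        · rfl
      · intro a ha b hb hab
        rw [Function.onFun, Finset.disjoint_left]
        intro j hj hj'
        have hfa := (mem_filter.mp (Finset.mem_coe.mp ha)).2
        have hfb := (mem_filter.mp (Finset.mem_coe.mp hb)).2
        obtain ⟨z, hz, hj⟩ := mem_biUnion.mp hj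
        obtain ⟨z', hz', hj'⟩ := mem_biUnion.mp hj'
        have h1 := (H.mem_OZ hfa (mem_range.mp hz) hj).2
        have h2 := (H.mem_OZ hfb (mem_range.mp hz') hj').2
        rcases h1 with ⟨i, rfl⟩ | ⟨i, rfl⟩ <;> rcases h2 with ⟨i', h⟩ | ⟨i', h⟩
        · simp only [RJob.tight.injEq] at h; exact hab h.1
        · cases h
        · cases h
        · simp only [RJob.loose.injEq] at h; exact hab h.1
  · rw [Finset.disjoint_left]
    intro j hj hj'
    obtain ⟨k, _, rfl⟩ := mem_image.mp hj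
    simp only [mem_biUnion, mem_filter, mem_range] at hj'
    obtain ⟨β, ⟨_, hf⟩, z, hz, hj'⟩ := hj'
    rcases (H.mem_OZ hf hz hj').2 with ⟨i, h⟩ | ⟨i, h⟩ <;> cases h

theorem sum_OZ_b {β z : ℕ} : ∑ j ∈ H.OZ β z, F.jb j =
    if z = H.h β then F.m * (2 * F.m) else 2 * (2 * F.m) + F.m * (2 * F.m - 2) := by
  unfold OZ
  split_ifs with h
  · rw [sum_image (fun a _ b _ h => by simpa using h)]
    simp [Frame.jb]
  · rw [sum_union, sum_pair (by simp), sum_image (fun a _ b _ h => by simpa using h)]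
    · simp only [Frame.jb, sum_const, card_range, smul_eq_mul]
      ring
    · rw [Finset.disjoint_left]
      intro j hj hj'
      obtain ⟨i, _, rfl⟩ := mem_image.mp hj'
      simp at hj

theorem sum_OZ_c {β z : ℕ} (hm : 1 ≤ F.m) : ∑ j ∈ H.OZ β z, F.jc j =
    if z = H.h β then F.dl β z else 0 := by
  unfold OZ
  split_ifs with h
  · rw [sum_image (fun a _ b _ h => by simpa using h)]
    simp only [Frame.jc]
    rw [Finset.sum_ite_eq' (range F.m) 0 (fun _ => F.dl β z)]
    rw [if_pos (mem_range.mpr (by omega))]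
  · rw [sum_union, sum_pair (by simp), sum_image (fun a _ b _ h => by simpa using h)]
    · simp [Frame.jc]
    · rw [Finset.disjoint_left]
      intro j hj hj'
      obtain ⟨i, _, rfl⟩ := mem_image.mp hj'
      simp at hj

/-- Sums over blocks. -/
theorem block_sum (f g : ℕ → ℕ) (a : ℕ) (ha : F.snd a = false)
    (h1 : ∀ ν, a ≤ ν → F.reg ν = false → f ν = g ν)
    (h2 : ∀ β, F.fst β = true → f β + f (β + 1) = g β + g (β + 1)) :
    ∀ β, a ≤ β → F.snd β = false → ∑ ν ∈ Ico a β, f ν = ∑ ν ∈ Ico a β, g ν := by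
  intro β
  induction β using Nat.strong_induction_on with
  | _ β ih =>
    intro hβ hs
    rcases Nat.eq_or_lt_of_le hβ with h | h
    · rw [← h]; simp
    · obtain ⟨γ, rfl⟩ : ∃ γ, β = γ + 1 := ⟨β - 1, by omega⟩
      rw [Frame.snd_succ] at hs
      by_cases hsγ : F.snd γ = true
      · obtain ⟨δ, rfl⟩ : ∃ δ, γ = δ + 1 := by
          rcases γ with _ | δ
          · simp [Frame.snd] at hsγ
          · exact ⟨δ, rfl⟩
        have hδ : a ≤ δ := by
          rcases Nat.lt_or_ge δ a with h3 | h3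
          · have : a = δ + 1 := by omega
            rw [this, hsγ] at ha
            cases ha
          · exact h3
        rw [Frame.snd_succ] at hsγ
        rw [Finset.sum_Ico_succ_top (by omega), Finset.sum_Ico_succ_top (by omega),
          Finset.sum_Ico_succ_top (by omega), Finset.sum_Ico_succ_top (by omega),
          ih δ (by omega) hδ (Frame.snd_of_fst hsγ), add_assoc, add_assoc, h2 δ hsγ]
      · have hs' : F.snd γ = false := by simpa using hsγ
        rw [Finset.sum_Ico_succ_top (by omega), Finset.sum_Ico_succ_top (by omega),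
          ih γ (by omega) (by omega) hs', h1 γ (by omega) (Frame.reg_false.mpr ⟨hs, hs'⟩)]

theorem snd_K : F.snd F.K = false := by
  by_contra h
  have h' : F.snd F.K = true := by simpa using h
  have := Frame.reg_lt (F := F) (ν := F.K) (Frame.reg_iff.mpr (Or.inr h'))
  omega

theorem snd_m : F.snd F.m = false := by
  have hm := F.hm
  by_contra h
  have h' : F.snd F.m = true := by simpa using h
  have := Frame.reg_lt (F := F) (ν := F.m) (Frame.reg_iff.mpr (Or.inr h'))
  omega

theorem snd_one : F.snd 1 = false := by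
  have hm := F.hm
  by_contra h
  have h' : F.snd 1 = true := by simpa using h
  have := Frame.reg_lt (F := F) (ν := 1) (Frame.reg_iff.mpr (Or.inr h'))
  omega

theorem sum_ite_mul {N z a b : ℕ} (hz : z < N) :
    ∑ x ∈ range N, (if x = z then a else b) + b = N * b + a := by
  have h := Finset.sum_ite_eq' (range N) z (fun _ => a)
  rw [if_pos (mem_range.mpr hz)] at h
  have h2 : ∑ x ∈ range N, (if x = z then b else 0) = b := by
    rw [Finset.sum_ite_eq' (range N) z (fun _ => b), if_pos (mem_range.mpr hz)]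
  have h3 : ∑ x ∈ range N, (if x = z then a else b) + ∑ x ∈ range N, (if x = z then b else 0) =
      ∑ x ∈ range N, (if x = z then a else 0) + ∑ x ∈ range N, b := by
    rw [← sum_add_distrib, ← sum_add_distrib]
    refine sum_congr rfl fun x _ => ?_
    split_ifs <;> ring
  rw [h2, h] at h3
  rw [h3]
  simp
  ring

theorem sum_c : ∑ j ∈ H.O, F.jc j = F.Q := by
  have hm := F.hm
  have hK := F.hK
  rw [H.sum_O]
  have e1 : ∑ β ∈ range F.K, (if F.fst β = true then
      ∑ z ∈ range F.N, ∑ j ∈ H.OZ β z, F.jc j else 0) =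
      ∑ β ∈ Ico 1 F.K, if F.fst β = true then F.dl β (H.h β) else 0 := by
    rw [Finset.range_eq_Ico, Finset.sum_eq_sum_Ico_succ_bot (by omega), zero_add, if_neg]
    · rw [zero_add]
      refine sum_congr rfl fun β _ => ?_
      split_ifs with hf
      · rw [sum_congr rfl (fun z _ => H.sum_OZ_c (β := β) (z := z) hm),
          Finset.sum_ite_eq' (range F.N) (H.h β) (fun z => F.dl β z),
          if_pos (mem_range.mpr (H.hN _ hf))]
      · rfl
    · intro h
      have := F.h2 0 h
      omega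
  have e2 : ∑ k ∈ Ico 1 F.K, F.jc (.ext k (H.h k) (H.h (k + F.m - 1))) =
      ∑ k ∈ Ico 1 F.K, 2 ^ F.e k (H.h k) +
      ∑ ν ∈ Ico 1 F.K, if F.reg ν = true then 2 ^ H.h ν else 0 := by
    simp only [Frame.jc, sum_add_distrib]
    congr 1
    have e3 : ∑ k ∈ Ico 1 F.K, F.cc (k, H.h k, H.h (k + F.m - 1)) =
        ∑ ν ∈ Ico F.m (F.K + F.m - 1), if F.reg ν = true then 2 ^ H.h ν else 0 := by
      have e4 : Ico F.m (F.K + F.m - 1) = (Ico 1 F.K).image (fun k => k + F.m - 1) := by
        ext ν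
        rw [mem_image, mem_Ico]
        constructor
        · intro h
          exact ⟨ν - F.m + 1, mem_Ico.mpr ⟨by omega, by omega⟩, by omega⟩
        · rintro ⟨k, hk, rfl⟩
          rw [mem_Ico] at hk
          omega
      rw [e4, sum_image]
      · rfl
      · intro a ha b hb h
        rw [Finset.mem_coe, mem_Ico] at ha hb
        simp only at h
        omega
    rw [e3]
    have e5 : ∀ (S : Finset ℕ), (∀ ν, F.reg ν = true → ν ∈ S) →
        ∑ ν ∈ S, (if F.reg ν = true then 2 ^ H.h ν else 0) =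
        ∑ ν ∈ (range F.K).filter (fun ν => F.reg ν = true), 2 ^ H.h ν := by
      intro S hS
      rw [← sum_filter]
      refine sum_congr ?_ fun _ _ => rfl
      ext ν
      rw [mem_filter, mem_filter, mem_range]
      exact ⟨fun h => ⟨(Frame.reg_lt h.2).2, h.2⟩, fun h => ⟨hS ν h.2, h.2⟩⟩
    rw [e5 _ (fun ν h => by have := Frame.reg_lt h; rw [mem_Ico]; omega),
      e5 _ (fun ν h => by have := Frame.reg_lt h; rw [mem_Ico]; omega)]
  rw [e1, e2, ← sum_add_distrib, ← sum_add_distrib]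
  unfold Frame.Q
  refine block_sum _ _ 1 snd_one ?_ ?_ F.K (by omega) snd_K
  · intro ν _ hr
    obtain ⟨h1, h2⟩ := Frame.reg_false.mp hr
    simp only [hr, h1, Bool.false_eq_true, if_false, add_zero]
    unfold Frame.e Frame.rc
    simp [h1, h2]
  · intro β hf
    have h0 := F.h2 β hf
    simp only [Frame.reg_fst hf, Frame.reg_succ hf, hf, F.h1 β hf, if_true, Bool.false_eq_true,
      if_false]
    rw [Frame.rc_succ hf, Frame.rc_fst hf (by have := H.hN _ hf; omega), H.hs β hf,
      Frame.pow_fst hf, Frame.pow_snd hf]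
    have := Frame.dl_eq hf (H.hN β hf)
    generalize 2 ^ H.h β = X at *
    omega

theorem sum_bE : ∑ k ∈ Ico 1 F.K, F.bE k = F.m * (F.K - F.m) := by
  have hm := F.hm
  have hK := F.hK
  rw [← Finset.sum_Ico_consecutive _ (by omega : 1 ≤ F.m) (by omega : F.m ≤ F.K),
    ← Finset.sum_Ico_consecutive _ (by omega : F.m ≤ F.K - F.m + 1)
      (by omega : F.K - F.m + 1 ≤ F.K)]
  have e1 : ∑ k ∈ Ico 1 F.m, F.bE k = ∑ k ∈ range F.m, k := by
    rw [Finset.range_eq_Ico, Finset.sum_eq_sum_Ico_succ_bot (by omega : 0 < F.m), zero_add,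
      zero_add]
    refine sum_congr rfl fun k hk => ?_
    rw [mem_Ico] at hk
    unfold Frame.bE
    omega
  have e2 : ∑ k ∈ Ico F.m (F.K - F.m + 1), F.bE k = (F.K - F.m + 1 - F.m) * F.m := by
    rw [sum_congr rfl (g := fun _ => F.m)]
    · simp
    · intro k hk
      rw [mem_Ico] at hk
      unfold Frame.bE
      omega
  have e3 : ∑ k ∈ Ico (F.K - F.m + 1) F.K, F.bE k = ∑ k ∈ range F.m, k := by
    rw [Finset.range_eq_Ico, Finset.sum_eq_sum_Ico_succ_bot (by omega : 0 < F.m), zero_add,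
      zero_add]
    refine Finset.sum_bij (fun k _ => F.K - k) ?_ ?_ ?_ ?_
    · intro k hk
      rw [mem_Ico] at hk ⊢
      omega
    · intro a ha b hb h
      rw [mem_Ico] at ha hb
      omega
    · intro k hk
      rw [mem_Ico] at hk
      exact ⟨F.K - k, by rw [mem_Ico]; omega, by omega⟩
    · intro k hk
      rw [mem_Ico] at hk
      unfold Frame.bE
      omega
  rw [e1, e2, e3]
  have e4 := Finset.sum_range_id_mul_two F.m
  clear e1 e2 e3
  generalize ∑ k ∈ range F.m, k = T at *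
  generalize F.m = a at *
  generalize F.K = c at *
  obtain ⟨m', rfl⟩ : ∃ m', a = m' + 1 := ⟨a - 1, by omega⟩
  obtain ⟨K', rfl⟩ : ∃ K', c = 2 * (m' + 1) + K' := ⟨c - 2 * (m' + 1), by omega⟩
  rw [show 2 * (m' + 1) + K' - (m' + 1) + 1 - (m' + 1) = K' + 1 by omega,
    show 2 * (m' + 1) + K' - (m' + 1) = m' + 1 + K' by omega]
  rw [show m' + 1 - 1 = m' by omega] at e4
  nlinarith [e4]

theorem sum_b : ∑ j ∈ H.O, F.jb j = F.m * F.PS := by
  have hm := F.hm
  have hK := F.hK
  rw [H.sum_O]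
  simp only [Frame.jb]
  rw [sum_bE]
  have e0 : F.m * (F.K - F.m) = ∑ ν ∈ Ico F.m F.K, F.m := by simp [mul_comm]
  have e1 : ∑ β ∈ range F.K, (if F.fst β = true then
      ∑ z ∈ range F.N, ∑ j ∈ H.OZ β z, F.jb j else 0) =
      ∑ β ∈ Ico F.m F.K, if F.fst β = true then
      ∑ z ∈ range F.N, ∑ j ∈ H.OZ β z, F.jb j else 0 := by
    rw [Finset.range_eq_Ico, ← Finset.sum_Ico_consecutive _ (by omega : 0 ≤ F.m)
      (by omega : F.m ≤ F.K)]
    rw [Finset.sum_eq_zero, zero_add]
    intro ν hν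
    rw [mem_Ico] at hν
    rw [if_neg]
    intro h
    have := F.h2 ν h
    omega
  have e2 : F.m * F.PS = ∑ ν ∈ Ico F.m F.K, F.m * (F.ns ν +
      (if F.fst ν = true then 2 * (F.N * F.m) else 0)) := by
    unfold Frame.PS
    rw [mul_sum, Finset.range_eq_Ico, ← Finset.sum_Ico_consecutive _ (by omega : 0 ≤ F.m)
      (by omega : F.m ≤ F.K)]
    rw [Finset.sum_eq_zero, zero_add]
    · refine sum_congr rfl fun ν hν => ?_
      rw [mem_Ico] at hν
      rw [if_pos hν.1]
    · intro ν hν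
      rw [mem_Ico] at hν
      rw [if_neg (by omega), if_neg]
      · simp
      · intro h
        have := F.h2 ν h
        omega
  change F.m * (F.K - F.m) + ∑ β ∈ range F.K, (if F.fst β = true then
      ∑ z ∈ range F.N, ∑ j ∈ H.OZ β z, F.jb j else 0) = _
  rw [e0, e1, e2, ← sum_add_distrib]
  refine block_sum _ _ F.m snd_m ?_ ?_ F.K (by omega) snd_K
  · intro ν _ hr
    obtain ⟨h1, h2⟩ := Frame.reg_false.mp hr
    unfold Frame.ns
    simp [hr, h1]
  · intro β hf
    unfold Frame.ns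
    simp only [Frame.reg_fst hf, Frame.reg_succ hf, hf, F.h1 β hf, if_true, Bool.false_eq_true,
      if_false, add_zero]
    rw [sum_congr rfl (fun z _ => H.sum_OZ_b (β := β) (z := z))]
    have h3 := sum_ite_mul (a := F.m * (2 * F.m)) (b := 2 * (2 * F.m) + F.m * (2 * F.m - 2))
      (H.hN β hf)
    have hm3 := F.h3 β hf
    obtain ⟨m', hm'⟩ : ∃ m', F.m = m' + 1 := ⟨F.m - 1, by omega⟩
    rw [hm'] at h3 ⊢
    rw [show 2 * (m' + 1) - 2 = 2 * m' by omega] at h3 ⊢
    generalize ∑ x ∈ range F.N, (if x = H.h β then (m' + 1) * (2 * (m' + 1)) else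
      2 * (2 * (m' + 1)) + (m' + 1) * (2 * m')) = X at *
    nlinarith [h3]

theorem sum_w : ∑ j ∈ H.O, F.jw j + F.Q = F.M0 * (F.m * F.PS) := by
  rw [← H.sum_b, ← H.sum_c, mul_sum, ← sum_add_distrib]
  exact sum_congr rfl fun j hj => Frame.jw_add (H.sel_good (H.O_sel hj))

end Choice

end Pool.Agent.OpenShop
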