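import Mathlib
import Pool.Agent.OpenShop.Model
import Pool.Agent.OpenShop.Compl

/-!
# From schedules to selections and back
-/

namespace Pool.Agent.OpenShop

open Finset

variable {F : Frame}

/-- job of an instance from a real job -/
def mkJob (F : Frame) (j : RJob) : Job := ⟨F.jr j, F.jd j, F.jw j⟩

/-- Instances whose real jobs are the elements of `L` and whose other jobs are always tardy. -/
def shop (F : Frame) (L : List RJob) (X : List ℕ) : Shop :=
  ⟨F.m, L.map (mkJob F) ++ X.map (fun w => ⟨0, 0, w⟩)⟩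

theorem shop_len (L : List RJob) (X : List ℕ) : (shop F L X).jobs.length = L.length + X.length := by
  simp [shop]

theorem shop_get_left {L : List RJob} {X : List ℕ} (j : Fin (shop F L X).jobs.length)
    (h : (j : ℕ) < L.length) : (shop F L X).jobs.get j = mkJob F L[(j : ℕ)] := by
  simp only [shop, List.get_eq_getElem]
  rw [List.getElem_append_left (by simpa using h)]
  simp

theorem shop_get_right {L : List RJob} {X : List ℕ} (j : Fin (shop F L X).jobs.length)
    (h : L.length ≤ (j : ℕ)) : ∃ w, (shop F L X).jobs.get j = ⟨0, 0, w⟩ := by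
  simp only [shop, List.get_eq_getElem]
  rw [List.getElem_append_right (by simpa using h)]
  simp

/-- Sum over the jobs. -/
theorem sum_jobs {M : Type*} [AddCommMonoid M] (L : List RJob) (X : List ℕ)
    (f : ℕ → M) : ∑ j : Fin (shop F L X).jobs.length, f j =
    ∑ i ∈ range L.length, f i + ∑ i ∈ range X.length, f (L.length + i) := by
  rw [Fin.sum_univ_eq_sum_range f, shop_len, Finset.sum_range_add]

theorem sum_getD : ∀ X : List ℕ, ∑ i ∈ range X.length, X.getD i 0 = X.sum
  | [] => by simp
  | a :: l => by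
    rw [List.length_cons, Finset.sum_range_succ', List.sum_cons, ← sum_getD l, add_comm]
    simp

section Sound

variable {L : List RJob} {X : List ℕ} {S : Schedule (shop F L X)}

/-- start times as natural numbers -/
noncomputable def fl (S : Schedule (shop F L X)) (j i : ℕ) : ℕ :=
  if h : j < (shop F L X).jobs.length ∧ i < F.m then ⌊S ⟨j, h.1⟩ ⟨i, h.2⟩⌋₊ else 0

theorem floor_ne {a b : ℝ} (hb : 0 ≤ a) (h : a + 1 ≤ b) : ⌊a⌋₊ ≠ ⌊b⌋₊ := by
  intro he
  have h1 : ⌊a + 1⌋₊ ≤ ⌊b⌋₊ := Nat.floor_mono h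
  rw [Nat.floor_add_one hb] at h1
  omega

open Classical in
/-- the on-time real jobs -/
noncomputable def onTime (S : Schedule (shop F L X)) : Finset ℕ :=
  (range L.length).filter (fun j => ∃ h : j < (shop F L X).jobs.length, ¬ Late _ S ⟨j, h⟩)

theorem mem_onTime {j : ℕ} : j ∈ onTime S ↔ j < L.length ∧
    ∃ h : j < (shop F L X).jobs.length, ¬ Late _ S ⟨j, h⟩ := by
  classical
  unfold onTime
  rw [mem_filter, mem_range]

theorem S_nonneg (hS : Feasible _ S) (j i) : 0 ≤ S j i :=
  le_trans (Nat.cast_nonneg _) (hS.release j i)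

theorem fl_job (hS : Feasible _ S) {j i i' : ℕ} (hj : j < (shop F L X).jobs.length)
    (hi : i < F.m) (hi' : i' < F.m) (h : fl S j i = fl S j i') : i = i' := by
  by_contra hne
  unfold fl at h
  rw [dif_pos ⟨hj, hi⟩, dif_pos ⟨hj, hi'⟩] at h
  rcases hS.job ⟨j, hj⟩ ⟨i, hi⟩ ⟨i', hi'⟩ (by simpa using hne) with h1 | h1
  · exact floor_ne (S_nonneg hS _ _) h1 h
  · exact floor_ne (S_nonneg hS _ _) h1 h.symm

theorem fl_machine (hS : Feasible _ S) {j j' i : ℕ} (hj : j < (shop F L X).jobs.length)
    (hj' : j' < (shop F L X).jobs.length) (hi : i < F.m) (h : fl S j i = fl S j' i) : j = j' := by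
  by_contra hne
  unfold fl at h
  rw [dif_pos ⟨hj, hi⟩, dif_pos ⟨hj', hi⟩] at h
  rcases hS.machine ⟨i, hi⟩ ⟨j, hj⟩ ⟨j', hj'⟩ (by simpa using hne) with h1 | h1
  · exact floor_ne (S_nonneg hS _ _) h1 h
  · exact floor_ne (S_nonneg hS _ _) h1 h.symm

/-- The selection given by a schedule. -/
noncomputable def solOf (hL : L.Nodup) (hg : ∀ j ∈ L, F.good j) (hS : Feasible _ S) : Sol F where
  O := (onTime S).image (fun j => L.getD j (.tight 0 0 0))
  U := fun r => (range F.m).image (fun i => fl S (L.idxOf r) i)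
  hg := by
    intro r hr
    obtain ⟨j, hj, rfl⟩ := mem_image.mp hr
    have hlt := (mem_onTime.mp hj).1
    rw [List.getD_eq_getElem _ _ hlt]
    exact hg _ (List.getElem_mem hlt)
  hU := by
    intro r hr
    obtain ⟨j, hj, rfl⟩ := mem_image.mp hr
    have hlt := (mem_onTime.mp hj).1
    rw [List.getD_eq_getElem _ _ hlt, hL.idxOf_getElem]
    rw [card_image_of_injOn]
    · simp
    · intro a ha b hb hab
      exact fl_job hS (by rw [shop_len]; omega) (mem_range.mp (Finset.mem_coe.mp ha))
        (mem_range.mp (Finset.mem_coe.mp hb)) hab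
  hw := by
    intro r hr t ht
    obtain ⟨j, hj, rfl⟩ := mem_image.mp hr
    obtain ⟨hlt, h2, h3⟩ := mem_onTime.mp hj
    rw [List.getD_eq_getElem _ _ hlt] at ht ⊢
    rw [hL.idxOf_getElem] at ht
    obtain ⟨i, hi, rfl⟩ := mem_image.mp ht
    have hi' := mem_range.mp hi
    unfold fl
    rw [dif_pos ⟨h2, hi'⟩]
    have hrel := hS.release ⟨j, h2⟩ ⟨i, hi'⟩
    rw [shop_get_left _ hlt] at hrel
    constructor
    · exact Nat.le_floor hrel
    · have h4 : ¬ ((mkJob F L[j]).d : ℝ) < S ⟨j, h2⟩ ⟨i, hi'⟩ + 1 := by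
        intro h5
        apply h3
        refine ⟨⟨i, hi'⟩, ?_⟩
        rw [shop_get_left _ hlt]
        exact h5
      have h6 : S ⟨j, h2⟩ ⟨i, hi'⟩ + 1 ≤ ((mkJob F L[j]).d : ℝ) := not_lt.mp h4
      have h7 : ⌊S ⟨j, h2⟩ ⟨i, hi'⟩ + 1⌋₊ ≤ (mkJob F L[j]).d := by
        have := Nat.floor_mono h6
        rwa [Nat.floor_natCast] at this
      rw [Nat.floor_add_one (S_nonneg hS _ _)] at h7
      exact h7
  hcap := by
    intro t
    classical
    -- choose a machine for every user
    have hch : ∀ r ∈ ((onTime S).image (fun j => L.getD j (.tight 0 0 0))).filter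
        (fun r => t ∈ (range F.m).image (fun i => fl S (L.idxOf r) i)),
        ∃ i, i < F.m ∧ fl S (L.idxOf r) i = t := by
      intro r hr
      obtain ⟨i, hi, h⟩ := mem_image.mp (mem_filter.mp hr).2
      exact ⟨i, mem_range.mp hi, h⟩
    have hle : (((onTime S).image (fun j => L.getD j (.tight 0 0 0))).filter
        (fun r => t ∈ (range F.m).image (fun i => fl S (L.idxOf r) i))).card ≤
        (range F.m).card := by
      refine Finset.card_le_card_of_injOn
        (fun r => if h : ∃ i, i < F.m ∧ fl S (L.idxOf r) i = t then Classical.choose h else 0)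
        ?_ ?_
      · intro r hr
        have h := hch r (Finset.mem_coe.mp hr)
        simp only [dif_pos h, Finset.coe_range, Set.mem_Iio]
        exact (Classical.choose_spec h).1
      · intro r hr r' hr' he
        have h := hch r (Finset.mem_coe.mp hr)
        have h' := hch r' (Finset.mem_coe.mp hr')
        simp only [dif_pos h, dif_pos h'] at he
        have h1 := Classical.choose_spec h
        have h1' := Classical.choose_spec h'
        rw [← he] at h1'
        have hidx : ∀ r ∈ ((onTime S).image (fun j => L.getD j (.tight 0 0 0))).filter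
            (fun r => t ∈ (range F.m).image (fun i => fl S (L.idxOf r) i)),
            L.idxOf r < L.length ∧ r ∈ L := by
          intro r hr
          obtain ⟨j, hj, rfl⟩ := mem_image.mp (mem_filter.mp hr).1
          have hlt := (mem_onTime.mp hj).1
          rw [List.getD_eq_getElem _ _ hlt, hL.idxOf_getElem]
          exact ⟨hlt, List.getElem_mem hlt⟩
        have h2 := hidx r (Finset.mem_coe.mp hr)
        have h2' := hidx r' (Finset.mem_coe.mp hr')
        have h3 := fl_machine hS (by rw [shop_len]; omega) (by rw [shop_len]; omega) h1.1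
          (h1.2.trans h1'.2.symm)
        exact (List.idxOf_inj h2.2).mp h3
    rwa [card_range] at hle

/-- Weight of a schedule. -/
theorem weight_solOf (hm : 1 ≤ F.m) (hL : L.Nodup) (hg : ∀ j ∈ L, F.good j)
    (hS : Feasible _ S) : tardyWeight _ S + ∑ j ∈ (solOf hL hg hS).O, F.jw j =
      (L.map F.jw).sum + X.sum := by
  classical
  have h1 : ∑ j ∈ (solOf hL hg hS).O, F.jw j =
      ∑ j ∈ range L.length, if (∃ h : j < (shop F L X).jobs.length, ¬ Late _ S ⟨j, h⟩) then
        F.jw (L.getD j (.tight 0 0 0)) else 0 := by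
    show ∑ j ∈ (onTime S).image (fun j => L.getD j (.tight 0 0 0)), F.jw j = _
    rw [sum_image]
    · unfold onTime
      rw [sum_filter]
    · intro a ha b hb hab
      have hlt := (mem_onTime.mp (Finset.mem_coe.mp ha)).1
      have hlt' := (mem_onTime.mp (Finset.mem_coe.mp hb)).1
      simp only at hab
      rw [List.getD_eq_getElem _ _ hlt, List.getD_eq_getElem _ _ hlt'] at hab
      exact (hL.getElem_inj_iff).mp hab
  have h2 : tardyWeight _ S = ∑ j ∈ range L.length,
      (if (∃ h : j < (shop F L X).jobs.length, Late _ S ⟨j, h⟩) then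
        F.jw (L.getD j (.tight 0 0 0)) else 0) + X.sum := by
    unfold tardyWeight
    have h3 : ∀ j : Fin (shop F L X).jobs.length,
        (if Late _ S j then ((shop F L X).jobs.get j).w else 0) =
        (fun j : ℕ => if h : j < (shop F L X).jobs.length then
          (if Late _ S ⟨j, h⟩ then ((shop F L X).jobs.get ⟨j, h⟩).w else 0) else 0) j := by
      intro j
      simp only [dif_pos j.2, Fin.eta]
    rw [Finset.sum_congr rfl (fun j _ => h3 j), sum_jobs L X
      (fun j : ℕ => if h : j < (shop F L X).jobs.length then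
          (if Late _ S ⟨j, h⟩ then ((shop F L X).jobs.get ⟨j, h⟩).w else 0) else 0)]
    congr 1
    · refine sum_congr rfl fun j hj => ?_
      have hlt := mem_range.mp hj
      have hlt' : j < (shop F L X).jobs.length := by rw [shop_len]; omega
      rw [dif_pos hlt']
      by_cases h : Late _ S ⟨j, hlt'⟩
      · rw [if_pos h, if_pos ⟨hlt', h⟩, shop_get_left _ hlt, List.getD_eq_getElem _ _ hlt]
        rfl
      · rw [if_neg h, if_neg (fun ⟨_, h'⟩ => h h')]
    · have h4 : ∀ i ∈ range X.length, (if h : L.length + i < (shop F L X).jobs.length then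
          (if Late _ S ⟨L.length + i, h⟩ then ((shop F L X).jobs.get ⟨L.length + i, h⟩).w
            else 0) else 0) = X.getD i 0 := by
        intro i hi
        have hi' := mem_range.mp hi
        have hlt' : L.length + i < (shop F L X).jobs.length := by rw [shop_len]; omega
        rw [dif_pos hlt']
        obtain ⟨w, hw⟩ := shop_get_right (F := F) (L := L) (X := X) ⟨L.length + i, hlt'⟩ (by simp)
        have hlate : Late _ S ⟨L.length + i, hlt'⟩ := by
          refine ⟨⟨0, hm⟩, ?_⟩
          rw [hw]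
          have := S_nonneg hS ⟨L.length + i, hlt'⟩ ⟨0, hm⟩
          simp only [Nat.cast_zero]
          linarith
        rw [if_pos hlate]
        simp only [shop, List.get_eq_getElem]
        rw [List.getElem_append_right (by simp), List.getD_eq_getElem _ _ hi']
        simp
      rw [Finset.sum_congr rfl h4, sum_getD]
  rw [h1, h2]
  have h5 : (L.map F.jw).sum = ∑ j ∈ range L.length, F.jw (L.getD j (.tight 0 0 0)) := by
    rw [← sum_getD, List.length_map]
    refine sum_congr rfl fun j hj => ?_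
    have hlt := mem_range.mp hj
    rw [List.getD_eq_getElem _ _ hlt, List.getD_eq_getElem _ _ (by simpa using hlt)]
    simp
  rw [h5, add_right_comm, ← sum_add_distrib]
  congr 1
  refine sum_congr rfl fun j hj => ?_
  have hlt := mem_range.mp hj
  have hlt' : j < (shop F L X).jobs.length := by rw [shop_len]; omega
  by_cases h : Late _ S ⟨j, hlt'⟩
  · rw [if_pos ⟨hlt', h⟩, if_neg (fun ⟨_, h'⟩ => h' h), add_zero]
  · rw [if_neg (fun ⟨_, h'⟩ => h h'), if_pos ⟨hlt', h⟩, zero_add]

end Sound

theorem jr_le {j : RJob} (hj : F.good j) : F.jr j ≤ F.bt (F.K + F.m) := by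
  have hm := F.hm
  have h := Sol.jd_le hj
  rcases j with ⟨β, z, i⟩ | ⟨β, z, i⟩ | ⟨k, x, y⟩
  · simp only [Frame.jr, Frame.jd] at *; omega
  · simp only [Frame.jr, Frame.jd] at *; omega
  · have h1 := (Sol.ext_valid hj).1
    have h2 := (Frame.tm_mem h1).2
    have h3 := Frame.bt_mono (F := F) (a := F.sblk (.st k x) + 1) (b := F.K + F.m) (by
      simp only [Frame.sblk]
      have := Frame.blk_le (F := F) k
      have := hj.2.1
      omega)
    simp only [Frame.tm, Frame.jr] at *
    omega

theorem rel_le {L : List RJob} {X : List ℕ} (hg : ∀ j ∈ L, F.good j)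
    (j : Fin (shop F L X).jobs.length) : ((shop F L X).jobs.get j).r ≤ F.bt (F.K + F.m) := by
  by_cases h : (j : ℕ) < L.length
  · rw [shop_get_left j h]
    exact jr_le (hg _ (List.getElem_mem h))
  · obtain ⟨w, hw⟩ := shop_get_right (F := F) j (by omega)
    rw [hw]
    exact Nat.zero_le _

theorem nat_sep {a b : ℕ} (h : a ≠ b) : (a : ℝ) + 1 ≤ b ∨ (b : ℝ) + 1 ≤ a := by
  rcases Nat.lt_or_gt_of_ne h with h | h
  · left; exact_mod_cast h
  · right; exact_mod_cast h

open Classical in
/-- The schedule given by natural start times for some of the jobs, with all others late. -/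
theorem exists_sched {L : List RJob} {X : List ℕ} (hg : ∀ j ∈ L, F.good j)
    (hL : L.Nodup) (P : RJob → Prop) (T : RJob → ℕ → ℕ)
    (h1 : ∀ j ∈ L, P j → ∀ i < F.m, F.jr j ≤ T j i ∧ T j i + 1 ≤ F.jd j)
    (h2 : ∀ j ∈ L, P j → ∀ i < F.m, ∀ i' < F.m, T j i = T j i' → i = i')
    (h3 : ∀ j ∈ L, P j → ∀ j' ∈ L, P j' → ∀ i < F.m, T j i = T j' i → j = j') :
    ∃ S : Schedule (shop F L X), Feasible _ S ∧ ∀ (j : ℕ) (hj : j < L.length)
      (hj' : j < (shop F L X).jobs.length), P L[j] → ¬ Late _ S ⟨j, hj'⟩ := by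
  set T0 := F.bt (F.K + F.m) with hT0
  set g : ℕ → ℕ → ℕ := fun j i =>
    if h : ∃ hj : j < L.length, P L[j] then T (L[j]'h.1) i else T0 + j * F.m + i with hg'
  have gsel : ∀ {j : ℕ} (hj : j < L.length), P L[j] → ∀ i, g j i = T L[j] i := by
    intro j hj hP i
    simp only [hg', dif_pos (⟨hj, hP⟩ : ∃ hj : j < L.length, P L[j])]
  have gnot : ∀ {j : ℕ}, (¬ ∃ hj : j < L.length, P L[j]) → ∀ i, g j i = T0 + j * F.m + i := by
    intro j hP i
    simp only [hg', dif_neg hP]
  have gle : ∀ {j : ℕ} (hj : j < L.length), P L[j] → ∀ i, i < F.m → g j i + 1 ≤ T0 := by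
    intro j hj hP i hi
    rw [gsel hj hP]
    exact le_trans (h1 _ (List.getElem_mem hj) hP i hi).2 (Sol.jd_le (hg _ (List.getElem_mem hj)))
  refine ⟨fun j i => (g j i : ℝ), ⟨?_, ?_, ?_⟩, ?_⟩
  · intro j i
    by_cases h : ∃ hj : (j : ℕ) < L.length, P L[(j : ℕ)]
    · obtain ⟨hj, hP⟩ := h
      rw [shop_get_left j hj, gsel hj hP]
      exact_mod_cast (h1 _ (List.getElem_mem hj) hP i i.2).1
    · rw [gnot h]
      have := rel_le hg j
      exact_mod_cast (by omega : ((shop F L X).jobs.get j).r ≤ T0 + j * F.m + i)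
  · intro i j j' hne
    apply nat_sep
    intro he
    apply hne
    apply Fin.ext
    by_cases h : ∃ hj : (j : ℕ) < L.length, P L[(j : ℕ)] <;>
      by_cases h' : ∃ hj : (j' : ℕ) < L.length, P L[(j' : ℕ)]
    · obtain ⟨hj, hP⟩ := h
      obtain ⟨hj', hP'⟩ := h'
      rw [gsel hj hP, gsel hj' hP'] at he
      have := h3 _ (List.getElem_mem hj) hP _ (List.getElem_mem hj') hP' i i.2 he
      exact hL.getElem_inj_iff.mp this
    · obtain ⟨hj, hP⟩ := h
      have := gle hj hP i i.2
      rw [he, gnot h'] at this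
      omega
    · obtain ⟨hj', hP'⟩ := h'
      have := gle hj' hP' i i.2
      rw [← he, gnot h] at this
      omega
    · rw [gnot h, gnot h'] at he
      have : (j : ℕ) * F.m = j' * F.m := by omega
      exact Nat.eq_of_mul_eq_mul_right F.hm this
  · intro j i i' hne
    apply nat_sep
    intro he
    apply hne
    apply Fin.ext
    by_cases h : ∃ hj : (j : ℕ) < L.length, P L[(j : ℕ)]
    · obtain ⟨hj, hP⟩ := h
      rw [gsel hj hP, gsel hj hP] at he
      exact h2 _ (List.getElem_mem hj) hP i i.2 i' i'.2 he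
    · rw [gnot h, gnot h] at he
      omega
  · intro j hj hj' hP hlate
    obtain ⟨i, hi⟩ := hlate
    rw [shop_get_left _ hj] at hi
    simp only at hi
    rw [gsel hj hP] at hi
    have := (h1 _ (List.getElem_mem hj) hP i i.2).2
    have h5 : ((T L[j] i : ℕ) : ℝ) + 1 ≤ (F.jd L[j] : ℕ) := by exact_mod_cast this
    simp only [mkJob] at hi
    linarith

/-- The value of the instance. -/
theorem opt_spec (hodd : F.m % 2 = 1) {L : List RJob} {X : List ℕ} (hg : ∀ j ∈ L, F.good j)
    (hL : L.Nodup)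
    (hloc : ∀ β z i, F.fst β = true → z < F.N → i < F.m →
      RJob.tight β z i ∈ L ∧ RJob.loose β z i ∈ L) :
    (L.map F.jw).sum + X.sum + F.Q ≤ opt (shop F L X) + F.M0 * (F.m * F.PS) ∧
    (opt (shop F L X) + F.M0 * (F.m * F.PS) = (L.map F.jw).sum + X.sum + F.Q ↔
      ∃ H : Choice F, ∀ k, 1 ≤ k → k < F.K → RJob.ext k (H.h k) (H.h (k + F.m - 1)) ∈ L) := by
  have hne : {c | ∃ S : Schedule (shop F L X), Feasible _ S ∧ tardyWeight _ S = c}.Nonempty := by
    obtain ⟨S, hS, _⟩ := exists_sched (X := X) hg hL (fun _ => False) (fun _ _ => 0)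
      (fun _ _ h => h.elim) (fun _ _ h => h.elim) (fun _ _ h => h.elim)
    exact ⟨_, S, hS, rfl⟩
  obtain ⟨S0, hS0, hopt⟩ := Nat.sInf_mem hne
  change tardyWeight _ S0 = opt (shop F L X) at hopt
  have hub : ∀ S : Sol F, ∑ j ∈ S.O, F.jw j + F.Q ≤ F.M0 * (F.m * F.PS) := by
    intro S
    by_contra h
    have := (S.sound hodd (by omega)).1
    omega
  have hw := weight_solOf F.hm hL hg hS0
  have hub0 := hub (solOf hL hg hS0)
  refine ⟨by omega, ?_, ?_⟩
  · intro he
    obtain ⟨_, h, s1, s2, s3⟩ := (solOf hL hg hS0).sound hodd (by omega)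
    refine ⟨⟨h, fun γ hγ => (s1 γ hγ).1, fun γ hγ => (s1 γ hγ).2, s2⟩, fun k hk1 hk2 => ?_⟩
    have h1 := s3 k hk1 hk2
    obtain ⟨j, hj, h2⟩ := mem_image.mp h1
    have hlt := (mem_onTime.mp hj).1
    rw [List.getD_eq_getElem _ _ hlt] at h2
    rw [← h2]
    exact List.getElem_mem hlt
  · rintro ⟨H, hH⟩
    have hHL : ∀ j ∈ H.O, j ∈ L := by
      intro j hj
      have hs := H.O_sel hj
      rcases j with ⟨β, z, i⟩ | ⟨β, z, i⟩ | ⟨k, x, y⟩
      · exact (hloc β z i hs.1 hs.2.1 hs.2.2.1).1
      · exact (hloc β z i hs.1 hs.2.1 hs.2.2.1).2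
      · obtain ⟨h1, h2, rfl, rfl⟩ := hs
        exact hH k h1 h2
    obtain ⟨S, hS, hon⟩ := exists_sched (X := X) hg hL (fun j => H.sel j)
      (fun j i => F.tm (H.A j i))
      (fun j _ hP i hi => H.A_window hP hi)
      (fun j _ hP i hi i' hi' he => H.A_inj_machine hodd hP hi hi'
        (Frame.tm_inj (H.A_valid hP hi) (H.A_valid hP hi') he))
      (fun j _ hP j' _ hP' i hi he => H.A_inj_job hP hP' hi
        (Frame.tm_inj (H.A_valid hP hi) (H.A_valid hP' hi) he))
    have hsub : H.O ⊆ (solOf hL hg hS).O := by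
      intro j hj
      have hjL := hHL j hj
      have hlt := List.idxOf_lt_length_of_mem hjL
      refine mem_image.mpr ⟨L.idxOf j, mem_onTime.mpr ⟨hlt, by rw [shop_len]; omega, ?_⟩, ?_⟩
      · refine hon _ hlt _ ?_
        rw [List.getElem_idxOf]
        exact H.O_sel hj
      · rw [List.getD_eq_getElem _ _ hlt, List.getElem_idxOf]
    have h1 := weight_solOf F.hm hL hg hS
    have h2 := Finset.sum_le_sum_of_subset (f := F.jw) hsub
    have h3 := H.sum_w
    have h4 : opt (shop F L X) ≤ tardyWeight _ S := Nat.sInf_le ⟨S, hS, rfl⟩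
    omega

end Pool.Agent.OpenShop
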