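import Mathlib
import Pool.Agent.OpenShop.Bridge

/-!
# The frame of a clique instance
-/

namespace Pool.Agent.OpenShop

open Finset

theorem dm (m a j : ℕ) (hj : j < m) : (m * a + j) / m = a ∧ (m * a + j) % m = j := by
  have hm : 0 < m := by omega
  constructor
  · rw [Nat.mul_add_div hm, Nat.div_eq_of_lt hj, add_zero]
  · rw [Nat.mul_add_mod, Nat.mod_eq_of_lt hj]

theorem dm_eq (m ν : ℕ) (hm : 0 < m) : ∃ a j, j < m ∧ ν = m * a + j :=
  ⟨ν / m, ν % m, Nat.mod_lt _ hm, (Nat.div_add_mod ν m).symm⟩

/-- first index of a region -/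
def isFst (k ν : ℕ) : Prop :=
  2 ≤ ν / (2 * k + 1) ∧ ν / (2 * k + 1) < k + 2 ∧ ν % (2 * k + 1) < 2 * k ∧
    ν % (2 * k + 1) % 2 = 0

instance (k ν : ℕ) : Decidable (isFst k ν) := by unfold isFst; infer_instance

theorem isFst_mk {k a j : ℕ} (hj : j < 2 * k + 1) :
    isFst k ((2 * k + 1) * a + j) ↔ 2 ≤ a ∧ a < k + 2 ∧ j < 2 * k ∧ j % 2 = 0 := by
  unfold isFst
  obtain ⟨h1, h2⟩ := dm (2 * k + 1) a j hj
  rw [h1, h2]

/-- The frame for cliques of size `k` in graphs with `n` vertices. -/
def frame (k n : ℕ) : Frame where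
  m := 2 * k + 1
  N := n * n
  K := (2 * k + 1) * (k + 2)
  fst := fun ν => decide (isFst k ν)
  hm := by omega
  hK := by nlinarith
  h1 := by
    intro ν hν
    obtain ⟨a, j, hj, rfl⟩ := dm_eq (2 * k + 1) ν (by omega)
    have h := (isFst_mk hj).mp (of_decide_eq_true hν)
    rw [decide_eq_false_iff_not, add_assoc, isFst_mk (by omega)]
    omega
  h2 := by
    intro ν hν
    obtain ⟨a, j, hj, rfl⟩ := dm_eq (2 * k + 1) ν (by omega)
    obtain ⟨h1, h2, h3, h4⟩ := (isFst_mk hj).mp (of_decide_eq_true hν)
    constructor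
    · have : (2 * k + 1) * 2 ≤ (2 * k + 1) * a := Nat.mul_le_mul_left _ h1
      omega
    · have : (2 * k + 1) * (a + 1) ≤ (2 * k + 1) * (k + 2) := Nat.mul_le_mul_left _ (by omega)
      rw [Nat.mul_add, mul_one] at this
      omega
  h3 := by
    intro ν hν
    obtain ⟨a, j, hj, rfl⟩ := dm_eq (2 * k + 1) ν (by omega)
    have h := (isFst_mk hj).mp (of_decide_eq_true hν)
    omega

theorem fst_mk {k n a j : ℕ} (hj : j < 2 * k + 1) :
    (frame k n).fst ((2 * k + 1) * a + j) = true ↔ 2 ≤ a ∧ a < k + 2 ∧ j < 2 * k ∧ j % 2 = 0 := by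
  show decide _ = true ↔ _
  rw [decide_eq_true_eq, isFst_mk hj]

theorem snd_mk {k n a j : ℕ} (hj : j < 2 * k + 1) :
    (frame k n).snd ((2 * k + 1) * a + j) = true ↔ 2 ≤ a ∧ a < k + 2 ∧ j < 2 * k ∧ j % 2 = 1 := by
  rcases j with _ | j
  · rw [add_zero]
    constructor
    · intro h
      exfalso
      rcases a with _ | a
      · rw [mul_zero] at h
        simp [Frame.snd] at h
      · rw [show (2 * k + 1) * (a + 1) = ((2 * k + 1) * a + 2 * k) + 1 by ring,
          Frame.snd_succ, fst_mk (by omega)] at h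
        omega
    · intro h; omega
  · rw [show (2 * k + 1) * a + (j + 1) = ((2 * k + 1) * a + j) + 1 by ring, Frame.snd_succ,
      fst_mk (by omega)]
    omega

theorem reg_mk {k n a j : ℕ} (hj : j < 2 * k + 1) :
    (frame k n).reg ((2 * k + 1) * a + j) = true ↔ 2 ≤ a ∧ a < k + 2 ∧ j < 2 * k := by
  rw [Frame.reg_iff, fst_mk hj, snd_mk hj]
  omega

/-- Constraint of a region. -/
def node (k n : ℕ) (adj : ℕ → ℕ → Prop) (κ x : ℕ) : Prop :=
  (κ / (2 * k + 1) = 2 → x / n = x % n) ∧
  (2 < κ / (2 * k + 1) → κ / (2 * k + 1) + κ % (2 * k + 1) / 2 < k + 2 → adj (x / n) (x % n))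

/-- Constraint between two regions. -/
def link (k n κ x y : ℕ) : Prop :=
  (κ % (2 * k + 1) % 2 = 1 → x / n = y / n) ∧ (κ % (2 * k + 1) % 2 = 0 → x % n = y % n)

/-- Admissible external jobs. -/
def okRel (k n : ℕ) (adj : ℕ → ℕ → Prop) (κ x y : ℕ) : Prop :=
  ((frame k n).reg κ = true → node k n adj κ x) ∧
  ((frame k n).reg κ = true → (frame k n).reg (κ + (2 * k + 1) - 1) = true → link k n κ x y)

/-- The choices of zones satisfying all constraints correspond to cliques. -/
theorem csp_iff (k n : ℕ) (adj : ℕ → ℕ → Prop) :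
    (∃ H : Choice (frame k n), ∀ κ, 1 ≤ κ → κ < (frame k n).K →
      okRel k n adj κ (H.h κ) (H.h (κ + (frame k n).m - 1))) ↔
    ∃ u : ℕ → ℕ, (∀ b < k, u b < n) ∧ ∀ b d, b < d → d < k → adj (u b) (u d) := by
  constructor
  · rintro ⟨H, hH⟩
    set h := H.h with hh
    set m := 2 * k + 1 with hm
    have hK : (frame k n).K = m * (k + 2) := rfl
    have hhs : ∀ α b, α < k → b < k → h (m * (α + 2) + (2 * b + 1)) = h (m * (α + 2) + 2 * b) := by
      intro α b hα hb
      have : (frame k n).fst (m * (α + 2) + 2 * b) = true := (fst_mk (by omega)).mpr (by omega)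
      exact H.hs _ this
    have hlt : ∀ α j, α < k → j < m → 1 ≤ m * (α + 2) + j ∧ m * (α + 2) + j < (frame k n).K := by
      intro α j hα hj
      rw [hK]
      have h1 : m * (α + 2 + 1) ≤ m * (k + 2) := Nat.mul_le_mul_left _ (by omega)
      rw [Nat.mul_add m (α + 2) 1, mul_one] at h1
      have h2 : m * 2 ≤ m * (α + 2) := Nat.mul_le_mul_left _ (by omega)
      omega
    have hnode : ∀ α b, α < k → b < k →
        node k n adj (m * (α + 2) + 2 * b) (h (m * (α + 2) + 2 * b)) := by
      intro α b hα hb
      obtain ⟨h1, h2⟩ := hlt α (2 * b) hα (by omega)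
      exact (hH _ h1 h2).1 ((reg_mk (by omega)).mpr (by omega))
    have hnode1 : ∀ b, b < k → h (m * 2 + 2 * b) / n = h (m * 2 + 2 * b) % n := by
      intro b hb
      have := (hnode 0 b (by omega) hb).1
      rw [show 0 + 2 = 2 by rfl] at this
      exact this (dm m 2 (2 * b) (by omega)).1
    have hnode2 : ∀ α b, 1 ≤ α → α + b < k →
        adj (h (m * (α + 2) + 2 * b) / n) (h (m * (α + 2) + 2 * b) % n) := by
      intro α b hα hb
      have := (hnode α b (by omega) (by omega)).2
      obtain ⟨h1, h2⟩ := dm m (α + 2) (2 * b) (by omega)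
      rw [← hm, h1, h2] at this
      exact this (by omega) (by omega)
    have hstr : ∀ α b, α + 1 < k → b < k →
        h (m * (α + 2) + 2 * b) / n = h (m * (α + 1 + 2) + 2 * b) / n := by
      intro α b hα hb
      obtain ⟨h1, h2⟩ := hlt α (2 * b + 1) (by omega) (by omega)
      have h3 := (hH _ h1 h2).2 ((reg_mk (by omega)).mpr (by omega))
      have h4 : m * (α + 2) + (2 * b + 1) + m - 1 = m * (α + 1 + 2) + 2 * b := by
        have : m * (α + 1 + 2) = m * (α + 2) + m := by ring
        omega
      have h4' : m * (α + 2) + (2 * b + 1) + (2 * k + 1) - 1 = m * (α + 1 + 2) + 2 * b := h4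
      have h4'' : m * (α + 2) + (2 * b + 1) + (frame k n).m - 1 = m * (α + 1 + 2) + 2 * b := h4
      rw [h4', h4''] at h3
      have h5 := (h3 ((reg_mk (by omega)).mpr (by omega))).1
      rw [hhs α b (by omega) hb] at h5
      exact h5 (by rw [← hm, (dm m (α + 2) (2 * b + 1) (by omega)).2]; omega)
    have hcross : ∀ α b, α + 1 < k → b + 1 < k →
        h (m * (α + 2) + 2 * (b + 1)) % n = h (m * (α + 1 + 2) + 2 * b) % n := by
      intro α b hα hb
      obtain ⟨h1, h2⟩ := hlt α (2 * (b + 1)) (by omega) (by omega)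
      have h3 := (hH _ h1 h2).2 ((reg_mk (by omega)).mpr (by omega))
      have h4 : m * (α + 2) + (2 * (b + 1)) + m - 1 = m * (α + 1 + 2) + (2 * b + 1) := by
        have : m * (α + 1 + 2) = m * (α + 2) + m := by ring
        omega
      have h4' : m * (α + 2) + (2 * (b + 1)) + (2 * k + 1) - 1 =
        m * (α + 1 + 2) + (2 * b + 1) := h4
      have h4'' : m * (α + 2) + (2 * (b + 1)) + (frame k n).m - 1 =
        m * (α + 1 + 2) + (2 * b + 1) := h4
      rw [h4', h4''] at h3
      have h5 := (h3 ((reg_mk (by omega)).mpr (by omega))).2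
      rw [hhs (α + 1) b (by omega) (by omega)] at h5
      exact h5 (by rw [← hm, (dm m (α + 2) (2 * (b + 1)) (by omega)).2]; omega)
    have hU : ∀ α b, α < k → b < k → h (m * (α + 2) + 2 * b) / n = h (m * 2 + 2 * b) / n := by
      intro α
      induction α with
      | zero => intro b _ _; rfl
      | succ α ih =>
        intro b hα hb
        rw [← hstr α b hα hb, ih b (by omega) hb]
    have hV : ∀ α b, α + b < k → h (m * (α + 2) + 2 * b) % n = h (m * 2 + 2 * (α + b)) % n := by
      intro α
      induction α with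
      | zero => intro b _; rw [zero_add, zero_add]
      | succ α ih =>
        intro b hα
        rw [← hcross α b (by omega) (by omega), ih (b + 1) (by omega)]
        congr 3
        omega
    refine ⟨fun b => h (m * 2 + 2 * b) / n, ?_, ?_⟩
    · intro b hb
      have : (frame k n).fst (m * 2 + 2 * b) = true := (fst_mk (by omega)).mpr (by omega)
      have h1 : h (m * 2 + 2 * b) < n * n := H.hN _ this
      exact Nat.div_lt_of_lt_mul h1
    · intro b d hbd hd
      have h1 := hnode2 (d - b) b (by omega) (by omega)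
      rw [hU (d - b) b (by omega) (by omega), hV (d - b) b (by omega),
        show d - b + b = d by omega, ← hnode1 d hd] at h1
      exact h1
  · rintro ⟨u, hu, hadj⟩
    set m := 2 * k + 1 with hm
    -- zone of a region index
    let v : ℕ → ℕ → ℕ := fun a b => if a + b < k + 2 then u (a + b - 2) else 0
    let h : ℕ → ℕ := fun ν => if (frame k n).reg ν = true then
      u (ν % m / 2) * n + v (ν / m) (ν % m / 2) else 0
    have hval : ∀ a j, 2 ≤ a → a < k + 2 → j < 2 * k →
        h (m * a + j) = u (j / 2) * n + v a (j / 2) := by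
      intro a j h1 h2 h3
      have hr : (frame k n).reg (m * a + j) = true := (reg_mk (by omega)).mpr ⟨h1, h2, h3⟩
      obtain ⟨h4, h5⟩ := dm m a j (by omega)
      show (if (frame k n).reg (m * a + j) = true then _ else _) = _
      rw [if_pos hr, h4, h5]
    have hv : ∀ a b, 2 ≤ a → b < k → v a b < n := by
      intro a b ha hb
      have h0 := hu 0 (by omega)
      show (if a + b < k + 2 then u (a + b - 2) else 0) < n
      split_ifs with h1
      · exact hu _ (by omega)
      · omega
    have hdiv : ∀ a b, 2 ≤ a → b < k → (u b * n + v a b) / n = u b ∧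
        (u b * n + v a b) % n = v a b := by
      intro a b ha hb
      rw [mul_comm]
      exact dm n (u b) (v a b) (hv a b ha hb)
    let H : Choice (frame k n) :=
      { h := h
        hN := by
          intro γ hγ
          obtain ⟨a, j, hj, rfl⟩ := dm_eq m γ (by omega)
          obtain ⟨h1, h2, h3, h4⟩ := (fst_mk hj).mp hγ
          rw [hval a j h1 h2 h3]
          have h5 := hv a (j / 2) h1 (by omega)
          have h6 := hu (j / 2) (by omega)
          have h7 : (u (j / 2) + 1) * n ≤ n * n := Nat.mul_le_mul_right _ h6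
          rw [Nat.add_mul, one_mul] at h7
          show u (j / 2) * n + v a (j / 2) < n * n
          omega
        hs := by
          intro γ hγ
          obtain ⟨a, j, hj, rfl⟩ := dm_eq m γ (by omega)
          obtain ⟨h1, h2, h3, h4⟩ := (fst_mk hj).mp hγ
          rw [add_assoc, hval a j h1 h2 h3, hval a (j + 1) h1 h2 (by omega),
            show (j + 1) / 2 = j / 2 by omega]
        h0 := by
          intro ν hν
          show (if (frame k n).reg ν = true then _ else _) = _
          rw [hν]
          simp }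
    refine ⟨H, ?_⟩
    intro κ hκ1 hκ2
    obtain ⟨a, j, hj, rfl⟩ := dm_eq m κ (by omega)
    obtain ⟨e1, e2⟩ := dm m a j hj
    constructor
    · intro hr
      obtain ⟨h1, h2, h3⟩ := (reg_mk hj).mp hr
      show node k n adj (m * a + j) (h (m * a + j))
      rw [hval a j h1 h2 h3]
      obtain ⟨h4, h5⟩ := hdiv a (j / 2) h1 (by omega)
      unfold node
      rw [h4, h5, ← hm, e1, e2]
      constructor
      · intro ha
        show _ = if a + j / 2 < k + 2 then u (a + j / 2 - 2) else 0
        rw [if_pos (by omega)]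
        congr 1
        omega
      · intro ha hb
        show adj _ (if a + j / 2 < k + 2 then u (a + j / 2 - 2) else 0)
        rw [if_pos hb]
        exact hadj _ _ (by omega) (by omega)
    · intro hr hr'
      obtain ⟨h1, h2, h3⟩ := (reg_mk hj).mp hr
      have hj1 : 1 ≤ j := by
        by_contra hj0
        have hj0' : j = 0 := by omega
        rw [hj0', show m * a + 0 + m - 1 = m * a + (m - 1) by omega, reg_mk (by omega)] at hr'
        omega
      have he : m * a + j + m - 1 = m * (a + 1) + (j - 1) := by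
        rw [Nat.mul_add, mul_one]; omega
      rw [he, reg_mk (by omega)] at hr'
      obtain ⟨h1', h2', h3'⟩ := hr'
      show link k n (m * a + j) (h (m * a + j)) (h (m * a + j + m - 1))
      rw [he, hval a j h1 h2 h3, hval (a + 1) (j - 1) h1' h2' h3']
      obtain ⟨h4, h5⟩ := hdiv a (j / 2) h1 (by omega)
      obtain ⟨h6, h7⟩ := hdiv (a + 1) ((j - 1) / 2) h1' (by omega)
      unfold link
      rw [h4, h5, h6, h7, ← hm, e2]
      constructor
      · intro hodd
        rw [show (j - 1) / 2 = j / 2 by omega]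
      · intro heven
        show (if a + j / 2 < k + 2 then u (a + j / 2 - 2) else 0) =
          if a + 1 + (j - 1) / 2 < k + 2 then u (a + 1 + (j - 1) / 2 - 2) else 0
        rw [show a + 1 + (j - 1) / 2 = a + j / 2 by omega]

end Pool.Agent.OpenShop
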