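import Mathlib
import Pool.Agent.OpenShop.Clique

/-!
# The instance of a graph
-/

namespace Pool.Agent.OpenShop

open Finset

section Lists

variable (F : Frame) (ok : ℕ → ℕ → ℕ → Prop) [∀ κ x y, Decidable (ok κ x y)]

/-- the jobs of the zones -/
def realZ : List RJob := (List.range F.K).flatMap fun β =>
  if F.fst β = true then (List.range F.N).flatMap fun z => (List.range F.m).flatMap fun i =>
    [RJob.tight β z i, RJob.loose β z i] else []

/-- the external jobs -/
def realE : List RJob := (List.range F.K).flatMap fun κ =>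
  if 1 ≤ κ then (List.range (F.ns κ)).flatMap fun x =>
    (List.range (F.ns (κ + F.m - 1))).flatMap fun y =>
      if ok κ x y then [RJob.ext κ x y] else [] else []

/-- the real jobs -/
def real : List RJob := realZ F ++ realE F ok

variable {F}

theorem lt_ns {ν x : ℕ} : x < F.ns ν ↔ (F.reg ν = true → x < F.N) ∧ (F.reg ν = false → x = 0) := by
  unfold Frame.ns
  by_cases h : F.reg ν = true
  · simp [h]
  · simp [h]

theorem mem_realZ {j : RJob} : j ∈ realZ F ↔
    match j with
    | .tight β z i => F.fst β = true ∧ z < F.N ∧ i < F.m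
    | .loose β z i => F.fst β = true ∧ z < F.N ∧ i < F.m
    | .ext _ _ _ => False := by
  unfold realZ
  simp only [List.mem_flatMap, List.mem_range]
  constructor
  · rintro ⟨β, hβ, h⟩
    split_ifs at h with hf
    · simp only [List.mem_flatMap, List.mem_range] at h
      obtain ⟨z, hz, i, hi, h⟩ := h
      simp only [List.mem_cons, List.not_mem_nil, or_false] at h
      rcases h with rfl | rfl
      · exact ⟨hf, hz, hi⟩
      · exact ⟨hf, hz, hi⟩
    · simp at h
  · intro h
    rcases j with ⟨β, z, i⟩ | ⟨β, z, i⟩ | ⟨k, x, y⟩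
    · obtain ⟨h1, h2, h3⟩ := h
      refine ⟨β, by have := F.h2 β h1; omega, ?_⟩
      rw [if_pos h1]
      simp only [List.mem_flatMap, List.mem_range]
      exact ⟨z, h2, i, h3, by simp⟩
    · obtain ⟨h1, h2, h3⟩ := h
      refine ⟨β, by have := F.h2 β h1; omega, ?_⟩
      rw [if_pos h1]
      simp only [List.mem_flatMap, List.mem_range]
      exact ⟨z, h2, i, h3, by simp⟩
    · exact h.elim

theorem mem_realE {j : RJob} : j ∈ realE F ok ↔
    match j with
    | .tight _ _ _ => False
    | .loose _ _ _ => False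
    | .ext κ x y => F.good (.ext κ x y) ∧ ok κ x y := by
  unfold realE
  simp only [List.mem_flatMap, List.mem_range]
  constructor
  · rintro ⟨κ, hκ, h⟩
    split_ifs at h with hf
    · simp only [List.mem_flatMap, List.mem_range] at h
      obtain ⟨x, hx, y, hy, h⟩ := h
      split_ifs at h with hok
      · simp only [List.mem_cons, List.not_mem_nil, or_false] at h
        subst h
        obtain ⟨a1, a2⟩ := lt_ns.mp hx
        obtain ⟨b1, b2⟩ := lt_ns.mp hy
        exact ⟨⟨hf, hκ, a1, a2, b1, b2⟩, hok⟩
      · simp at h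
    · simp at h
  · intro h
    rcases j with ⟨β, z, i⟩ | ⟨β, z, i⟩ | ⟨κ, x, y⟩
    · exact h.elim
    · exact h.elim
    · obtain ⟨⟨h1, h2, a1, a2, b1, b2⟩, hok⟩ := h
      refine ⟨κ, h2, ?_⟩
      rw [if_pos h1]
      simp only [List.mem_flatMap, List.mem_range]
      exact ⟨x, lt_ns.mpr ⟨a1, a2⟩, y, lt_ns.mpr ⟨b1, b2⟩, by rw [if_pos hok]; simp⟩

theorem real_good : ∀ j ∈ real F ok, F.good j := by
  intro j hj
  rcases List.mem_append.mp hj with h | h
  · have h' := mem_realZ.mp h
    rcases j with ⟨β, z, i⟩ | ⟨β, z, i⟩ | ⟨κ, x, y⟩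
    · exact h'
    · exact h'
    · exact h'.elim
  · have h' := (mem_realE ok).mp h
    rcases j with ⟨β, z, i⟩ | ⟨β, z, i⟩ | ⟨κ, x, y⟩
    · exact h'.elim
    · exact h'.elim
    · exact h'.1

theorem real_loc (β z i : ℕ) (h : F.fst β = true) (hz : z < F.N) (hi : i < F.m) :
    RJob.tight β z i ∈ real F ok ∧ RJob.loose β z i ∈ real F ok :=
  ⟨List.mem_append_left _ (mem_realZ.mpr ⟨h, hz, hi⟩),
    List.mem_append_left _ (mem_realZ.mpr ⟨h, hz, hi⟩)⟩

theorem ext_mem_real {κ x y : ℕ} : RJob.ext κ x y ∈ real F ok ↔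
    F.good (.ext κ x y) ∧ ok κ x y := by
  unfold real
  rw [List.mem_append, mem_realZ, mem_realE]
  simp

theorem nodup_fm {T : Type} {C : ℕ} {f : ℕ → List T} (key : T → ℕ)
    (h1 : ∀ i < C, (f i).Nodup) (h2 : ∀ i < C, ∀ j ∈ f i, key j = i) :
    ((List.range C).flatMap f).Nodup := by
  rw [List.nodup_flatMap]
  refine ⟨fun i hi => h1 i (List.mem_range.mp hi), ?_⟩
  refine List.Nodup.pairwise_of_forall_ne List.nodup_range ?_
  intro a ha b hb hab
  rw [Function.onFun, List.disjoint_left]
  intro j hj hj'
  exact hab ((h2 a (List.mem_range.mp ha) j hj).symm.trans (h2 b (List.mem_range.mp hb) j hj'))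

/-- components -/
def RJob.c1 : RJob → ℕ
  | .tight β _ _ => β
  | .loose β _ _ => β
  | .ext κ _ _ => κ

def RJob.c2 : RJob → ℕ
  | .tight _ z _ => z
  | .loose _ z _ => z
  | .ext _ x _ => x

def RJob.c3 : RJob → ℕ
  | .tight _ _ i => i
  | .loose _ _ i => i
  | .ext _ _ y => y

theorem nodup_realZ : (realZ F).Nodup := by
  unfold realZ
  refine nodup_fm RJob.c1 ?_ ?_
  · intro β _
    split_ifs
    · refine nodup_fm RJob.c2 ?_ ?_
      · intro z _
        refine nodup_fm RJob.c3 ?_ ?_
        · intro i _
          simp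
        · intro i _ j hj
          simp only [List.mem_cons, List.not_mem_nil, or_false] at hj
          rcases hj with rfl | rfl <;> rfl
      · intro z _ j hj
        simp only [List.mem_flatMap] at hj
        obtain ⟨i, _, hj⟩ := hj
        simp only [List.mem_cons, List.not_mem_nil, or_false] at hj
        rcases hj with rfl | rfl <;> rfl
    · simp
  · intro β _ j hj
    split_ifs at hj
    · simp only [List.mem_flatMap] at hj
      obtain ⟨z, _, i, _, hj⟩ := hj
      simp only [List.mem_cons, List.not_mem_nil, or_false] at hj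
      rcases hj with rfl | rfl <;> rfl
    · simp at hj

theorem nodup_realE : (realE F ok).Nodup := by
  unfold realE
  refine nodup_fm RJob.c1 ?_ ?_
  · intro κ _
    split_ifs
    · refine nodup_fm RJob.c2 ?_ ?_
      · intro x _
        refine nodup_fm RJob.c3 ?_ ?_
        · intro y _
          split_ifs <;> simp
        · intro y _ j hj
          split_ifs at hj
          · simp only [List.mem_cons, List.not_mem_nil, or_false] at hj
            subst hj; rfl
          · simp at hj
      · intro x _ j hj
        simp only [List.mem_flatMap] at hj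
        obtain ⟨y, _, hj⟩ := hj
        split_ifs at hj
        · simp only [List.mem_cons, List.not_mem_nil, or_false] at hj
          subst hj; rfl
        · simp at hj
    · simp
  · intro κ _ j hj
    split_ifs at hj
    · simp only [List.mem_flatMap] at hj
      obtain ⟨x, _, y, _, hj⟩ := hj
      split_ifs at hj
      · simp only [List.mem_cons, List.not_mem_nil, or_false] at hj
        subst hj; rfl
      · simp at hj
    · simp at hj

theorem nodup_real : (real F ok).Nodup := by
  unfold real
  rw [List.nodup_append]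
  refine ⟨nodup_realZ, nodup_realE ok, ?_⟩
  intro a ha b hb hab
  subst hab
  have h1 := mem_realZ.mp ha
  have h2 := (mem_realE ok).mp hb
  rcases a with ⟨β, z, i⟩ | ⟨β, z, i⟩ | ⟨κ, x, y⟩
  · exact h2
  · exact h2
  · exact h1

end Lists

/-! ### The always tardy jobs -/

section Extra

variable (F : Frame)

/-- half of the exponent of the scale of the output -/
def sHalf (l : ℕ) : ℕ := F.W * F.K + F.m * F.PS + l + 2 * F.m

/-- weights of the always tardy jobs -/
def extraW (L : List RJob) : List ℕ :=
  L.map (fun j => 2 ^ (2 * sHalf F L.length) - F.jw j) ++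
    (List.range (F.m * F.PS)).map
      (fun p => F.M0 - if p + 1 < F.K then F.rc (p + 1) else 0)

variable {F}

theorem pow_ge {a b : ℕ} (h : a ≤ b) : 2 ^ a ≤ 2 ^ b := Nat.pow_le_pow_right (by norm_num) h

theorem jw_lt {j : RJob} (l : ℕ) : F.jw j < 2 ^ (2 * sHalf F l) := by
  have h1 : F.jb j ≤ 2 * F.m := by
    rcases j with ⟨β, z, i⟩ | ⟨β, z, i⟩ | ⟨κ, x, y⟩
    · exact le_rfl
    · show 2 * F.m - 2 ≤ _; omega
    · show F.m - (F.m - κ) - (κ + F.m - F.K) ≤ _; omega
  have h2 : F.jw j ≤ F.M0 * (2 * F.m) :=
    le_trans (Nat.sub_le _ _) (Nat.mul_le_mul_left _ h1)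
  have h3 : F.M0 * (2 * F.m) < 2 ^ (F.W * F.K) * 2 ^ (2 * F.m) :=
    Nat.mul_lt_mul_of_pos_left Nat.lt_two_pow_self (by unfold Frame.M0; positivity)
  rw [← pow_add] at h3
  refine lt_of_le_of_lt h2 (lt_of_lt_of_le h3 (pow_ge ?_))
  unfold sHalf; omega

theorem rc_le {ν : ℕ} : F.rc ν ≤ F.M0 := by
  unfold Frame.rc Frame.M0
  split_ifs
  · exact Nat.zero_le _
  · exact pow_ge (Nat.mul_le_mul_left _ (Nat.sub_le _ _))

theorem PS_ge : F.m ≤ F.PS := by
  unfold Frame.PS
  have hK := F.hK
  have h1 : ∑ ν ∈ Ico F.m (2 * F.m), 1 ≤ ∑ ν ∈ range F.K, ((if F.m ≤ ν then F.ns ν else 0) +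
      (if F.fst ν = true then 2 * (F.N * F.m) else 0)) := by
    refine le_trans (Finset.sum_le_sum (f := fun _ => 1) (g := fun ν =>
      ((if F.m ≤ ν then F.ns ν else 0) + (if F.fst ν = true then 2 * (F.N * F.m) else 0))) ?_)
      (Finset.sum_le_sum_of_subset ?_)
    · intro ν hν
      rw [mem_Ico] at hν
      have hr : F.reg ν = false := by
        by_contra h
        have := Frame.reg_lt (by simpa using h : F.reg ν = true)
        omega
      rw [if_pos hν.1]
      unfold Frame.ns
      rw [hr]
      simp
    · intro ν hν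
      rw [mem_Ico] at hν
      rw [mem_range]
      omega
  simp only [sum_const, Nat.card_Ico, smul_eq_mul, mul_one] at h1
  omega

theorem sum_add_sub {T : Type} (L : List T) (f : T → ℕ) (A : ℕ) (h : ∀ j ∈ L, f j ≤ A) :
    (L.map f).sum + (L.map (fun j => A - f j)).sum = L.length * A := by
  induction L with
  | nil => simp
  | cons a l ih =>
    have h1 := ih (fun j hj => h j (List.mem_cons_of_mem _ hj))
    have h2 := h a (by simp)
    simp only [List.map_cons, List.sum_cons, List.length_cons]
    rw [Nat.add_mul, one_mul, ← h1]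
    omega

theorem sum_map_range (f : ℕ → ℕ) (C : ℕ) : ((List.range C).map f).sum = ∑ i ∈ range C, f i := by
  induction C with
  | zero => rfl
  | succ C ih => rw [List.range_succ, List.map_append, List.sum_append, Finset.sum_range_succ, ih]; simp

theorem extra_sum (L : List RJob) (hK : F.K ≤ F.m * F.PS + 1) :
    (L.map F.jw).sum + (extraW F L).sum + F.Q =
      L.length * 2 ^ (2 * sHalf F L.length) + F.M0 * (F.m * F.PS) := by
  unfold extraW
  rw [List.sum_append]
  have h1 := sum_add_sub L F.jw (2 ^ (2 * sHalf F L.length)) (fun j _ => (jw_lt L.length).le)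
  have h2 := sum_add_sub (List.range (F.m * F.PS)) (fun p => if p + 1 < F.K then F.rc (p + 1) else 0)
    F.M0 (fun p _ => by
      show (if p + 1 < F.K then F.rc (p + 1) else 0) ≤ _
      split_ifs
      · exact rc_le
      · exact Nat.zero_le _)
  rw [List.length_range] at h2
  have h3 : ((List.range (F.m * F.PS)).map
      (fun p => if p + 1 < F.K then F.rc (p + 1) else 0)).sum = F.Q := by
    rw [sum_map_range]
    unfold Frame.Q
    rw [← Finset.sum_filter, Finset.sum_Ico_eq_sum_range]
    have : (range (F.m * F.PS)).filter (fun p => p + 1 < F.K) = range (F.K - 1) := by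
      ext p
      rw [mem_filter, mem_range, mem_range]
      omega
    rw [this]
    exact sum_congr rfl fun p _ => by rw [add_comm]
  rw [h3] at h2
  have h4 := Nat.mul_comm (F.m * F.PS) F.M0
  omega

end Extra

/-- The maximum of the objective is the sum of all weights. -/
theorem opt_le (F : Frame) {L : List RJob} {X : List ℕ} (hg : ∀ j ∈ L, F.good j)
    (hL : L.Nodup) : opt (shop F L X) ≤ (L.map F.jw).sum + X.sum := by
  obtain ⟨S, hS, _⟩ := exists_sched (X := X) hg hL (fun _ => False) (fun _ _ => 0)
    (fun _ _ h => h.elim) (fun _ _ h => h.elim) (fun _ _ h => h.elim)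
  have h1 := weight_solOf F.hm hL hg hS
  have h2 : opt (shop F L X) ≤ tardyWeight _ S := Nat.sInf_le ⟨S, hS, rfl⟩
  omega

/-! ### The instance of a graph -/

section Graph

variable (k n : ℕ) (bit : ℕ → Prop) [DecidablePred bit]

/-- adjacency from the matrix -/
def adjOf (n : ℕ) (bit : ℕ → Prop) (u v : ℕ) : Prop := bit (u * n + v)

instance (u v : ℕ) : Decidable (adjOf n bit u v) := by unfold adjOf; infer_instance

instance (κ x : ℕ) : Decidable (node k n (adjOf n bit) κ x) := by unfold node; infer_instance

instance (κ x y : ℕ) : Decidable (link k n κ x y) := by unfold link; infer_instance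

instance (κ x y : ℕ) : Decidable (okRel k n (adjOf n bit) κ x y) := by
  unfold okRel; infer_instance

/-- real jobs of the instance -/
def jobsOf : List RJob := real (frame k n) (okRel k n (adjOf n bit))

/-- the open shop instance of a graph -/
def inst : Shop := shop (frame k n) (jobsOf k n bit) (extraW (frame k n) (jobsOf k n bit))

/-- the bound of the instance of a graph -/
def bound : ℕ := (jobsOf k n bit).length * 2 ^ (2 * sHalf (frame k n) (jobsOf k n bit).length)

theorem frame_K : (frame k n).K ≤ (frame k n).m * (frame k n).PS + 1 := by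
  have h1 : (frame k n).m * (frame k n).m ≤ (frame k n).m * (frame k n).PS :=
    Nat.mul_le_mul_left _ PS_ge
  have h2 : (frame k n).K ≤ (frame k n).m * (frame k n).m + 1 := by
    show (2 * k + 1) * (k + 2) ≤ (2 * k + 1) * (2 * k + 1) + 1
    rcases k with _ | k
    · norm_num
    · have : (2 * (k + 1) + 1) * (k + 1 + 2) ≤ (2 * (k + 1) + 1) * (2 * (k + 1) + 1) :=
        Nat.mul_le_mul_left _ (by omega)
      omega
  omega

theorem inst_opt : bound k n bit ≤ opt (inst k n bit) ∧
    (opt (inst k n bit) = bound k n bit ↔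
      ∃ u : ℕ → ℕ, (∀ b < k, u b < n) ∧ ∀ b d, b < d → d < k → bit (u b * n + u d)) := by
  have hodd : (frame k n).m % 2 = 1 := by
    show (2 * k + 1) % 2 = 1
    omega
  have h := opt_spec (F := frame k n) (X := extraW (frame k n) (jobsOf k n bit)) hodd
    (real_good (okRel k n (adjOf n bit))) (nodup_real (okRel k n (adjOf n bit)))
    (real_loc (okRel k n (adjOf n bit)))
  have hs := extra_sum (F := frame k n) (jobsOf k n bit) (frame_K k n)
  unfold bound inst
  change _ ≤ opt (shop (frame k n) (jobsOf k n bit) _) + _ ∧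
    (opt (shop (frame k n) (jobsOf k n bit) _) + _ = _ ↔ _) at h
  change (List.map (frame k n).jw (jobsOf k n bit)).sum + _ + _ ≤ _ ∧
    (_ = (List.map (frame k n).jw (jobsOf k n bit)).sum + _ + _ ↔ _) at h
  obtain ⟨h1, h2⟩ := h
  refine ⟨by omega, ?_⟩
  have h3 : (opt (shop (frame k n) (jobsOf k n bit) (extraW (frame k n) (jobsOf k n bit))) =
      (jobsOf k n bit).length * 2 ^ (2 * sHalf (frame k n) (jobsOf k n bit).length)) ↔
      (opt (shop (frame k n) (jobsOf k n bit) (extraW (frame k n) (jobsOf k n bit))) +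
        (frame k n).M0 * ((frame k n).m * (frame k n).PS) =
        (List.map (frame k n).jw (jobsOf k n bit)).sum +
          (extraW (frame k n) (jobsOf k n bit)).sum + (frame k n).Q) := by omega
  rw [h3, h2]
  rw [show (∃ u : ℕ → ℕ, (∀ b < k, u b < n) ∧ ∀ b d, b < d → d < k → bit (u b * n + u d)) ↔
    ∃ u : ℕ → ℕ, (∀ b < k, u b < n) ∧ ∀ b d, b < d → d < k → adjOf n bit (u b) (u d)
    from Iff.rfl, ← csp_iff]
  constructor
  · rintro ⟨H, hH⟩
    exact ⟨H, fun κ h1 h2 => ((ext_mem_real _).mp (hH κ h1 h2)).2⟩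
  · rintro ⟨H, hH⟩
    refine ⟨H, fun κ h1 h2 => (ext_mem_real _).mpr ⟨?_, hH κ h1 h2⟩⟩
    refine ⟨h1, h2, fun hr => H.h_lt hr, fun hr => H.h0 _ hr, fun hr => H.h_lt hr,
      fun hr => H.h0 _ hr⟩

theorem jobs_pos : 1 ≤ (jobsOf k n bit).length := by
  have hK := (frame k n).hK
  have hm := (frame k n).hm
  have hreg : ∀ ν, ν < 2 * (frame k n).m → (frame k n).reg ν = false := by
    intro ν hν
    by_contra h
    have := Frame.reg_lt (by simpa using h : (frame k n).reg ν = true)
    omega
  have h1 : RJob.ext 1 0 0 ∈ jobsOf k n bit := by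
    refine (ext_mem_real _).mpr ⟨⟨le_rfl, by omega, ?_, fun _ => rfl, ?_, fun _ => rfl⟩, ?_, ?_⟩
    · intro h; rw [hreg 1 (by omega)] at h; cases h
    · intro h; rw [hreg _ (by omega)] at h; cases h
    · intro h; rw [hreg 1 (by omega)] at h; cases h
    · intro h; rw [hreg 1 (by omega)] at h; cases h
  exact List.length_pos_of_mem h1

/-- The check on the value: the lower half of the bits vanishes. -/
def lowZero (z : ℕ) : Prop := ∀ i < z.size / 2, z.testBit i = false

theorem lowZero_iff : lowZero (opt (inst k n bit)) ↔ opt (inst k n bit) = bound k n bit := by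
  obtain ⟨h1, _⟩ := inst_opt k n bit
  have h2 := opt_le (frame k n) (L := jobsOf k n bit) (X := extraW (frame k n) (jobsOf k n bit))
    (real_good (okRel k n (adjOf n bit))) (nodup_real (okRel k n (adjOf n bit)))
  have hs := extra_sum (F := frame k n) (jobsOf k n bit) (frame_K k n)
  change opt (inst k n bit) ≤ _ at h2
  have hl := jobs_pos k n bit
  set s := sHalf (frame k n) (jobsOf k n bit).length with hsd
  have hM : (frame k n).M0 * ((frame k n).m * (frame k n).PS) < 2 ^ s := by
    have h3 : (frame k n).M0 * ((frame k n).m * (frame k n).PS) <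
        2 ^ ((frame k n).W * (frame k n).K) * 2 ^ ((frame k n).m * (frame k n).PS) :=
      Nat.mul_lt_mul_of_pos_left Nat.lt_two_pow_self (by unfold Frame.M0; positivity)
    rw [← pow_add] at h3
    refine lt_of_lt_of_le h3 (pow_ge ?_)
    rw [hsd]; unfold sHalf; omega
  have hlen : (jobsOf k n bit).length < 2 ^ s := by
    refine lt_of_lt_of_le Nat.lt_two_pow_self (pow_ge ?_)
    rw [hsd]; unfold sHalf; omega
  have hb : bound k n bit = (jobsOf k n bit).length * 2 ^ (2 * s) := rfl
  generalize opt (inst k n bit) = z at *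
  have hzb : bound k n bit ≤ z := h1
  have hz : z < bound k n bit + 2 ^ s := by omega
  have hpow : 2 ^ (2 * s) ≤ bound k n bit := by
    rw [hb]; exact Nat.le_mul_of_pos_left _ hl
  constructor
  · intro h
    by_contra hne
    -- the gap is nonzero and below `2 ^ s`
    have hgap : z % 2 ^ s ≠ 0 := by
      have e1 : z = 2 ^ s * ((jobsOf k n bit).length * 2 ^ s) + (z - bound k n bit) := by
        have : 2 ^ s * ((jobsOf k n bit).length * 2 ^ s) = bound k n bit := by
          rw [hb, two_mul, pow_add]; ring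
        rw [this]; omega
      rw [e1, Nat.mul_add_mod, Nat.mod_eq_of_lt (by omega)]
      omega
    have hsz : 2 * s < z.size := by
      rw [Nat.lt_size]; omega
    apply hgap
    apply Nat.eq_of_testBit_eq
    intro i
    rw [Nat.zero_testBit, Nat.testBit_mod_two_pow]
    by_cases hi : i < s
    · rw [h i (by omega)]; simp
    · simp [hi]
  · intro h
    rw [h]
    intro i hi
    rw [hb, mul_comm, Nat.testBit_two_pow_mul]
    have hsz : (bound k n bit).size ≤ 3 * s := by
      rw [Nat.size_le, hb]
      calc (jobsOf k n bit).length * 2 ^ (2 * s) < 2 ^ s * 2 ^ (2 * s) :=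
            Nat.mul_lt_mul_of_pos_right hlen (by positivity)
        _ = 2 ^ (3 * s) := by rw [← pow_add]; congr 1; ring
    rw [hb] at hsz hi
    have : ¬ (2 * s ≤ i) := by omega
    simp [this]

end Graph

end Pool.Agent.OpenShop
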