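import Mathlib
import Pool.Agent.OpenShop.Inst
import Pool.Agent.Lib.PolyTime.PB

/-!
# Expressions for the parts of the instance
-/

namespace Pool.Agent.OpenShop

open Pool.Agent.PolyTime

/-! ### Generalities -/

theorem top {α : Type} [Ctx α] {F : List Bool → ℕ} (h : PF (fun x (_ : Unit) => F x)) :
    PF (fun x (_ : α) => F x) :=
  PF.proj (π := fun _ : α => ()) ⟨Nat.zero_le _, fun _ i hi => absurd hi (Nat.not_lt_zero i)⟩ h

theorem PD_imp {α : Type} [Ctx α] {P Q : List Bool → α → Prop} (hP : PD P) (hQ : PD Q) :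
    PD (fun x a => P x a → Q x a) := (hP.not.or hQ).congr fun x a => by tauto

theorem pfBits_of_PL {f : List Bool → List Bool} (h : PL (fun x (_ : Unit) => f x)) :
    PFBits f := by
  obtain ⟨L, P, hL, ⟨B, hB, hPB⟩, hf⟩ := h
  refine ⟨fun x => L x (), fun x i => B x ((), i), hL, hB, fun x => ?_⟩
  refine (hf x ()).trans ?_
  apply List.map_congr_left
  intro i _
  have := hPB x ((), i)
  by_cases h : P x ((), i)
  · have h' := this.mp h
    simp [h, h']
  · have h' : B x ((), i) = 0 := by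
      by_contra h0
      exact h (this.mpr h0)
    simp [h, h']

theorem PL_encNat {α : Type} [Ctx α] {w : List Bool → α → ℕ} (hw : PB w) :
    PL (fun x a => encNat (w x a)) := by
  refine (PL.bind hw.natBits (fun _ _ b => [true, b]) ?_ ?_).append (PL.const_cons false)
  · exact ((PL.const_cons true).append (PL.const_cons false)).congr fun _ _ => rfl
  · exact ((PL.const_cons true).append (PL.const_cons true)).congr fun _ _ => rfl

theorem PL_encJob {α : Type} [Ctx α] {r d w : List Bool → α → ℕ} (hr : PF r) (hd : PF d)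
    (hw : PB w) : PL (fun x a => encJob ⟨r x a, d x a, w x a⟩) :=
  ((PL_encNat (PB.ofPF hr)).append (PL_encNat (PB.ofPF hd))).append (PL_encNat hw)

/-! ### The frame -/

section FrameE

variable {α : Type} [Ctx α] {k n : List Bool → ℕ}
  (hk : PF (fun x (_ : Unit) => k x)) (hn : PF (fun x (_ : Unit) => n x))

include hk in
theorem pf_m : PF (fun x (_ : α) => (frame (k x) (n x)).m) :=
  ((PF.const 2).mul (top hk)).add (PF.const 1)

include hn in
theorem pf_N : PF (fun x (_ : α) => (frame (k x) (n x)).N) := (top hn).mul (top hn)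

include hk in
theorem pf_K : PF (fun x (_ : α) => (frame (k x) (n x)).K) :=
  (((PF.const 2).mul (top hk)).add (PF.const 1)).mul ((top hk).add (PF.const 2))

include hn in
theorem pf_W : PF (fun x (_ : α) => (frame (k x) (n x)).W) :=
  (((PF.const 2).mul (pf_N (k := k) hn)).add (PF.const 3)).congr fun _ _ => rfl

include hk in
theorem pf_q {V : List Bool → α → ℕ} (hV : PF V) : PF (fun x a => V x a / (2 * k x + 1)) :=
  hV.div (pf_m (n := k) hk)

include hk in
theorem pf_r {V : List Bool → α → ℕ} (hV : PF V) : PF (fun x a => V x a % (2 * k x + 1)) :=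
  hV.mod (pf_m (n := k) hk)

include hk in
theorem pd_fst {V : List Bool → α → ℕ} (hV : PF V) :
    PD (fun x a => (frame (k x) (n x)).fst (V x a) = true) := by
  refine ((PD.le (PF.const 2) (pf_q hk hV)).and ((PD.lt (pf_q hk hV)
    ((top hk).add (PF.const 2))).and ((PD.lt (pf_r hk hV) ((PF.const 2).mul (top hk))).and
    (PD.eq ((pf_r hk hV).mod (PF.const 2)) (PF.const 0))))).congr fun x a => ?_
  show _ ↔ decide (isFst (k x) (V x a)) = true
  rw [decide_eq_true_eq]
  rfl

include hk in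
theorem pd_snd {V : List Bool → α → ℕ} (hV : PF V) :
    PD (fun x a => (frame (k x) (n x)).snd (V x a) = true) := by
  refine ((PD.le (PF.const 1) hV).and (pd_fst (n := n) hk (hV.sub (PF.const 1)))).congr
    fun x a => ?_
  rcases h : V x a with _ | v
  · simp [Frame.snd]
  · rw [Frame.snd_succ]
    simp

include hk in
theorem pd_reg {V : List Bool → α → ℕ} (hV : PF V) :
    PD (fun x a => (frame (k x) (n x)).reg (V x a) = true) :=
  ((pd_fst (n := n) hk hV).or (pd_snd hk hV)).congr fun x a => by rw [Frame.reg_iff]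

include hk hn

theorem pf_ns {V : List Bool → α → ℕ} (hV : PF V) :
    PF (fun x a => (frame (k x) (n x)).ns (V x a)) :=
  PF.ite (pd_reg hk hV) (pf_N hn) (PF.const 1)

theorem pf_len {V : List Bool → α → ℕ} (hV : PF V) :
    PF (fun x a => (frame (k x) (n x)).len (V x a)) :=
  PF.ite (pd_fst hk hV) ((pf_N hn).mul ((pf_m hk).add (PF.const 2)))
    (PF.ite (pd_snd hk hV) (PF.const 0) (PF.const 1))

theorem pf_bt {V : List Bool → α → ℕ} (hV : PF V) :
    PF (fun x a => (frame (k x) (n x)).bt (V x a)) :=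
  PF.sum hV (F := fun x (p : α × ℕ) => (frame (k x) (n x)).len p.2) (pf_len hk hn PF.snd)

theorem pf_sti {V Z : List Bool → α → ℕ} (hV : PF V) (hZ : PF Z) :
    PF (fun x a => (frame (k x) (n x)).sti (V x a) (Z x a)) :=
  PF.ite (pd_fst hk hV)
    (((pf_bt hk hn hV).add (hZ.mul ((pf_m hk).add (PF.const 2)))).add (pf_m hk))
    (PF.ite (pd_snd hk hV)
      ((((pf_bt hk hn (hV.sub (PF.const 1))).add (hZ.mul ((pf_m hk).add (PF.const 2)))).add
        (pf_m hk)).add (PF.const 1))
      (pf_bt hk hn hV))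

theorem pf_e {V Z : List Bool → α → ℕ} (hV : PF V) (hZ : PF Z) :
    PF (fun x a => (frame (k x) (n x)).e (V x a) (Z x a)) := by
  have h1 : PF (fun x a => 2 * ((frame (k x) (n x)).N - 1 - Z x a)) :=
    (PF.const 2).mul (((pf_N hn).sub (PF.const 1)).sub hZ)
  exact PF.ite (pd_fst hk hV)
    ((((pf_W hn).mul (((pf_K hk).sub hV).sub (PF.const 1))).add h1).add (PF.const 1))
    (PF.ite (pd_snd hk hV) (((pf_W hn).mul ((pf_K hk).sub hV)).add h1)
      ((pf_W hn).mul ((pf_K hk).sub hV)))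

theorem pb_dl {V Z : List Bool → α → ℕ} (hV : PF V) (hZ : PF Z) :
    PB (fun x a => (frame (k x) (n x)).dl (V x a) (Z x a)) := by
  refine (((PB.pow ((pf_W (k := k) hn).mul ((pf_K (n := n) hk).sub hV))).sub
    (PB.pow (pf_e hk hn hV hZ))).sub
    (PB.pow (pf_e hk hn (hV.add (PF.const 1)) hZ))).sub (PB.pow (hZ.add (PF.const 1))) |>.congr
    fun x a => ?_
  unfold Frame.dl
  rw [pow_succ 2 (Z x a), mul_comm (2 ^ Z x a) 2]

theorem pb_rc {V : List Bool → α → ℕ} (hV : PF V) :
    PB (fun x a => (frame (k x) (n x)).rc (V x a)) :=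
  PB.ite (pd_snd hk hV) (PB.ofPF (PF.const 0)) (PB.pow ((pf_W hn).mul ((pf_K hk).sub hV)))

theorem pb_M0 : PB (fun x (_ : α) => (frame (k x) (n x)).M0) :=
  PB.pow ((pf_W hn).mul (pf_K hk))

theorem pf_PS : PF (fun x (_ : α) => (frame (k x) (n x)).PS) := by
  refine PF.sum (pf_K hk) (F := fun x (p : α × ℕ) =>
    ((if (frame (k x) (n x)).m ≤ p.2 then (frame (k x) (n x)).ns p.2 else 0) +
      (if (frame (k x) (n x)).fst p.2 = true then
        2 * ((frame (k x) (n x)).N * (frame (k x) (n x)).m) else 0))) ?_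
  exact (PF.ite (PD.le (pf_m hk) PF.snd) (pf_ns hk hn PF.snd) (PF.const 0)).add
    (PF.ite (pd_fst hk PF.snd) ((PF.const 2).mul ((pf_N hn).mul (pf_m hk))) (PF.const 0))

/-! weights of the jobs -/

theorem pb_jw_tight {V Z I : List Bool → α → ℕ} (hV : PF V) (hZ : PF Z) (hI : PF I) :
    PB (fun x a => (frame (k x) (n x)).jw (.tight (V x a) (Z x a) (I x a))) :=
  (PB.shift (PB.ofPF ((PF.const 2).mul (pf_m hk))) ((pf_W hn).mul (pf_K hk))).sub
    (PB.ite (PD.eq hI (PF.const 0)) (pb_dl hk hn hV hZ) (PB.ofPF (PF.const 0)))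

theorem pb_jw_loose {V Z I : List Bool → α → ℕ} :
    PB (fun x a => (frame (k x) (n x)).jw (.loose (V x a) (Z x a) (I x a))) :=
  (PB.shift (PB.ofPF (((PF.const 2).mul (pf_m hk)).sub (PF.const 2)))
    ((pf_W hn).mul (pf_K hk))).sub (PB.ofPF (PF.const 0))

theorem pb_jw_ext {V Z I : List Bool → α → ℕ} (hV : PF V) (hZ : PF Z) (hI : PF I) :
    PB (fun x a => (frame (k x) (n x)).jw (.ext (V x a) (Z x a) (I x a))) :=
  (PB.shift (PB.ofPF (((pf_m hk).sub ((pf_m hk).sub hV)).sub ((hV.add (pf_m hk)).sub (pf_K hk))))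
    ((pf_W hn).mul (pf_K hk))).sub
    ((PB.pow (pf_e hk hn hV hZ)).add
      (PB.ite (pd_reg hk ((hV.add (pf_m hk)).sub (PF.const 1))) (PB.pow hI)
        (PB.ofPF (PF.const 0))))

/-! release and due dates -/

theorem pf_jr_tight {V Z I : List Bool → α → ℕ} (hV : PF V) (hZ : PF Z) :
    PF (fun x a => (frame (k x) (n x)).jr (.tight (V x a) (Z x a) (I x a))) :=
  (pf_bt hk hn hV).add (hZ.mul ((pf_m hk).add (PF.const 2)))

theorem pf_jr_loose {V Z I : List Bool → α → ℕ} (hV : PF V) (hZ : PF Z) :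
    PF (fun x a => (frame (k x) (n x)).jr (.loose (V x a) (Z x a) (I x a))) :=
  (pf_bt hk hn hV).add (hZ.mul ((pf_m hk).add (PF.const 2)))

theorem pf_jr_ext {V Z I : List Bool → α → ℕ} (hV : PF V) (hZ : PF Z) :
    PF (fun x a => (frame (k x) (n x)).jr (.ext (V x a) (Z x a) (I x a))) :=
  pf_sti hk hn hV hZ

theorem pf_jd_tight {V Z I : List Bool → α → ℕ} (hV : PF V) (hZ : PF Z) :
    PF (fun x a => (frame (k x) (n x)).jd (.tight (V x a) (Z x a) (I x a))) :=
  ((pf_bt hk hn hV).add (hZ.mul ((pf_m hk).add (PF.const 2)))).add (pf_m hk)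

theorem pf_jd_loose {V Z I : List Bool → α → ℕ} (hV : PF V) (hZ : PF Z) :
    PF (fun x a => (frame (k x) (n x)).jd (.loose (V x a) (Z x a) (I x a))) :=
  (((pf_bt hk hn hV).add (hZ.mul ((pf_m hk).add (PF.const 2)))).add (pf_m hk)).add (PF.const 2)

theorem pf_jd_ext {V Z I : List Bool → α → ℕ} (hV : PF V) (hI : PF I) :
    PF (fun x a => (frame (k x) (n x)).jd (.ext (V x a) (Z x a) (I x a))) :=
  (pf_sti hk hn ((hV.add (pf_m hk)).sub (PF.const 1)) hI).add (PF.const 1)

end FrameE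

end Pool.Agent.OpenShop
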