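import Mathlib
import Pool.Agent.OpenShop.Code

/-!
# The instance of a graph is computed in polynomial time
-/

namespace Pool.Agent.OpenShop

open Pool.Agent.PolyTime

/-! ### Flattening the lists of jobs -/

theorem realZ_fm (F : Frame) (g : RJob → List Bool) : (realZ F).flatMap g =
    (List.range F.K).flatMap fun β => if F.fst β = true then
      (List.range F.N).flatMap fun z => (List.range F.m).flatMap fun i =>
        g (.tight β z i) ++ g (.loose β z i) else [] := by
  unfold realZ
  rw [List.flatMap_assoc]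
  apply List.flatMap_congr
  intro β _
  split_ifs
  · rw [List.flatMap_assoc]
    apply List.flatMap_congr
    intro z _
    rw [List.flatMap_assoc]
    apply List.flatMap_congr
    intro i _
    simp
  · rfl

theorem realE_fm (F : Frame) (ok : ℕ → ℕ → ℕ → Prop) [∀ κ x y, Decidable (ok κ x y)]
    (g : RJob → List Bool) : (realE F ok).flatMap g =
    (List.range F.K).flatMap fun κ => if 1 ≤ κ then
      (List.range (F.ns κ)).flatMap fun x => (List.range (F.ns (κ + F.m - 1))).flatMap fun y =>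
        if ok κ x y then g (.ext κ x y) else [] else [] := by
  unfold realE
  rw [List.flatMap_assoc]
  apply List.flatMap_congr
  intro β _
  split_ifs
  · rw [List.flatMap_assoc]
    apply List.flatMap_congr
    intro z _
    rw [List.flatMap_assoc]
    apply List.flatMap_congr
    intro i _
    split_ifs
    · simp
    · rfl
  · rfl

theorem real_fm (F : Frame) (ok : ℕ → ℕ → ℕ → Prop) [∀ κ x y, Decidable (ok κ x y)]
    (g : RJob → List Bool) : (real F ok).flatMap g =
    ((List.range F.K).flatMap fun β => if F.fst β = true then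
      (List.range F.N).flatMap fun z => (List.range F.m).flatMap fun i =>
        g (.tight β z i) ++ g (.loose β z i) else []) ++
    ((List.range F.K).flatMap fun κ => if 1 ≤ κ then
      (List.range (F.ns κ)).flatMap fun x => (List.range (F.ns (κ + F.m - 1))).flatMap fun y =>
        if ok κ x y then g (.ext κ x y) else [] else []) := by
  unfold real
  rw [List.flatMap_append, realZ_fm, realE_fm]

section Poly

variable {k n : List Bool → ℕ} (hk : PF (fun x (_ : Unit) => k x))
  (hn : PF (fun x (_ : Unit) => n x)) {bit : List Bool → ℕ → Prop}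
  [∀ x, DecidablePred (bit x)] (hb : PD (fun x (p : Unit × ℕ) => bit x p.2))

include hk hn hb

theorem pd_bit {α : Type} [Ctx α] {V : List Bool → α → ℕ} (hV : PF V) :
    PD (fun x a => bit x (V x a)) :=
  PD.sub1 (π := fun _ : α => ()) ⟨Nat.zero_le _, fun _ i hi => absurd hi (Nat.not_lt_zero i)⟩
    hV hb

theorem pd_ok {α : Type} [Ctx α] {V X Y : List Bool → α → ℕ} (hV : PF V) (hX : PF X)
    (hY : PF Y) :
    PD (fun x a => okRel (k x) (n x) (adjOf (n x) (bit x)) (V x a) (X x a) (Y x a)) := by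
  have hq := pf_q hk hV
  have hr := pf_r hk hV
  have hxd := hX.div (top hn)
  have hxm := hX.mod (top hn)
  have hyd := hY.div (top hn)
  have hym := hY.mod (top hn)
  refine PD.and ?_ ?_
  · refine PD_imp (pd_reg (n := n) hk hV) (PD.and ?_ ?_)
    · exact PD_imp (PD.eq hq (PF.const 2)) (PD.eq hxd hxm)
    · refine PD_imp (PD.lt (PF.const 2) hq) (PD_imp (PD.lt (hq.add (hr.div (PF.const 2)))
        ((top hk).add (PF.const 2))) ?_)
      exact pd_bit hk hn hb ((hxd.mul (top hn)).add hxm)
  · refine PD_imp (pd_reg (n := n) hk hV) (PD_imp (pd_reg (n := n) hk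
      ((hV.add (pf_m (n := n) hk)).sub (PF.const 1))) (PD.and ?_ ?_))
    · exact PD_imp (PD.eq (hr.mod (PF.const 2)) (PF.const 1)) (PD.eq hxd hyd)
    · exact PD_imp (PD.eq (hr.mod (PF.const 2)) (PF.const 0)) (PD.eq hxm hym)

/-- Flattenings of the list of real jobs. -/
theorem pl_jobs {g : List Bool → RJob → List Bool}
    (h1 : PL (fun x (p : ((Unit × ℕ) × ℕ) × ℕ) => g x (.tight p.1.1.2 p.1.2 p.2)))
    (h2 : PL (fun x (p : ((Unit × ℕ) × ℕ) × ℕ) => g x (.loose p.1.1.2 p.1.2 p.2)))
    (h3 : PL (fun x (p : ((Unit × ℕ) × ℕ) × ℕ) => g x (.ext p.1.1.2 p.1.2 p.2))) :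
    PL (fun x (_ : Unit) => (jobsOf (k x) (n x) (bit x)).flatMap (g x)) := by
  have hv1 : PF (fun (_ : List Bool) (p : Unit × ℕ) => p.2) := PF.snd
  have hv2 : PF (fun (_ : List Bool) (p : (Unit × ℕ) × ℕ) => p.1.2) := PF.snd.fst
  have hv3 : PF (fun (_ : List Bool) (p : ((Unit × ℕ) × ℕ) × ℕ) => p.1.1.2) := PF.snd.fst.fst
  have hw3 : PF (fun (_ : List Bool) (p : ((Unit × ℕ) × ℕ) × ℕ) => p.1.2) := PF.snd.fst
  refine PL.congr ?_ (fun x a => (real_fm (frame (k x) (n x))
    (okRel (k x) (n x) (adjOf (n x) (bit x))) (g x)).symm)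
  refine PL.append ?_ ?_
  · refine PL.flatMap (G := fun x (p : Unit × ℕ) => if (frame (k x) (n x)).fst p.2 = true then
      (List.range (frame (k x) (n x)).N).flatMap fun z => (List.range (frame (k x) (n x)).m).flatMap
        fun i => g x (.tight p.2 z i) ++ g x (.loose p.2 z i) else []) (pf_K (n := n) hk) ?_
    refine PL.ite (pd_fst (n := n) hk hv1) ?_ PL.nil
    refine PL.flatMap (G := fun x (p : (Unit × ℕ) × ℕ) => (List.range (frame (k x) (n x)).m).flatMap
        fun i => g x (.tight p.1.2 p.2 i) ++ g x (.loose p.1.2 p.2 i)) (pf_N (k := k) hn) ?_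
    exact PL.flatMap (G := fun x (p : ((Unit × ℕ) × ℕ) × ℕ) =>
      g x (.tight p.1.1.2 p.1.2 p.2) ++ g x (.loose p.1.1.2 p.1.2 p.2)) (pf_m (n := n) hk)
      (h1.append h2)
  · refine PL.flatMap (G := fun x (p : Unit × ℕ) => if 1 ≤ p.2 then
      (List.range ((frame (k x) (n x)).ns p.2)).flatMap fun u =>
        (List.range ((frame (k x) (n x)).ns (p.2 + (frame (k x) (n x)).m - 1))).flatMap
        fun v => if okRel (k x) (n x) (adjOf (n x) (bit x)) p.2 u v then g x (.ext p.2 u v)
          else [] else []) (pf_K (n := n) hk) ?_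
    refine PL.ite (PD.le (PF.const 1) hv1) ?_ PL.nil
    refine PL.flatMap (G := fun x (p : (Unit × ℕ) × ℕ) =>
        (List.range ((frame (k x) (n x)).ns (p.1.2 + (frame (k x) (n x)).m - 1))).flatMap
        fun v => if okRel (k x) (n x) (adjOf (n x) (bit x)) p.1.2 p.2 v then g x (.ext p.1.2 p.2 v)
          else []) (pf_ns hk hn hv1) ?_
    refine PL.flatMap (G := fun x (p : ((Unit × ℕ) × ℕ) × ℕ) =>
      if okRel (k x) (n x) (adjOf (n x) (bit x)) p.1.1.2 p.1.2 p.2 then
        g x (.ext p.1.1.2 p.1.2 p.2) else []) (pf_ns hk hn ((hv2.add (pf_m hk)).sub (PF.const 1))) ?_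
    exact PL.ite (pd_ok hk hn hb hv3 hw3 PF.snd) h3 PL.nil

theorem pf_count : PF (fun x (_ : Unit) => (jobsOf (k x) (n x) (bit x)).length) := by
  have h : PL (fun x (_ : Unit) => (jobsOf (k x) (n x) (bit x)).flatMap (fun _ => [true])) :=
    pl_jobs hk hn hb (g := fun _ _ => [true]) (PL.const_cons true) (PL.const_cons true)
      (PL.const_cons true)
  refine h.length.congr fun x _ => ?_
  simp [List.length_flatMap]

theorem pf_sHalf : PF (fun x (_ : Unit) =>
    sHalf (frame (k x) (n x)) (jobsOf (k x) (n x) (bit x)).length) :=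
  (((((pf_W (k := k) hn).mul (pf_K (n := n) hk)).add ((pf_m (n := n) hk).mul (pf_PS hk hn))).add
    (pf_count hk hn hb)).add ((PF.const 2).mul (pf_m (n := n) hk)))

/-- The code of the instance. -/
theorem pl_inst : PL (fun x (_ : Unit) => encShop (inst (k x) (n x) (bit x))) := by
  have hv2 : PF (fun (_ : List Bool) (p : Unit × ℕ) => p.2) := PF.snd
  have hv3 : PF (fun (_ : List Bool) (p : ((Unit × ℕ) × ℕ) × ℕ) => p.1.1.2) := PF.snd.fst.fst
  have hw3 : PF (fun (_ : List Bool) (p : ((Unit × ℕ) × ℕ) × ℕ) => p.1.2) := PF.snd.fst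
  have hu3 : PF (fun (_ : List Bool) (p : ((Unit × ℕ) × ℕ) × ℕ) => p.2) := PF.snd
  have hs : ∀ {α : Type} [Ctx α], PB (fun x (_ : α) =>
      2 ^ (2 * sHalf (frame (k x) (n x)) (jobsOf (k x) (n x) (bit x)).length)) := fun {α} _ =>
    PB.pow ((PF.const 2).mul (top (pf_sHalf hk hn hb)))
  have h0 : ∀ {α : Type} [Ctx α], PF (fun (_ : List Bool) (_ : α) => 0) := PF.const 0
  -- real jobs
  have p1 : PL (fun x (_ : Unit) => (jobsOf (k x) (n x) (bit x)).flatMap
      (fun j => encJob (mkJob (frame (k x) (n x)) j))) := by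
    refine pl_jobs hk hn hb (g := fun x j => encJob (mkJob (frame (k x) (n x)) j)) ?_ ?_ ?_
    · exact PL_encJob (pf_jr_tight (I := fun _ p => p.2) hk hn hv3 hw3)
        (pf_jd_tight (I := fun _ p => p.2) hk hn hv3 hw3) (pb_jw_tight hk hn hv3 hw3 hu3)
    · exact PL_encJob (pf_jr_loose (I := fun _ p => p.2) hk hn hv3 hw3)
        (pf_jd_loose (I := fun _ p => p.2) hk hn hv3 hw3)
        (pb_jw_loose (V := fun _ p => p.1.1.2) (Z := fun _ p => p.1.2) (I := fun _ p => p.2) hk hn)
    · exact PL_encJob (pf_jr_ext (I := fun _ p => p.2) hk hn hv3 hw3)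
        (pf_jd_ext (Z := fun _ p => p.1.2) hk hn hv3 hu3) (pb_jw_ext hk hn hv3 hw3 hu3)
  -- complements
  have p2 : PL (fun x (_ : Unit) => (jobsOf (k x) (n x) (bit x)).flatMap
      (fun j => encJob ⟨0, 0, 2 ^ (2 * sHalf (frame (k x) (n x))
        (jobsOf (k x) (n x) (bit x)).length) - (frame (k x) (n x)).jw j⟩)) := by
    refine pl_jobs hk hn hb (g := fun x j => encJob ⟨0, 0, 2 ^ (2 * sHalf (frame (k x) (n x))
        (jobsOf (k x) (n x) (bit x)).length) - (frame (k x) (n x)).jw j⟩) ?_ ?_ ?_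
    · exact PL_encJob h0 h0 (hs.sub (pb_jw_tight hk hn hv3 hw3 hu3))
    · exact PL_encJob h0 h0 (hs.sub
        (pb_jw_loose (V := fun _ p => p.1.1.2) (Z := fun _ p => p.1.2) (I := fun _ p => p.2) hk hn))
    · exact PL_encJob h0 h0 (hs.sub (pb_jw_ext hk hn hv3 hw3 hu3))
  -- the constant
  have p3 : PL (fun x (_ : Unit) => (List.range ((frame (k x) (n x)).m *
      (frame (k x) (n x)).PS)).flatMap (fun p => encJob ⟨0, 0, (frame (k x) (n x)).M0 -
        if p + 1 < (frame (k x) (n x)).K then (frame (k x) (n x)).rc (p + 1) else 0⟩)) := by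
    refine PL.flatMap (G := fun x (p : Unit × ℕ) => encJob ⟨0, 0, (frame (k x) (n x)).M0 -
        if p.2 + 1 < (frame (k x) (n x)).K then (frame (k x) (n x)).rc (p.2 + 1) else 0⟩)
      ((pf_m (n := n) hk).mul (pf_PS hk hn)) ?_
    refine PL_encJob h0 h0 ((pb_M0 hk hn).sub (PB.ite (PD.lt (hv2.add (PF.const 1))
      (pf_K (n := n) hk)) (pb_rc hk hn (hv2.add (PF.const 1))) (PB.ofPF (PF.const 0))))
  refine (((PL_encNat (PB.ofPF (pf_m (n := n) hk))).append (p1.append (p2.append p3)))).congr
    fun x _ => ?_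
  unfold encShop inst shop extraW
  simp only [List.map_append, List.flatMap_append, List.flatMap_map, List.map_map]
  rfl

/-- The code of the bound. -/
theorem pl_bound : PL (fun x (_ : Unit) => encNat (bound (k x) (n x) (bit x))) := by
  refine PL_encNat ((PB.shift (PB.ofPF (pf_count hk hn hb))
    ((PF.const 2).mul (pf_sHalf hk hn hb))).congr fun x _ => ?_)
  unfold bound
  rw [mul_comm]

end Poly

end Pool.Agent.OpenShop
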