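import Mathlib
import Pool.Agent.OpenShop.InstPoly
import Pool.Agent.Lib.PolyTime.FPT

/-!
# The reduction from `k`-Clique
-/

namespace Pool.Agent.OpenShop

open Pool.Agent.PolyTime

/-! ### Decoding -/

/-- number of consecutive ones from position `o` on -/
def ones (x : List Bool) (o : ℕ) : ℕ :=
  ((Finset.range x.length).filter (fun i => ∀ j < i + 1, x.getD (o + j) false = true)).card

theorem ones_eq {x : List Bool} {o c : ℕ} (h1 : ∀ j < c, x.getD (o + j) false = true)
    (h2 : x.getD (o + c) false = false) (h3 : c ≤ x.length) : ones x o = c := by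
  have : (Finset.range x.length).filter (fun i => ∀ j < i + 1, x.getD (o + j) false = true) =
      Finset.range c := by
    ext i
    rw [Finset.mem_filter, Finset.mem_range, Finset.mem_range]
    constructor
    · rintro ⟨_, h⟩
      by_contra hc
      have := h c (by omega)
      rw [h2] at this
      cases this
    · intro h
      exact ⟨by omega, fun j hj => h1 j (by omega)⟩
  unfold ones
  rw [this, Finset.card_range]

def kk (x : List Bool) : ℕ := ones x 0

def nn (x : List Bool) : ℕ := ones x (kk x + 1)

def bitx (x : List Bool) (i : ℕ) : Prop := x.getD (kk x + 1 + nn x + 1 + i) false = true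

instance (x : List Bool) : DecidablePred (bitx x) := fun i => by unfold bitx; infer_instance

theorem pf_ones {o : List Bool → ℕ} (ho : PF (fun x (_ : Unit) => o x)) :
    PF (fun x (_ : Unit) => ones x (o x)) := by
  refine PF.count (P := fun x (p : Unit × ℕ) => ∀ j < p.2 + 1, x.getD (o x + j) false = true)
    PF.len ?_
  exact PD.forall_lt (PF.snd.add (PF.const 1)) (P := fun x (q : (Unit × ℕ) × ℕ) =>
    x.getD (o x + q.2) false = true) (PD.bit ((top ho).add PF.snd))

theorem pf_kk : PF (fun x (_ : Unit) => kk x) := pf_ones (o := fun _ => 0) (PF.const 0)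

theorem pf_nn : PF (fun x (_ : Unit) => nn x) :=
  pf_ones (o := fun x => kk x + 1) (pf_kk.add (PF.const 1))

theorem pd_bitx : PD (fun x (p : Unit × ℕ) => bitx x p.2) :=
  PD.bit (((((top pf_kk).add (PF.const 1)).add (top pf_nn)).add (PF.const 1)).add PF.snd)

/-- The reduction on codes. -/
def redF (x : List Bool) : List Bool := encShop (inst (kk x) (nn x) (bitx x))

/-- The reduction on codes, with the bound. -/
def redFB (x : List Bool) : List Bool :=
  encNat (bound (kk x) (nn x) (bitx x)) ++ encShop (inst (kk x) (nn x) (bitx x))

theorem redF_poly : PFBits redF := pfBits_of_PL (pl_inst pf_kk pf_nn pd_bitx)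

theorem redFB_poly : PFBits redFB :=
  pfBits_of_PL ((pl_bound pf_kk pf_nn pd_bitx).append (pl_inst pf_kk pf_nn pd_bitx))

/-! ### Correctness of decoding -/

section Dec

variable (a : CliqueInst)

open Classical in
/-- the adjacency matrix -/
noncomputable def mat (a : CliqueInst) : List Bool :=
  List.ofFn (fun i : Fin (a.n * a.n) => decide (a.G.Adj i.divNat i.modNat))

theorem enc_eq : encClique a = List.replicate a.k true ++ ([false] ++
    (List.replicate a.n true ++ ([false] ++ mat a))) := by
  unfold encClique mat
  simp only [List.append_assoc]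

theorem getD_append_len (l l' : List Bool) (i : ℕ) :
    (l ++ l').getD (l.length + i) false = l'.getD i false := by
  rw [List.getD_append_right _ _ _ _ (Nat.le_add_right _ _), Nat.add_sub_cancel_left]

theorem getD_rep {c i : ℕ} (l : List Bool) (h : i < c) :
    (List.replicate c true ++ l).getD i false = true := by
  rw [List.getD_append _ _ _ _ (by simpa using h), List.getD_eq_getElem _ _ (by simpa using h)]
  simp

theorem kk_enc : kk (encClique a) = a.k := by
  refine ones_eq ?_ ?_ ?_
  · intro j hj
    rw [enc_eq, zero_add]
    exact getD_rep _ hj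
  · rw [enc_eq, zero_add]
    have := getD_append_len (List.replicate a.k true) ([false] ++
      (List.replicate a.n true ++ ([false] ++ mat a))) 0
    rw [List.length_replicate, add_zero] at this
    rw [this]
    rfl
  · rw [enc_eq, List.length_append, List.length_replicate]
    omega

theorem tail_enc (i : ℕ) : (encClique a).getD (a.k + 1 + i) false =
    (List.replicate a.n true ++ ([false] ++ mat a)).getD i false := by
  rw [enc_eq, add_assoc]
  have := getD_append_len (List.replicate a.k true) ([false] ++
    (List.replicate a.n true ++ ([false] ++ mat a))) (1 + i)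
  rw [List.length_replicate] at this
  rw [this]
  exact getD_append_len [false] _ i

theorem nn_enc : nn (encClique a) = a.n := by
  unfold nn
  rw [kk_enc]
  refine ones_eq ?_ ?_ ?_
  · intro j hj
    rw [tail_enc]
    exact getD_rep _ hj
  · rw [tail_enc]
    have := getD_append_len (List.replicate a.n true) ([false] ++ mat a) 0
    rw [List.length_replicate, add_zero] at this
    rw [this]
    rfl
  · rw [enc_eq]
    simp only [List.length_append, List.length_replicate]
    omega

theorem bit_enc (i : ℕ) : bitx (encClique a) i ↔ (mat a).getD i false = true := by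
  unfold bitx
  rw [kk_enc, nn_enc, show a.k + 1 + a.n + 1 + i = a.k + 1 + (a.n + (1 + i)) by ring, tail_enc]
  have := getD_append_len (List.replicate a.n true) ([false] ++ mat a) (1 + i)
  rw [List.length_replicate] at this
  rw [this]
  have := getD_append_len [false] (mat a) i
  rw [List.length_singleton] at this
  rw [this]

theorem bit_mul {u v : ℕ} (hu : u < a.n) (hv : v < a.n) :
    bitx (encClique a) (u * a.n + v) ↔ a.G.Adj ⟨u, hu⟩ ⟨v, hv⟩ := by
  classical
  rw [bit_enc]
  have hlt : u * a.n + v < a.n * a.n := by
    have : (u + 1) * a.n ≤ a.n * a.n := Nat.mul_le_mul_right _ hu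
    rw [Nat.add_mul, one_mul] at this
    omega
  have hlen : u * a.n + v < (mat a).length := by
    unfold mat
    rw [List.length_ofFn]
    exact hlt
  rw [List.getD_eq_getElem _ _ hlen]
  unfold mat
  rw [List.getElem_ofFn, decide_eq_true_eq]
  have hn : 0 < a.n := by omega
  have e1 : (⟨u * a.n + v, hlt⟩ : Fin (a.n * a.n)).divNat = ⟨u, hu⟩ := by
    apply Fin.ext
    rw [Fin.coe_divNat]
    show (u * a.n + v) / a.n = u
    rw [mul_comm, Nat.mul_add_div hn, Nat.div_eq_of_lt hv, add_zero]
  have e2 : (⟨u * a.n + v, hlt⟩ : Fin (a.n * a.n)).modNat = ⟨v, hv⟩ := by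
    apply Fin.ext
    rw [Fin.coe_modNat]
    show (u * a.n + v) % a.n = v
    rw [mul_comm, Nat.mul_add_mod, Nat.mod_eq_of_lt hv]
  rw [e1, e2]

theorem clique_iff : (∃ u : ℕ → ℕ, (∀ b < a.k, u b < a.n) ∧
    ∀ b d, b < d → d < a.k → bitx (encClique a) (u b * a.n + u d)) ↔ HasClique a := by
  classical
  constructor
  · rintro ⟨u, hu, hadj⟩
    have hadj' : ∀ b d (hb : b < a.k) (hd : d < a.k), b < d →
        a.G.Adj ⟨u b, hu b hb⟩ ⟨u d, hu d hd⟩ := fun b d hb hd hbd =>
      (bit_mul a (hu b hb) (hu d hd)).mp (hadj b d hbd hd)
    let f : Fin a.k → Fin a.n := fun b => ⟨u b, hu b b.2⟩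
    have hne : ∀ b d : Fin a.k, b ≠ d → a.G.Adj (f b) (f d) := by
      intro b d hbd
      rcases lt_or_gt_of_ne hbd with h | h
      · exact hadj' b d b.2 d.2 h
      · exact (hadj' d b d.2 b.2 h).symm
    have hinj : Function.Injective f := by
      intro b d h
      by_contra hbd
      have := hne b d hbd
      rw [h] at this
      exact a.G.irrefl this
    refine ⟨Finset.univ.image f, ?_⟩
    rw [SimpleGraph.isNClique_iff]
    constructor
    · intro x hx y hy hxy
      rw [Finset.mem_coe, Finset.mem_image] at hx hy
      obtain ⟨b, _, rfl⟩ := hx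
      obtain ⟨d, _, rfl⟩ := hy
      exact hne b d (fun h => hxy (by rw [h]))
    · rw [Finset.card_image_of_injective _ hinj, Finset.card_univ, Fintype.card_fin]
  · rintro ⟨s, hs⟩
    rw [SimpleGraph.isNClique_iff] at hs
    obtain ⟨hs, hcard⟩ := hs
    let f := s.orderEmbOfFin hcard
    refine ⟨fun b => if h : b < a.k then f ⟨b, h⟩ else 0, ?_, ?_⟩
    · intro b hb
      simp only [dif_pos hb]
      exact (f ⟨b, hb⟩).2
    · intro b d hbd hd
      have hb : b < a.k := by omega
      simp only [dif_pos hb, dif_pos hd]
      rw [bit_mul a (f ⟨b, hb⟩).2 (f ⟨d, hd⟩).2]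
      refine hs (Finset.mem_coe.mpr (s.orderEmbOfFin_mem hcard _))
        (Finset.mem_coe.mpr (s.orderEmbOfFin_mem hcard _)) ?_
      intro h
      have := f.injective h
      rw [Fin.mk.injEq] at this
      omega

end Dec

/-! ### The reduction on instances -/

/-- The open shop instance of an instance of `k`-Clique. -/
noncomputable def red (a : CliqueInst) : Shop := inst a.k a.n (bitx (encClique a))

/-- The bound. -/
noncomputable def redB (a : CliqueInst) : ℕ := bound a.k a.n (bitx (encClique a))

theorem redF_enc (a : CliqueInst) : redF (encClique a) = encShop (red a) := by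
  unfold redF red
  rw [kk_enc, nn_enc]

theorem redFB_enc (a : CliqueInst) :
    redFB (encClique a) = encNat (redB a) ++ encShop (red a) := by
  unfold redFB red redB
  rw [kk_enc, nn_enc]

theorem red_m (a : CliqueInst) : (red a).m = 2 * a.k + 1 := rfl

theorem red_spec (a : CliqueInst) : HasClique a ↔ opt (red a) ≤ redB a := by
  obtain ⟨h1, h2⟩ := inst_opt a.k a.n (bitx (encClique a))
  rw [clique_iff] at h2
  rw [← h2]
  change opt (red a) = redB a ↔ _
  change redB a ≤ opt (red a) at h1
  omega

theorem red_low (a : CliqueInst) : HasClique a ↔ lowZero (opt (red a)) := by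
  obtain ⟨h1, h2⟩ := inst_opt a.k a.n (bitx (encClique a))
  rw [clique_iff] at h2
  rw [← h2]
  exact (lowZero_iff a.k a.n (bitx (encClique a))).symm

/-! ### The evaluation of the answer -/

/-- Check whether the lower half of a list of bits vanishes. -/
def chk (x : List Bool) : List Bool := [decide (∀ i < x.length / 2, x.getD i false = false)]

theorem chk_poly : PFBits chk := by
  refine pfBits_of_PL (PL.single (P := fun x (_ : Unit) =>
    ∀ i < x.length / 2, x.getD i false = false) ?_)
  refine PD.forall_lt (PF.len.div (PF.const 2)) (P := fun x (p : Unit × ℕ) =>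
    x.getD p.2 false = false) ?_
  exact (PD.bit (PF.snd (α := Unit))).not.congr fun x p => by
    rw [Bool.not_eq_true]

instance : DecidablePred lowZero := fun z => by unfold lowZero; infer_instance

theorem chk_bits (z : ℕ) : chk z.bits = [decide (lowZero z)] := by
  classical
  unfold chk lowZero
  congr 1
  rw [decide_eq_decide, bits_eq, List.length_map, List.length_range]
  refine forall_congr' fun i => ?_
  constructor
  · intro h hi
    have := h hi
    rw [List.getD_eq_getElem _ _ (by simp; omega)] at this
    simpa using this
  · intro h hi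
    rw [List.getD_eq_getElem _ _ (by simp; omega)]
    simpa using h hi

theorem enc_ne (a : CliqueInst) : encClique a ≠ [] := by
  rw [enc_eq]
  simp

end Pool.Agent.OpenShop
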